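import Mathlib

/-!
# Fischer's inequality
-/

set_option autoImplicit false

namespace Pool.Agent.H43.Cube

open Finset Matrix
open scoped MatrixOrder

/-- arithmetic-geometric mean inequality for the determinant of a psd matrix -/
lemma psd_det_le {n : Type} [Fintype n] [DecidableEq n] {H : Matrix n n ℝ} (hH : H.PosSemidef)
    {c : ℝ} (ht : H.trace ≤ c * Fintype.card n) : H.det ≤ c ^ Fintype.card n := by
  rcases Nat.eq_zero_or_pos (Fintype.card n) with hm | hm
  · have := Fintype.card_eq_zero_iff.1 hm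
    simp [Matrix.det_isEmpty]
  have hh := hH.isHermitian
  have h1 : H.det = ∏ i, hh.eigenvalues i := by
    have := hh.det_eq_prod_eigenvalues
    simpa using this
  have h3 : ∑ i, hh.eigenvalues i = H.trace := by
    rw [hh.trace_eq_sum_eigenvalues]; simp
  have hev : ∀ i, 0 ≤ hh.eigenvalues i := fun i => hH.eigenvalues_nonneg i
  set m : ℕ := Fintype.card n with hmdef
  have hm' : (0:ℝ) < m := by exact_mod_cast hm
  have h4 := Real.geom_mean_le_arith_mean_weighted (Finset.univ : Finset n)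
    (fun _ => (1:ℝ)/m) hh.eigenvalues (fun _ _ => by positivity)
    (by simp [← hmdef, hm'.ne']) (fun i _ => hev i)
  have h5 : ∑ i, (1:ℝ)/m * hh.eigenvalues i ≤ c := by
    rw [← Finset.mul_sum, h3]
    calc (1:ℝ)/m * H.trace ≤ (1:ℝ)/m * (c * m) := by gcongr
      _ = c := by field_simp
  have h6 := h4.trans h5
  have h7 : (∏ i, hh.eigenvalues i ^ ((1:ℝ)/m)) ^ m ≤ c ^ m :=
    pow_le_pow_left₀ (Finset.prod_nonneg fun i _ => Real.rpow_nonneg (hev i) _) h6 m
  rw [← Finset.prod_pow] at h7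
  have h8 : ∀ i, (hh.eigenvalues i ^ ((1:ℝ)/m)) ^ m = hh.eigenvalues i := by
    intro i
    rw [← Real.rpow_natCast, ← Real.rpow_mul (hev i)]
    rw [one_div, inv_mul_cancel₀ hm'.ne', Real.rpow_one]
  simp only [h8] at h7
  rw [h1]
  exact h7

/-- comparison of a psd matrix with a positive definite matrix -/
lemma psd_det_compare {n : Type} [Fintype n] [DecidableEq n] {G B : Matrix n n ℝ}
    (hG : G.PosSemidef) (hB : B.PosDef) (ht : (G * B⁻¹).trace ≤ Fintype.card n) :
    G.det ≤ B.det := by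
  obtain ⟨C, hC⟩ := CStarAlgebra.nonneg_iff_eq_star_mul_self.mp hB.inv.posSemidef.nonneg
  have h1 : (C * G * Cᴴ).PosSemidef := hG.mul_mul_conjTranspose_same C
  have h2 : (C * G * Cᴴ).trace ≤ 1 * Fintype.card n := by
    rw [Matrix.mul_assoc, Matrix.trace_mul_comm, Matrix.mul_assoc, one_mul]
    rw [← Matrix.star_eq_conjTranspose, ← hC]
    exact ht
  have h3 := psd_det_le h1 h2
  rw [one_pow, Matrix.det_mul, Matrix.det_mul] at h3
  have h4 : C.det * Cᴴ.det = (B.det)⁻¹ := by
    rw [mul_comm, ← Matrix.det_mul, ← Matrix.star_eq_conjTranspose, ← hC, Matrix.det_nonsing_inv]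
    simp
  have h5 : 0 < B.det := hB.det_pos
  have h6 : G.det * (B.det)⁻¹ ≤ 1 := by
    rw [← h4]
    linarith [h3, mul_comm (C.det) (G.det), mul_assoc (G.det) (C.det) (Cᴴ.det)]
  rw [← div_eq_mul_inv, div_le_one h5] at h6
  exact h6

/-- **Fischer's inequality** -/
lemma fischer_sum {α β : Type} [Fintype α] [DecidableEq α] [Fintype β] [DecidableEq β]
    {G : Matrix (α ⊕ β) (α ⊕ β) ℝ} (hG : G.PosSemidef) :
    G.det ≤ G.toBlocks₁₁.det * G.toBlocks₂₂.det := by
  have hA : G.toBlocks₁₁.PosSemidef := hG.submatrix Sum.inl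
  have hD : G.toBlocks₂₂.PosSemidef := hG.submatrix Sum.inr
  by_cases h0 : G.det = 0
  · rw [h0]
    exact mul_nonneg hA.det_nonneg hD.det_nonneg
  have hP : G.PosDef := hG.posDef_iff_det_ne_zero.2 h0
  have hPA : G.toBlocks₁₁.PosDef := hP.submatrix Sum.inl_injective
  have hPD : G.toBlocks₂₂.PosDef := hP.submatrix Sum.inr_injective
  have hAu : IsUnit G.toBlocks₁₁.det := isUnit_iff_ne_zero.2 hPA.det_pos.ne'
  have hDu : IsUnit G.toBlocks₂₂.det := isUnit_iff_ne_zero.2 hPD.det_pos.ne'
  set B : Matrix (α ⊕ β) (α ⊕ β) ℝ := Matrix.fromBlocks G.toBlocks₁₁ 0 0 G.toBlocks₂₂ with hBdef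
  have hBinv : B⁻¹ = Matrix.fromBlocks (G.toBlocks₁₁)⁻¹ 0 0 (G.toBlocks₂₂)⁻¹ := by
    apply Matrix.inv_eq_right_inv
    rw [hBdef, Matrix.fromBlocks_multiply]
    simp [Matrix.mul_nonsing_inv _ hAu, Matrix.mul_nonsing_inv _ hDu]
  have hBdet : B.det = G.toBlocks₁₁.det * G.toBlocks₂₂.det := by
    rw [hBdef, Matrix.det_fromBlocks_zero₂₁]
  have hBpsd : B.PosSemidef := by
    refine Matrix.PosSemidef.of_dotProduct_mulVec_nonneg ?_ ?_
    · rw [hBdef, Matrix.isHermitian_fromBlocks_iff]
      exact ⟨hA.1, by simp, by simp, hD.1⟩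
    · intro x
      have h1 := hA.dotProduct_mulVec_nonneg (fun i => x (Sum.inl i))
      have h2 := hD.dotProduct_mulVec_nonneg (fun i => x (Sum.inr i))
      have h3 : star x ⬝ᵥ B *ᵥ x = star (fun i => x (Sum.inl i)) ⬝ᵥ
          G.toBlocks₁₁ *ᵥ (fun i => x (Sum.inl i)) + star (fun i => x (Sum.inr i)) ⬝ᵥ
          G.toBlocks₂₂ *ᵥ (fun i => x (Sum.inr i)) := by
        simp [dotProduct, Matrix.mulVec, Fintype.sum_sum_type, hBdef]
      rw [h3]
      exact add_nonneg h1 h2
  have hB : B.PosDef := by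
    rw [hBpsd.posDef_iff_det_ne_zero, hBdet]
    exact mul_ne_zero hPA.det_pos.ne' hPD.det_pos.ne'
  rw [← hBdet]
  apply psd_det_compare hG hB
  rw [hBinv]
  conv_lhs => rw [← Matrix.fromBlocks_toBlocks G]
  rw [Matrix.fromBlocks_multiply]
  simp [Matrix.mul_nonsing_inv _ hAu, Matrix.mul_nonsing_inv _ hDu, Matrix.trace,
    Fintype.sum_sum_type]

/-- Fischer's inequality for the complement of the range of an injection -/
lemma fischer {n k l : ℕ} (hn : k + l = n) {G : Matrix (Fin n) (Fin n) ℝ} (hG : G.PosSemidef)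
    (f : Fin k → Fin n) (hf : Function.Injective f) :
    ∃ g : Fin l → Fin n, Function.Injective g ∧ (∀ i j, f i ≠ g j) ∧
      G.det ≤ (G.submatrix f f).det * (G.submatrix g g).det := by
  classical
  have h1 : Fintype.card {x // x ∉ Set.range f} = l := by
    rw [Fintype.card_subtype_compl, Fintype.card_fin]
    have : Fintype.card {x // x ∈ Set.range f} = k := by
      exact (Fintype.card_congr (Equiv.ofInjective f hf)).symm.trans (Fintype.card_fin k)
    omega
  let e : Fin l ≃ {x // x ∉ Set.range f} := (Fintype.equivFinOfCardEq h1).symm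
  let g : Fin l → Fin n := fun j => (e j : Fin n)
  have hg : Function.Injective g := Subtype.val_injective.comp e.injective
  have hfg : ∀ i j, f i ≠ g j := fun i j h => (e j).2 ⟨i, h⟩
  refine ⟨g, hg, hfg, ?_⟩
  let σ : Fin k ⊕ Fin l → Fin n := Sum.elim f g
  have hσ : Function.Injective σ := by
    intro x y h
    rcases x with x | x <;> rcases y with y | y
    · exact congrArg _ (hf h)
    · exact absurd h (hfg x y)
    · exact absurd h.symm (hfg y x)
    · exact congrArg _ (hg h)
  have hσb : Function.Bijective σ := by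
    rw [Fintype.bijective_iff_injective_and_card]
    refine ⟨hσ, ?_⟩
    simp [hn]
  let E : Fin k ⊕ Fin l ≃ Fin n := Equiv.ofBijective σ hσb
  have h2 := fischer_sum (hG.submatrix E)
  rw [Matrix.det_submatrix_equiv_self] at h2
  exact h2

end Pool.Agent.H43.Cube
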