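import Mathlib

/-!
# Volumes of simplices: `vol (conv p) ≤ |det| / d!`
-/

set_option autoImplicit false

namespace Pool.Agent.H43.Cube

open MeasureTheory Set Finset

/-- points of `ℝ^d` -/
abbrev Pt (d : ℕ) := Fin d → ℝ

/-- scaled corner simplex -/
def corner (d : ℕ) (c : ℝ) : Set (Fin d → ℝ) := {a | (∀ i, 0 ≤ a i) ∧ ∑ i, a i ≤ c}

lemma measurableSet_corner (d : ℕ) (c : ℝ) : MeasurableSet (corner d c) := by
  have : corner d c = (⋂ i, {a : Fin d → ℝ | 0 ≤ a i}) ∩ {a | ∑ i, a i ≤ c} := by
    ext a
    simp [corner]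
  rw [this]
  refine MeasurableSet.inter (MeasurableSet.iInter fun i => measurableSet_le (by fun_prop)
    (by fun_prop)) (measurableSet_le (by fun_prop) (by fun_prop))

lemma vol_corner : ∀ (d : ℕ) (c : ℝ), 0 ≤ c →
    volume (corner d c) ≤ ENNReal.ofReal (c ^ d / (d.factorial : ℝ))
  | 0, c, _ => by
    refine (measure_mono (subset_univ _)).trans ?_
    simp [volume_pi]
  | d+1, c, hc => by
    have h := (volume_preserving_piFinSuccAbove (fun _ : Fin (d+1) => ℝ) 0).symm
    rw [← h.measure_preimage (measurableSet_corner _ _).nullMeasurableSet]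
    have h2 : (volume : Measure (ℝ × (Fin d → ℝ))) = (volume : Measure ℝ).prod volume := rfl
    have h3 : MeasurableSet ((MeasurableEquiv.piFinSuccAbove (fun _ : Fin (d+1) => ℝ) 0).symm ⁻¹'
        corner (d+1) c) := (measurableSet_corner _ _).preimage (MeasurableEquiv.measurable _)
    rw [h2, Measure.prod_apply h3]
    have hcons : ∀ (t : ℝ) (a : Fin d → ℝ),
        (MeasurableEquiv.piFinSuccAbove (fun _ : Fin (d+1) => ℝ) 0).symm (t, a) =
        (Fin.cons t a : Fin (d+1) → ℝ) := by
      intro t a
      simp [MeasurableEquiv.piFinSuccAbove]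
      rfl
    have hmem : ∀ (t : ℝ) (a : Fin d → ℝ), a ∈ Prod.mk t ⁻¹' ((MeasurableEquiv.piFinSuccAbove
        (fun _ : Fin (d+1) => ℝ) 0).symm ⁻¹' corner (d+1) c) →
        (Fin.cons t a : Fin (d+1) → ℝ) ∈ corner (d+1) c := by
      intro t a ha
      rw [Set.mem_preimage, Set.mem_preimage, hcons] at ha
      exact ha
    have h4 : ∀ t : ℝ, volume (Prod.mk t ⁻¹' ((MeasurableEquiv.piFinSuccAbove
        (fun _ : Fin (d+1) => ℝ) 0).symm ⁻¹' corner (d+1) c)) ≤
        (Set.Icc 0 c).indicator (fun t => ENNReal.ofReal ((c - t) ^ d / (d.factorial : ℝ))) t := by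
      intro t
      by_cases ht : t ∈ Set.Icc 0 c
      · rw [indicator_of_mem ht]
        refine le_trans (measure_mono ?_) (vol_corner d (c - t) (by linarith [ht.2]))
        intro a ha
        have ha' := hmem t a ha
        refine ⟨fun i => ?_, ?_⟩
        · simpa using ha'.1 i.succ
        · have := ha'.2
          rw [Fin.sum_univ_succ] at this
          simp only [Fin.cons_zero, Fin.cons_succ] at this
          linarith
      · rw [indicator_of_notMem ht]
        have : Prod.mk t ⁻¹' ((MeasurableEquiv.piFinSuccAbove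
          (fun _ : Fin (d+1) => ℝ) 0).symm ⁻¹' corner (d+1) c) = ∅ := by
          ext a
          simp only [Set.mem_empty_iff_false, iff_false]
          intro ha
          have ha' := hmem t a ha
          apply ht
          have h0 : 0 ≤ t := by simpa using ha'.1 0
          have h1 := ha'.2
          rw [Fin.sum_univ_succ] at h1
          simp only [Fin.cons_zero, Fin.cons_succ] at h1
          have h5 : 0 ≤ ∑ i, a i := Finset.sum_nonneg fun i _ => by simpa using ha'.1 i.succ
          exact ⟨h0, by linarith⟩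
        rw [this]; simp
    refine (lintegral_mono h4).trans ?_
    rw [lintegral_indicator measurableSet_Icc]
    have hd : ∀ t ∈ Set.Icc 0 c, HasDerivWithinAt
        (fun t : ℝ => - ((c - t) ^ (d+1) / ((d+1).factorial : ℝ)))
        ((c - t) ^ d / (d.factorial : ℝ)) (Set.Icc 0 c) t := by
      intro t _
      have e1 : HasDerivAt (fun t : ℝ => c - t) (-1) t := by
        simpa using (hasDerivAt_id t).const_sub c
      have e2 := ((e1.pow (d+1)).div_const ((d+1).factorial : ℝ)).neg
      have e3 : -((((d+1 : ℕ) : ℝ) * (c - t) ^ (d+1-1) * -1) / ((d+1).factorial : ℝ)) =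
          (c - t) ^ d / (d.factorial : ℝ) := by
        rw [Nat.factorial_succ]
        push_cast
        have : (0:ℝ) < (d.factorial : ℝ) := by positivity
        have : (0:ℝ) < (d:ℝ) + 1 := by positivity
        field_simp
      rw [← e3]
      exact e2.hasDerivWithinAt
    have hm : MonotoneOn (fun t : ℝ => - ((c - t) ^ (d+1) / ((d+1).factorial : ℝ)))
        (Set.Icc 0 c) := by
      intro a ha b hb hab
      simp only
      have h1 : (c - b) ^ (d+1) ≤ (c - a) ^ (d+1) :=
        pow_le_pow_left₀ (by linarith [hb.2]) (by linarith) _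
      have h2 : (c - b) ^ (d+1) / ((d+1).factorial : ℝ) ≤ (c - a) ^ (d+1) /
        ((d+1).factorial : ℝ) := by gcongr
      linarith
    rw [lintegral_deriv_eq_volume_image_of_monotoneOn measurableSet_Icc hd hm]
    have hsub : (fun t : ℝ => - ((c - t) ^ (d+1) / ((d+1).factorial : ℝ))) '' (Set.Icc 0 c) ⊆
        Set.Icc (-(c ^ (d+1) / ((d+1).factorial : ℝ))) 0 := by
      rintro _ ⟨t, ht, rfl⟩
      constructor
      · have := hm (left_mem_Icc.2 hc) ht ht.1
        simpa using this
      · simp only
        have : 0 ≤ (c - t) ^ (d+1) / ((d+1).factorial : ℝ) :=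
          div_nonneg (pow_nonneg (by linarith [ht.2]) _) (by positivity)
        linarith
    refine (measure_mono hsub).trans ?_
    rw [Real.volume_Icc]
    simp

/-- edge matrix of a simplex -/
noncomputable def edgeM {d : ℕ} (p : Fin (d+1) → Fin d → ℝ) : Matrix (Fin d) (Fin d) ℝ :=
  Matrix.of fun i j => p j.succ i - p 0 i

/-- homogeneous matrix of `d+1` points of `ℝ^d` -/
def hm {d : ℕ} (p : Fin (d+1) → Pt d) : Matrix (Fin (d+1)) (Fin (d+1)) ℝ :=
  Matrix.of fun j => (Fin.cons 1 (p j) : Fin (d+1) → ℝ)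

lemma det_hm {d : ℕ} (p : Fin (d+1) → Pt d) : (hm p).det = (edgeM p).det := by
  let H' : Matrix (Fin (d+1)) (Fin (d+1)) ℝ := Matrix.of fun j k =>
    hm p j k + (if j = 0 then 0 else -1) * hm p 0 k
  have h1 : H'.det = (hm p).det := by
    apply Matrix.det_eq_of_forall_row_eq_smul_add_const (fun j => if j = 0 then 0 else -1) 0
      (by simp)
    intro i j
    rfl
  rw [← h1, Matrix.det_succ_column_zero, Fin.sum_univ_succ]
  have hz : ∀ i : Fin d, H' i.succ 0 = 0 := by
    intro i
    simp [H', hm]
  simp only [hz, mul_zero, zero_mul, Finset.sum_const_zero, add_zero]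
  have h0 : H' 0 0 = 1 := by simp [H', hm]
  rw [h0]
  have hsub : H'.submatrix (Fin.succAbove 0) Fin.succ = (edgeM p).transpose := by
    ext i j
    simp only [H', hm, edgeM, Matrix.submatrix_apply, Matrix.of_apply, Fin.succAbove_zero,
      Fin.cons_succ, Fin.succ_ne_zero, if_false, Matrix.transpose_apply]
    ring
  rw [hsub, Matrix.det_transpose]
  simp

lemma vol_hull_le {d : ℕ} (p : Fin (d+1) → Pt d) :
    volume (convexHull ℝ (Set.range p)) ≤
      ENNReal.ofReal (|(hm p).det| / (d.factorial : ℝ)) := by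
  have hsub : convexHull ℝ (Set.range p) ⊆
      (fun x => p 0 + x) '' ((Matrix.toLin' (edgeM p)) '' (corner d 1)) := by
    intro x hx
    rw [convexHull_range_eq_exists_affineCombination] at hx
    obtain ⟨t, w, hw0, hw1, hx⟩ := hx
    rw [Finset.affineCombination_eq_linear_combination _ _ _ hw1] at hx
    classical
    let a : Fin (d+1) → ℝ := fun j => if j ∈ t then w j else 0
    have ha0 : ∀ j, 0 ≤ a j := by
      intro j
      by_cases hj : j ∈ t
      · simp [a, hj, hw0 j hj]
      · simp [a, hj]
    have ha1 : ∑ j, a j = 1 := by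
      rw [← hw1]; simp [a]
    have ha2 : ∀ i, ∑ j, a j * p j i = x i := by
      intro i
      rw [← hx]
      simp [a, Finset.sum_apply]
    rw [Fin.sum_univ_succ] at ha1
    refine ⟨Matrix.toLin' (edgeM p) (fun j => a j.succ), ⟨fun j => a j.succ, ⟨fun i => ha0 _, ?_⟩,
      rfl⟩, ?_⟩
    · have := ha0 0
      linarith
    · funext i
      rw [← ha2 i, Fin.sum_univ_succ]
      simp only [Pi.add_apply, Matrix.toLin'_apply, Matrix.mulVec, dotProduct, edgeM,
        Matrix.of_apply, sub_mul, Finset.sum_sub_distrib]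
      rw [← Finset.mul_sum]
      have : a 0 = 1 - ∑ j : Fin d, a j.succ := by linarith
      rw [this]
      have h5 : ∑ j : Fin d, p j.succ i * a j.succ = ∑ j : Fin d, a j.succ * p j.succ i :=
        Finset.sum_congr rfl fun j _ => mul_comm _ _
      rw [h5]
      ring
  refine (measure_mono hsub).trans ?_
  rw [Set.image_add_left, measure_preimage_add, Measure.addHaar_image_linearMap,
    LinearMap.det_toLin']
  have h1 := vol_corner d 1 zero_le_one
  rw [one_pow] at h1
  calc ENNReal.ofReal |(edgeM p).det| * volume (corner d 1)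
      ≤ ENNReal.ofReal |(edgeM p).det| * ENNReal.ofReal (1 / (d.factorial : ℝ)) := by
        gcongr
    _ = _ := by
      rw [← ENNReal.ofReal_mul (by positivity), det_hm, mul_one_div]

/-- normalized volume (`d!` times the volume) of a simplex, given by its vertex set -/
noncomputable def nv {d : ℕ} (S : Finset (Pt d)) : ℝ :=
  if h : S.card = d + 1 then |(hm (fun j => (((S.equivFinOfCardEq h).symm j : S) : Pt d))).det|
  else 0

lemma nv_nonneg {d : ℕ} (S : Finset (Pt d)) : 0 ≤ nv S := by
  unfold nv
  split_ifs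
  · exact abs_nonneg _
  · exact le_rfl

lemma abs_det_hm_perm {d : ℕ} (p : Fin (d+1) → Pt d) (σ : Equiv.Perm (Fin (d+1))) :
    |(hm (fun j => p (σ j))).det| = |(hm p).det| := by
  have h : hm (fun j => p (σ j)) = (hm p).submatrix σ id := by
    ext j k
    rfl
  rw [h, Matrix.det_permute, abs_mul]
  have : |((Equiv.Perm.sign σ : ℤ) : ℝ)| = 1 := by
    rcases Int.units_eq_one_or (Equiv.Perm.sign σ) with h | h <;> simp [h]
  rw [this, one_mul]

lemma nv_eq {d : ℕ} (S : Finset (Pt d)) (p : Fin (d+1) → Pt d) (hp : Function.Injective p)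
    (hS : ∀ x, x ∈ S ↔ ∃ j, p j = x) : nv S = |(hm p).det| := by
  classical
  have hcard : S.card = d + 1 := by
    have : S = Finset.univ.image p := by
      ext x
      simp [hS]
    rw [this, Finset.card_image_of_injective _ hp]
    simp
  unfold nv
  rw [dif_pos hcard]
  let q : Fin (d+1) ≃ S := Equiv.ofBijective (fun j => ⟨p j, (hS _).2 ⟨j, rfl⟩⟩) (by
    constructor
    · intro a b hab
      exact hp (by simpa using hab)
    · rintro ⟨x, hx⟩
      obtain ⟨j, hj⟩ := (hS x).1 hx
      exact ⟨j, by simp [hj]⟩)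
  let σ : Equiv.Perm (Fin (d+1)) := (S.equivFinOfCardEq hcard).symm.trans q.symm
  have h := abs_det_hm_perm p σ
  have h2 : (fun j => p (σ j)) = fun j => (((S.equivFinOfCardEq hcard).symm j : S) : Pt d) := by
    funext j
    have h3 : q (σ j) = (S.equivFinOfCardEq hcard).symm j := by simp [σ]
    have h4 : ((q (σ j) : S) : Pt d) = p (σ j) := rfl
    rw [← h4, h3]
  rw [h2] at h
  exact h

lemma exists_enum {d : ℕ} (S : Finset (Pt d)) {m : ℕ} (h : S.card = m) :
    ∃ p : Fin m → Pt d, Function.Injective p ∧ ∀ x, x ∈ S ↔ ∃ j, p j = x := by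
  refine ⟨fun j => (((S.equivFinOfCardEq h).symm j : S) : Pt d), ?_, ?_⟩
  · intro a b hab
    exact (S.equivFinOfCardEq h).symm.injective (Subtype.ext hab)
  · intro x
    constructor
    · intro hx
      exact ⟨S.equivFinOfCardEq h ⟨x, hx⟩, by simp⟩
    · rintro ⟨j, rfl⟩
      exact ((S.equivFinOfCardEq h).symm j).2

lemma vol_le_nv {d : ℕ} (S : Finset (Pt d)) (h : S.card = d + 1) :
    volume (convexHull ℝ (S : Set (Pt d))) ≤ ENNReal.ofReal (nv S / (d.factorial : ℝ)) := by
  obtain ⟨p, hp, hS⟩ := exists_enum S h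
  have hr : (S : Set (Pt d)) = Set.range p := by
    ext x
    simp [hS]
  rw [hr, nv_eq S p hp hS]
  exact vol_hull_le p

end Pool.Agent.H43.Cube
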