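import Mathlib
import Pool.Agent.H43.Cube.Vol

/-!
# Facets of simplices in facets of the cube
-/

set_option autoImplicit false

namespace Pool.Agent.H43.Cube

open MeasureTheory Set Finset

/-- affine independence of a finite set, in terms of weights -/
def AI {d : ℕ} (S : Finset (Pt d)) : Prop :=
  ∀ w : Pt d → ℝ, ∑ x ∈ S, w x = 0 → ∑ x ∈ S, w x • x = 0 → ∀ x ∈ S, w x = 0

lemma ai_of_affineIndependent {d : ℕ} {S : Finset (Pt d)}
    (h : AffineIndependent ℝ (fun x : S => (x : Pt d))) : AI S := by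
  intro w h0 h1 x hx
  rw [affineIndependent_iff_of_fintype] at h
  have h2 : ∑ i : S, w (i : Pt d) = 0 := by
    rw [Finset.sum_coe_sort S (fun i => w i)]
    exact h0
  have h3 := h (fun i : S => w (i : Pt d)) h2 (by
    rw [Finset.weightedVSub_eq_linear_combination _ h2]
    rw [Finset.sum_coe_sort S (fun i => w i • i)]
    exact h1)
  exact h3 ⟨x, hx⟩

lemma affineIndependent_of_ai {d : ℕ} {S : Finset (Pt d)} (h : AI S) :
    AffineIndependent ℝ (fun x : S => (x : Pt d)) := by
  classical
  rw [affineIndependent_iff_of_fintype]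
  intro w h0 h1 i
  rw [Finset.weightedVSub_eq_linear_combination _ h0] at h1
  let w' : Pt d → ℝ := fun x => if hx : x ∈ S then w ⟨x, hx⟩ else 0
  have hw' : ∀ i : S, w' (i : Pt d) = w i := by
    intro i
    simp [w']
  have h2 : ∑ x ∈ S, w' x = 0 := by
    rw [← Finset.sum_coe_sort S (fun i => w' i)]
    rw [← h0]
    exact Finset.sum_congr rfl fun i _ => hw' i
  have h3 : ∑ x ∈ S, w' x • x = 0 := by
    rw [← Finset.sum_coe_sort S (fun i => w' i • i), ← h1]
    exact Finset.sum_congr rfl fun i _ => by rw [hw' i]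
  rw [← hw' i]
  exact h w' h2 h3 i i.2

lemma AI.card_le {d : ℕ} {S : Finset (Pt d)} (h : AI S) : S.card ≤ d + 1 := by
  have h1 := (affineIndependent_of_ai h).card_le_finrank_succ
  rw [Fintype.card_coe] at h1
  refine h1.trans ?_
  have h2 := Submodule.finrank_le (vectorSpan ℝ (Set.range (fun x : S => (x : Pt d))))
  rw [Module.finrank_fin_fun] at h2
  omega

/-- the values `0`, `1` -/
def bv (b : Bool) : ℝ := if b then 1 else 0

lemma bv_eq_iff {b c : Bool} : bv b = bv c ↔ b = c := by
  cases b <;> cases c <;> simp [bv]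

lemma eq_insertNth {d : ℕ} (i : Fin (d+1)) (x : Pt (d+1)) :
    x = (i.insertNth (x i) (i.removeNth x) : Fin (d+1) → ℝ) := by
  rw [Fin.insertNth_self_removeNth]

lemma injOn_removeNth {d : ℕ} (i : Fin (d+1)) (c : ℝ) :
    Set.InjOn (fun x : Pt (d+1) => (i.removeNth x : Pt d)) {x | x i = c} := by
  intro x hx y hy hxy
  simp only [Set.mem_ofPred_eq] at hx hy hxy
  rw [eq_insertNth i x, eq_insertNth i y, hx, hy, hxy]

open scoped Classical in
/-- the part of `S` in the facet `x i = b` of the cube, projected along the coordinate `i` -/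
noncomputable def fac {d : ℕ} (q : Fin (d+1) × Bool) (S : Finset (Pt (d+1))) : Finset (Pt d) :=
  (S.filter (fun x => x q.1 = bv q.2)).image (fun x => (q.1.removeNth x : Pt d))

lemma mem_fac {d : ℕ} {q : Fin (d+1) × Bool} {S : Finset (Pt (d+1))} {y : Pt d} :
    y ∈ fac q S ↔ ∃ x ∈ S, x q.1 = bv q.2 ∧ (q.1.removeNth x : Pt d) = y := by
  simp only [fac, Finset.mem_image, Finset.mem_filter]
  constructor
  · rintro ⟨x, ⟨h1, h2⟩, h3⟩
    exact ⟨x, h1, h2, h3⟩
  · rintro ⟨x, h1, h2, h3⟩
    exact ⟨x, ⟨h1, h2⟩, h3⟩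

open scoped Classical in
lemma injOn_fac {d : ℕ} (q : Fin (d+1) × Bool) (S : Finset (Pt (d+1))) :
    Set.InjOn (fun x : Pt (d+1) => (q.1.removeNth x : Pt d))
      (S.filter (fun x => x q.1 = bv q.2) : Set (Pt (d+1))) := by
  refine (injOn_removeNth q.1 (bv q.2)).mono ?_
  intro x hx
  simp only [Finset.coe_filter, Set.mem_ofPred_eq] at hx
  exact hx.2

open scoped Classical in
lemma card_fac {d : ℕ} (q : Fin (d+1) × Bool) (S : Finset (Pt (d+1))) :
    (fac q S).card = (S.filter (fun x => x q.1 = bv q.2)).card := by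
  unfold fac
  exact Finset.card_image_of_injOn (injOn_fac q S)

lemma AI.subset {d : ℕ} {S S' : Finset (Pt d)} (h : AI S) (hs : S' ⊆ S) : AI S' := by
  classical
  intro w h0 h1 x hx
  have h2 := h (fun x => if x ∈ S' then w x else 0) (by
    rw [Finset.sum_ite_mem, Finset.inter_eq_right.2 hs]
    exact h0) (by
    have : ∀ x : Pt d, (if x ∈ S' then w x else 0) • x = if x ∈ S' then w x • x else 0 := by
      intro x
      split_ifs <;> simp
    simp only [this]
    rw [Finset.sum_ite_mem, Finset.inter_eq_right.2 hs]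
    exact h1) x (hs hx)
  simpa [hx] using h2

lemma AI.fac {d : ℕ} {S : Finset (Pt (d+1))} (h : AI S) (q : Fin (d+1) × Bool) :
    AI (fac q S) := by
  classical
  have h' : AI (S.filter (fun x => x q.1 = bv q.2)) := h.subset (Finset.filter_subset _ _)
  intro w h0 h1 y hy
  rw [Cube.fac, Finset.sum_image (injOn_fac q S)] at h0 h1
  obtain ⟨x, hxS, hxq, rfl⟩ := mem_fac.1 hy
  refine h' (fun x => w (q.1.removeNth x)) h0 ?_ x (by simp [hxS, hxq])
  funext k
  rw [Finset.sum_apply]
  simp only [Pi.smul_apply, smul_eq_mul, Pi.zero_apply]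
  rcases Fin.eq_self_or_eq_succAbove q.1 k with hk | ⟨k', hk⟩
  · subst hk
    have : ∑ c ∈ S.filter (fun x => x q.1 = bv q.2), w (q.1.removeNth c) * c q.1 =
        ∑ c ∈ S.filter (fun x => x q.1 = bv q.2), w (q.1.removeNth c) * bv q.2 := by
      refine Finset.sum_congr rfl fun c hc => ?_
      rw [(Finset.mem_filter.1 hc).2]
    rw [this, ← Finset.sum_mul, h0, zero_mul]
  · have h2 := congrFun h1 k'
    rw [Finset.sum_apply] at h2
    simp only [Pi.smul_apply, smul_eq_mul, Pi.zero_apply] at h2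
    rw [hk, ← h2]
    rfl

/-- `S` is the vertex set of a `d`-simplex in the cube -/
structure Good (d : ℕ) (S : Finset (Pt d)) : Prop where
  card : S.card = d + 1
  ai : AI S
  cube : ∀ x ∈ S, x ∈ Set.Icc (0 : Pt d) 1

lemma fac_cube {d : ℕ} {S : Finset (Pt (d+1))} (h : ∀ x ∈ S, x ∈ Set.Icc (0 : Pt (d+1)) 1)
    (q : Fin (d+1) × Bool) : ∀ x ∈ fac q S, x ∈ Set.Icc (0 : Pt d) 1 := by
  intro y hy
  obtain ⟨x, hxS, hxq, rfl⟩ := mem_fac.1 hy
  exact ⟨fun k => (h x hxS).1 _, fun k => (h x hxS).2 _⟩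

lemma Good.fac_card_le {d : ℕ} {S : Finset (Pt (d+1))} (h : Good (d+1) S)
    (q : Fin (d+1) × Bool) : (fac q S).card ≤ d + 1 := (h.ai.fac q).card_le

lemma Good.fac {d : ℕ} {S : Finset (Pt (d+1))} (h : Good (d+1) S)
    {q : Fin (d+1) × Bool} (hq : (fac q S).card = d + 1) : Good d (fac q S) :=
  ⟨hq, h.ai.fac q, fac_cube h.cube q⟩

/-- a point of the hull in a facet of the cube is in the hull of the points in this facet -/
lemma mem_hull_fac {d : ℕ} {S : Finset (Pt (d+1))} (h : ∀ x ∈ S, x ∈ Set.Icc (0 : Pt (d+1)) 1)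
    (q : Fin (d+1) × Bool) (z : Pt d)
    (hz : (q.1.insertNth (bv q.2) z : Pt (d+1)) ∈ convexHull ℝ (S : Set (Pt (d+1)))) :
    z ∈ convexHull ℝ (fac q S : Set (Pt d)) := by
  classical
  rw [Finset.mem_convexHull'] at hz
  obtain ⟨w, hw0, hw1, hw2⟩ := hz
  have hi : ∑ y ∈ S, w y * y q.1 = bv q.2 := by
    have := congrFun hw2 q.1
    rw [Finset.sum_apply] at this
    simpa using this
  -- the weights off the facet vanish
  have hoff : ∀ y ∈ S, y q.1 ≠ bv q.2 → w y = 0 := by
    intro y hy hne
    have h0 : ∑ y ∈ S, w y * (y q.1 - bv q.2) = 0 := by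
      simp only [mul_sub, Finset.sum_sub_distrib]
      rw [hi, ← Finset.sum_mul, hw1, one_mul, sub_self]
    by_cases hb : q.2 = true
    · have hb' : bv q.2 = 1 := by simp [bv, hb]
      rw [hb'] at h0 hne
      have h1 : ∀ y ∈ S, 0 ≤ w y * (1 - y q.1) := fun y hy =>
        mul_nonneg (hw0 y hy) (by have := (h y hy).2 q.1; simp only [Pi.one_apply] at this; linarith)
      have h2 : ∑ y ∈ S, w y * (1 - y q.1) = 0 := by
        have : ∀ y : Pt (d+1), w y * (1 - y q.1) = -(w y * (y q.1 - 1)) := fun y => by ring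
        simp only [this, Finset.sum_neg_distrib, h0, neg_zero]
      have h3 := (Finset.sum_eq_zero_iff_of_nonneg h1).1 h2 y hy
      rcases mul_eq_zero.1 h3 with h4 | h4
      · exact h4
      · exact absurd (by linarith) hne
    · have hb' : bv q.2 = 0 := by simp [bv, hb]
      rw [hb'] at h0 hne
      have h1 : ∀ y ∈ S, 0 ≤ w y * (y q.1 - 0) := fun y hy =>
        mul_nonneg (hw0 y hy) (by have := (h y hy).1 q.1; simp only [Pi.zero_apply] at this; linarith)
      have h3 := (Finset.sum_eq_zero_iff_of_nonneg h1).1 h0 y hy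
      rcases mul_eq_zero.1 h3 with h4 | h4
      · exact h4
      · exact absurd (by linarith) hne
  have hfil : ∀ (f : Pt (d+1) → ℝ), ∑ y ∈ S.filter (fun x => x q.1 = bv q.2), w y * f y =
      ∑ y ∈ S, w y * f y := by
    intro f
    refine Finset.sum_subset (Finset.filter_subset _ _) ?_
    intro y hy hy'
    rw [hoff y hy (by
      intro hh
      exact hy' (Finset.mem_filter.2 ⟨hy, hh⟩)), zero_mul]
  rw [Finset.mem_convexHull']
  refine ⟨fun u => w (q.1.insertNth (bv q.2) u), ?_, ?_, ?_⟩
  · intro u hu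
    obtain ⟨x, hxS, hxq, rfl⟩ := mem_fac.1 hu
    have : (q.1.insertNth (bv q.2) (q.1.removeNth x) : Pt (d+1)) = x := by
      rw [← hxq, Fin.insertNth_self_removeNth]
    simp only [this]
    exact hw0 x hxS
  · rw [Cube.fac, Finset.sum_image (injOn_fac q S)]
    rw [← hw1]
    have h5 := hfil (fun _ => 1)
    simp only [mul_one] at h5
    rw [← h5]
    refine Finset.sum_congr rfl fun x hx => ?_
    have hxq := (Finset.mem_filter.1 hx).2
    rw [← hxq, Fin.insertNth_self_removeNth]
  · rw [Cube.fac, Finset.sum_image (injOn_fac q S)]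
    funext k
    have h6 := congrFun hw2 (q.1.succAbove k)
    rw [Finset.sum_apply] at h6 ⊢
    simp only [Pi.smul_apply, smul_eq_mul, Fin.insertNth_apply_succAbove] at h6 ⊢
    rw [← h6, ← hfil (fun y => y (q.1.succAbove k))]
    refine Finset.sum_congr rfl fun x hx => ?_
    have hxq := (Finset.mem_filter.1 hx).2
    rw [← hxq, Fin.insertNth_self_removeNth]
    rfl

/-- hulls of few points are null sets -/
lemma vol_hull_zero {d : ℕ} (S : Finset (Pt d)) (h : S.card ≤ d) :
    volume (convexHull ℝ (S : Set (Pt d))) = 0 := by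
  refine measure_mono_null (convexHull_subset_affineSpan _) ?_
  apply Measure.addHaar_affineSubspace
  intro htop
  have hvs : vectorSpan ℝ (S : Set (Pt d)) = ⊤ := by
    rw [← direction_affineSpan, htop, AffineSubspace.direction_top]
  rcases Finset.eq_empty_or_nonempty S with hSe | hSn
  · rw [hSe, Finset.coe_empty, AffineSubspace.span_empty] at htop
    exact AffineSubspace.bot_ne_top ℝ (Fin d → ℝ) (Fin d → ℝ) htop
  · have hpos : 0 < S.card := hSn.card_pos
    obtain ⟨m, hm⟩ : ∃ m, S.card = m + 1 := ⟨S.card - 1, by omega⟩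
    classical
    have h1 := finrank_vectorSpan_image_finset_le ℝ (fun x : Fin d → ℝ => x) S hm
    rw [Finset.image_id', hvs, finrank_top, Module.finrank_fin_fun] at h1
    omega

/-- a cover of the cube induces a cover of each facet by the simplices which are exterior facets -/
lemma cover_step {d : ℕ} {κ : Type} (T : Finset κ) (s : κ → Finset (Pt (d+1)))
    (hg : ∀ k ∈ T, Good (d+1) (s k))
    (hc : Set.Icc (0 : Pt (d+1)) 1 ⊆ ⋃ k ∈ T, convexHull ℝ (s k : Set (Pt (d+1))))
    (q : Fin (d+1) × Bool) :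
    Set.Icc (0 : Pt d) 1 ⊆ ⋃ k ∈ T.filter (fun k => (fac q (s k)).card = d + 1),
      convexHull ℝ (fac q (s k) : Set (Pt d)) := by
  classical
  have hall : Set.Icc (0 : Pt d) 1 ⊆ ⋃ k ∈ T, convexHull ℝ (fac q (s k) : Set (Pt d)) := by
    intro z hz
    have hz' : (q.1.insertNth (bv q.2) z : Pt (d+1)) ∈ Set.Icc (0 : Pt (d+1)) 1 := by
      constructor
      · intro k
        rcases Fin.eq_self_or_eq_succAbove q.1 k with hk | ⟨k', hk⟩
        · subst hk
          simp only [Fin.insertNth_apply_same, Pi.zero_apply]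
          unfold bv
          split_ifs <;> norm_num
        · subst hk
          simp only [Fin.insertNth_apply_succAbove]
          exact hz.1 k'
      · intro k
        rcases Fin.eq_self_or_eq_succAbove q.1 k with hk | ⟨k', hk⟩
        · subst hk
          simp only [Fin.insertNth_apply_same, Pi.one_apply]
          unfold bv
          split_ifs <;> norm_num
        · subst hk
          simp only [Fin.insertNth_apply_succAbove]
          exact hz.2 k'
    have h1 := hc hz'
    simp only [Set.mem_iUnion] at h1 ⊢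
    obtain ⟨k, hk, hk2⟩ := h1
    exact ⟨k, hk, mem_hull_fac (hg k hk).cube q z hk2⟩
  set U : Set (Pt d) := ⋃ k ∈ T.filter (fun k => (fac q (s k)).card = d + 1),
      convexHull ℝ (fac q (s k) : Set (Pt d)) with hU
  have hUc : IsClosed U := by
    refine Set.Finite.isClosed_biUnion (Finset.finite_toSet _) fun k _ => ?_
    exact Set.Finite.isClosed_convexHull (𝕜 := ℝ) (Finset.finite_toSet _)
  -- the other hulls are null sets
  have hnull : volume (Set.Icc (0 : Pt d) 1 \ U) = 0 := by
    have hsub : Set.Icc (0 : Pt d) 1 \ U ⊆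
        ⋃ k ∈ T.filter (fun k => ¬ (fac q (s k)).card = d + 1),
          convexHull ℝ (fac q (s k) : Set (Pt d)) := by
      rintro z ⟨hz, hzU⟩
      have h1 := hall hz
      simp only [Set.mem_iUnion, Finset.mem_filter, hU] at h1 hzU ⊢
      obtain ⟨k, hk, hk2⟩ := h1
      exact ⟨k, ⟨hk, fun h => hzU ⟨k, ⟨hk, h⟩, hk2⟩⟩, hk2⟩
    refine measure_mono_null hsub ?_
    refine le_antisymm ((measure_biUnion_finset_le _ _).trans ?_) bot_le
    refine le_of_eq (Finset.sum_eq_zero fun k hk => ?_)
    have hk' := Finset.mem_filter.1 hk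
    apply vol_hull_zero
    have := (hg k hk'.1).fac_card_le q
    omega
  -- the interior of the cube is contained in `U`
  have hint : interior (Set.Icc (0 : Pt d) 1) ⊆ U := by
    by_contra hcon
    rw [Set.not_subset] at hcon
    obtain ⟨z, hz, hzU⟩ := hcon
    have hopen : IsOpen (interior (Set.Icc (0 : Pt d) 1) \ U) := isOpen_interior.sdiff hUc
    have hpos := hopen.measure_pos volume ⟨z, hz, hzU⟩
    have hle : volume (interior (Set.Icc (0 : Pt d) 1) \ U) ≤ volume (Set.Icc (0 : Pt d) 1 \ U) :=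
      measure_mono (Set.sdiff_subset_sdiff_left interior_subset)
    rw [hnull] at hle
    exact absurd hpos (not_lt.2 hle)
  have hcl : Set.Icc (0 : Pt d) 1 ⊆ closure (interior (Set.Icc (0 : Pt d) 1)) := by
    have hconv : Convex ℝ (Set.Icc (0 : Pt d) 1) := convex_Icc _ _
    have hne : (interior (Set.Icc (0 : Pt d) 1)).Nonempty := by
      refine ⟨fun _ => 1/2, ?_⟩
      rw [← Set.pi_univ_Icc, interior_pi_set Set.finite_univ]
      intro i _
      simp only [Pi.zero_apply, Pi.one_apply, interior_Icc, Set.mem_Ioo]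
      norm_num
    rw [hconv.closure_interior_eq_closure_of_nonempty_interior hne]
    exact subset_closure
  exact hcl.trans (hUc.closure_subset_iff.2 hint)

end Pool.Agent.H43.Cube
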