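import Mathlib
import Pool.Agent.H43.Cube.Fac

/-!
# The functionals `Phi t` and the elimination rank
-/

set_option autoImplicit false

namespace Pool.Agent.H43.Cube

open MeasureTheory Set Finset

/-- sum, over all chains of `t` successive exterior facets, of the normalized volume of the last -/
noncomputable def Phi : ℕ → (d : ℕ) → Finset (Pt d) → ℝ
  | 0, _, S => nv S
  | _+1, 0, _ => 0
  | t+1, d+1, S => ∑ q : Fin (d+1) × Bool, if (fac q S).card = d + 1 then Phi t d (fac q S) else 0

lemma Phi_nonneg : ∀ (t d : ℕ) (S : Finset (Pt d)), 0 ≤ Phi t d S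
  | 0, _, S => nv_nonneg S
  | _+1, 0, _ => le_rfl
  | t+1, d+1, S => by
    unfold Phi
    refine Finset.sum_nonneg fun q _ => ?_
    split_ifs
    · exact Phi_nonneg t d _
    · exact le_rfl

theorem sum_Phi : ∀ (t d : ℕ) {κ : Type} (T : Finset κ) (s : κ → Finset (Pt d)), t ≤ d →
    (∀ k ∈ T, Good d (s k)) →
    (Set.Icc (0 : Pt d) 1 ⊆ ⋃ k ∈ T, convexHull ℝ (s k : Set (Pt d))) →
    (2:ℝ) ^ t * (d.factorial : ℝ) ≤ ∑ k ∈ T, Phi t d (s k)
  | 0, d, κ, T, s, _, hg, hc => by
    have hvol : volume (Set.Icc (0 : Pt d) 1) = 1 := by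
      rw [Real.volume_Icc_pi]
      simp
    have h1 : (1:ENNReal) ≤ ∑ k ∈ T, volume (convexHull ℝ (s k : Set (Pt d))) := by
      rw [← hvol]
      exact (measure_mono hc).trans (measure_biUnion_finset_le T _)
    have h2 : (1:ENNReal) ≤ ENNReal.ofReal (∑ k ∈ T, nv (s k) / (d.factorial : ℝ)) := by
      rw [ENNReal.ofReal_sum_of_nonneg fun k _ => div_nonneg (nv_nonneg _) (by positivity)]
      exact h1.trans (Finset.sum_le_sum fun k hk => vol_le_nv (s k) (hg k hk).card)
    rw [← ENNReal.ofReal_one, ENNReal.ofReal_le_ofReal_iff (Finset.sum_nonneg fun k _ =>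
      div_nonneg (nv_nonneg _) (by positivity)), ← Finset.sum_div, le_div_iff₀ (by positivity)] at h2
    simpa [Phi] using h2
  | t+1, 0, κ, T, s, h, _, _ => absurd h (by omega)
  | t+1, d+1, κ, T, s, h, hg, hc => by
    classical
    have h1 : ∑ k ∈ T, Phi (t+1) (d+1) (s k) = ∑ q : Fin (d+1) × Bool,
        ∑ k ∈ T.filter (fun k => (fac q (s k)).card = d + 1), Phi t d (fac q (s k)) := by
      simp only [Phi]
      rw [Finset.sum_comm]
      refine Finset.sum_congr rfl fun q _ => ?_
      rw [Finset.sum_filter]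
    rw [h1]
    have h2 : ∀ q : Fin (d+1) × Bool, (2:ℝ) ^ t * (d.factorial : ℝ) ≤
        ∑ k ∈ T.filter (fun k => (fac q (s k)).card = d + 1), Phi t d (fac q (s k)) := by
      intro q
      refine sum_Phi t d _ (fun k => fac q (s k)) (by omega) ?_ (cover_step T s hg hc q)
      intro k hk
      have hk' := Finset.mem_filter.1 hk
      exact (hg k hk'.1).fac hk'.2
    calc (2:ℝ) ^ (t+1) * ((d+1).factorial : ℝ)
        = ∑ q : Fin (d+1) × Bool, (2:ℝ) ^ t * (d.factorial : ℝ) := by
          rw [Finset.sum_const, Finset.card_univ, Fintype.card_prod, Fintype.card_fin,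
            Fintype.card_bool, nsmul_eq_mul, Nat.factorial_succ]
          push_cast
          ring
      _ ≤ _ := Finset.sum_le_sum fun q _ => h2 q

/-! ### pairs of exterior facets -/

open scoped Classical in
lemma fac_fac {d : ℕ} (i0 : Fin (d+2)) (b0 b : Bool) (i' : Fin (d+1)) (S : Finset (Pt (d+2))) :
    fac (i', b) (fac (i0, b0) S) = (S.filter (fun x => x i0 = bv b0 ∧
      x (i0.succAbove i') = bv b)).image (fun x => (i'.removeNth (i0.removeNth x) : Pt d)) := by
  ext y
  simp only [mem_fac, Finset.mem_image, Finset.mem_filter]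
  constructor
  · rintro ⟨u, ⟨x, hx, h1, rfl⟩, h2, rfl⟩
    exact ⟨x, ⟨hx, h1, h2⟩, rfl⟩
  · rintro ⟨x, ⟨hx, h1, h2⟩, rfl⟩
    exact ⟨_, ⟨x, hx, h1, rfl⟩, h2, rfl⟩

open scoped Classical in
lemma fac_fac_card {d : ℕ} (i0 : Fin (d+2)) (b0 b : Bool) (i' : Fin (d+1))
    (S : Finset (Pt (d+2))) :
    (fac (i', b) (fac (i0, b0) S)).card = (S.filter (fun x => x i0 = bv b0 ∧
      x (i0.succAbove i') = bv b)).card := by
  rw [fac_fac]
  apply Finset.card_image_of_injOn
  intro x hx y hy hxy
  have hx' := (Finset.mem_filter.1 (Finset.mem_coe.1 hx)).2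
  have hy' := (Finset.mem_filter.1 (Finset.mem_coe.1 hy)).2
  have h1 := injOn_removeNth i' (bv b) (x₁ := i0.removeNth x) (x₂ := i0.removeNth y) hx'.2 hy'.2 hxy
  exact injOn_removeNth i0 (bv b0) (x₁ := x) (x₂ := y) hx'.1 hy'.1 h1

/-- two exterior facets in different directions have a common exterior facet -/
lemma full_pair {d : ℕ} {S : Finset (Pt (d+2))} (h : Good (d+2) S) {i0 : Fin (d+2)} {b0 b : Bool}
    {i' : Fin (d+1)} (h0 : (fac (i0, b0) S).card = d + 2)
    (h1 : (fac (i0.succAbove i', b) S).card = d + 2) :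
    (fac (i', b) (fac (i0, b0) S)).card = d + 1 := by
  classical
  have hle := (h.fac h0).fac_card_le (i', b)
  refine le_antisymm hle ?_
  rw [fac_fac_card]
  rw [card_fac] at h0 h1
  simp only at h0 h1
  have h2 := Finset.card_union_add_card_inter (S.filter (fun x => x i0 = bv b0))
    (S.filter (fun x => x (i0.succAbove i') = bv b))
  have h3 : (S.filter (fun x => x i0 = bv b0) ∪
    S.filter (fun x => x (i0.succAbove i') = bv b)).card ≤ S.card :=
    Finset.card_le_card (Finset.union_subset (Finset.filter_subset _ _) (Finset.filter_subset _ _))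
  have h4 : S.filter (fun x => x i0 = bv b0) ∩ S.filter (fun x => x (i0.succAbove i') = bv b) =
      S.filter (fun x => x i0 = bv b0 ∧ x (i0.succAbove i') = bv b) := by
    rw [Finset.filter_and]
  rw [h4, h0, h1] at h2
  rw [h.card] at h3
  omega

lemma fac_swap {d : ℕ} (i0 : Fin (d+2)) (b0 b : Bool) (i' : Fin (d+1)) (S : Finset (Pt (d+2))) :
    fac (i', b) (fac (i0, b0) S) =
      fac (i'.predAbove i0, b0) (fac (i0.succAbove i', b) S) := by
  classical
  rw [fac_fac, fac_fac]
  have h1 : (i0.succAbove i').succAbove (i'.predAbove i0) = i0 :=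
    Fin.succAbove_succAbove_predAbove i0 i'
  rw [h1]
  have h2 : ∀ x : Pt (d+2), (i'.removeNth (i0.removeNth x) : Pt d) =
      (i'.predAbove i0).removeNth ((i0.succAbove i').removeNth x) := fun x =>
    Fin.removeNth_removeNth_eq_swap x i' i0
  simp only [h2]
  congr 1
  ext x
  simp only [Finset.mem_filter]
  tauto

/-- in dimension at least two no direction has exterior facets at both ends -/
lemma full_unique {d : ℕ} {S : Finset (Pt (d+2))} (h : Good (d+2) S) {i : Fin (d+2)} {b b' : Bool}
    (h0 : (fac (i, b) S).card = d + 2) (h1 : (fac (i, b') S).card = d + 2) : b = b' := by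
  classical
  by_contra hne
  rw [card_fac] at h0 h1
  simp only at h0 h1
  have hdis : Disjoint (S.filter (fun x => x i = bv b)) (S.filter (fun x => x i = bv b')) := by
    rw [Finset.disjoint_filter]
    intro x _ hx hx'
    exact hne (bv_eq_iff.1 (hx.symm.trans hx'))
  have h2 := Finset.card_union_of_disjoint hdis
  have h3 : (S.filter (fun x => x i = bv b) ∪ S.filter (fun x => x i = bv b')).card ≤ S.card :=
    Finset.card_le_card (Finset.union_subset (Finset.filter_subset _ _) (Finset.filter_subset _ _))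
  rw [h2, h0, h1, h.card] at h3
  omega

open scoped Classical in
/-- elimination rank: the length of a maximal chain of successive exterior facets -/
noncomputable def el : (d : ℕ) → Finset (Pt d) → ℕ
  | 0, _ => 0
  | d+1, S => if h : ∃ q : Fin (d+1) × Bool, (fac q S).card = d + 1 then
      el d (fac h.choose S) + 1 else 0

lemma el_fac : ∀ (d : ℕ) {S : Finset (Pt (d+1))}, Good (d+1) S → ∀ {q : Fin (d+1) × Bool},
    (fac q S).card = d + 1 → el (d+1) S = el d (fac q S) + 1
  | 0, S, _, q, hq => by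
    unfold el
    rw [dif_pos ⟨q, hq⟩]
    simp [el]
  | d+1, S, hS, q, hq => by
    have hex : ∃ q : Fin (d+2) × Bool, (fac q S).card = d + 2 := ⟨q, hq⟩
    have h1 : el (d+2) S = el (d+1) (fac hex.choose S) + 1 := by
      conv_lhs => unfold el
      rw [dif_pos hex]
    rw [h1]
    have hq0 := hex.choose_spec
    set q0 := hex.choose with hq0def
    obtain ⟨i0, b0⟩ := q0
    obtain ⟨i, b⟩ := q
    rcases Fin.eq_self_or_eq_succAbove i0 i with hi | ⟨i', hi⟩
    · subst hi
      rw [full_unique hS hq0 hq]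
    · subst hi
      have h2 := full_pair hS hq0 hq
      rw [el_fac d (hS.fac hq0) h2, fac_swap]
      have h3 : (fac (i'.predAbove i0, b0) (fac (i0.succAbove i', b) S)).card = d + 1 := by
        rw [← fac_swap]; exact h2
      rw [el_fac d (hS.fac hq) h3]

lemma el_eq_zero {d : ℕ} {S : Finset (Pt (d+1))}
    (h : ∀ q : Fin (d+1) × Bool, (fac q S).card ≠ d + 1) : el (d+1) S = 0 := by
  unfold el
  rw [dif_neg]
  rintro ⟨q, hq⟩
  exact h q hq

lemma el_le : ∀ (d : ℕ) (S : Finset (Pt d)), el d S ≤ d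
  | 0, _ => le_rfl
  | d+1, S => by
    unfold el
    split_ifs with h
    · have := el_le d (fac h.choose S)
      omega
    · omega

open scoped Classical in
/-- the set of the directions of exterior facets -/
noncomputable def dirs {d : ℕ} (S : Finset (Pt (d+1))) : Finset (Fin (d+1)) :=
  Finset.univ.filter (fun i => ∃ b, (fac (i, b) S).card = d + 1)

lemma mem_dirs {d : ℕ} {S : Finset (Pt (d+1))} {i : Fin (d+1)} :
    i ∈ dirs S ↔ ∃ b, (fac (i, b) S).card = d + 1 := by
  simp [dirs]

lemma card_dirs_le : ∀ (d : ℕ) {S : Finset (Pt (d+1))}, Good (d+1) S → (dirs S).card ≤ el (d+1) S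
  | 0, S, hS => by
    rcases Finset.eq_empty_or_nonempty (dirs S) with h | ⟨i, hi⟩
    · rw [h]; simp
    · obtain ⟨b, hb⟩ := mem_dirs.1 hi
      rw [el_fac 0 hS hb]
      have : (dirs S).card ≤ (Finset.univ : Finset (Fin 1)).card :=
        Finset.card_le_card (Finset.subset_univ _)
      simp at this
      omega
  | d+1, S, hS => by
    classical
    rcases Finset.eq_empty_or_nonempty (dirs S) with h | ⟨i0, hi0⟩
    · rw [h]; simp
    · obtain ⟨b0, hb0⟩ := mem_dirs.1 hi0
      rw [el_fac (d+1) hS hb0]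
      have h1 : dirs S ⊆ insert i0 ((dirs (fac (i0, b0) S)).image i0.succAbove) := by
        intro i hi
        rcases Fin.eq_self_or_eq_succAbove i0 i with h | ⟨i', h⟩
        · rw [h]; exact Finset.mem_insert_self _ _
        · subst h
          obtain ⟨b, hb⟩ := mem_dirs.1 hi
          refine Finset.mem_insert_of_mem (Finset.mem_image_of_mem _ ?_)
          exact mem_dirs.2 ⟨b, full_pair hS hb0 hb⟩
      have h2 := (Finset.card_le_card h1).trans (Finset.card_insert_le _ _)
      have h3 := Finset.card_image_le (s := dirs (fac (i0, b0) S)) (f := i0.succAbove)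
      have h4 := card_dirs_le d (hS.fac hb0)
      omega

open scoped Classical in
/-- the set of exterior facets -/
noncomputable def exts {d : ℕ} (S : Finset (Pt (d+1))) : Finset (Fin (d+1) × Bool) :=
  Finset.univ.filter (fun q => (fac q S).card = d + 1)

lemma mem_exts {d : ℕ} {S : Finset (Pt (d+1))} {q : Fin (d+1) × Bool} :
    q ∈ exts S ↔ (fac q S).card = d + 1 := by
  simp [exts]

lemma card_exts_eq {d : ℕ} {S : Finset (Pt (d+2))} (hS : Good (d+2) S) :
    (exts S).card = (dirs S).card := by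
  classical
  have h1 : dirs S = (exts S).image Prod.fst := by
    ext i
    simp only [mem_dirs, Finset.mem_image, mem_exts]
    constructor
    · rintro ⟨b, hb⟩
      exact ⟨(i, b), hb, rfl⟩
    · rintro ⟨⟨i', b⟩, hb, rfl⟩
      exact ⟨b, hb⟩
  rw [h1, Finset.card_image_of_injOn]
  rintro ⟨i, b⟩ hq ⟨i', b'⟩ hq' hii
  simp only at hii
  subst hii
  rw [full_unique hS (mem_exts.1 (Finset.mem_coe.1 hq)) (mem_exts.1 (Finset.mem_coe.1 hq'))]

lemma Phi_succ {t d : ℕ} (S : Finset (Pt (d+1))) :
    Phi (t+1) (d+1) S = ∑ q ∈ exts S, Phi t d (fac q S) := by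
  simp only [Phi]
  rw [← Finset.sum_filter]
  rfl

end Pool.Agent.H43.Cube
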