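import Mathlib
import Pool.Agent.H43.Cube.Phi

/-!
# Determinant bounds for simplices in the cube
-/

set_option autoImplicit false

namespace Pool.Agent.H43.Cube

open MeasureTheory Set Finset

/-- the maximal absolute value of the determinant of an `m × m` matrix with entries `0`, `1` -/
noncomputable def maxDet (m : ℕ) : ℝ :=
  sSup {x : ℝ | ∃ A : Matrix (Fin m) (Fin m) ℝ, (∀ i j, A i j = 0 ∨ A i j = 1) ∧ |A.det| = x}

lemma le_maxDet {m : ℕ} (A : Matrix (Fin m) (Fin m) ℝ) (hA : ∀ i j, A i j = 0 ∨ A i j = 1) :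
    |A.det| ≤ maxDet m := by
  apply le_csSup
  · refine ⟨(Fintype.card (Fin m)).factorial • (1:ℝ) ^ Fintype.card (Fin m), ?_⟩
    rintro x ⟨B, hB, rfl⟩
    have := Matrix.det_le (A := B) (abv := AbsoluteValue.abs) (x := (1:ℝ)) (by
      intro i j
      rcases hB i j with h | h <;> simp [h])
    simpa using this
  · exact ⟨A, hA, rfl⟩

lemma maxDet_nonneg (m : ℕ) : 0 ≤ maxDet m :=
  (abs_nonneg _).trans (le_maxDet (0 : Matrix (Fin m) (Fin m) ℝ) (by simp))

lemma maxDet_le {m : ℕ} {c : ℝ}
    (h : ∀ A : Matrix (Fin m) (Fin m) ℝ, (∀ i j, A i j = 0 ∨ A i j = 1) → |A.det| ≤ c) :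
    maxDet m ≤ c := by
  apply csSup_le
  · exact ⟨_, 0, by simp, rfl⟩
  · rintro x ⟨A, hA, rfl⟩
    exact h A hA

/-- moving one coordinate of one point to `0` or `1` -/
lemma exists_move {d : ℕ} (p : Fin (d+1) → Pt d) (hp : ∀ j i, 0 ≤ p j i ∧ p j i ≤ 1)
    (a : Fin (d+1)) (b : Fin d) : ∃ t : ℝ, (t = 0 ∨ t = 1) ∧
      |(hm p).det| ≤ |(hm (Function.update p a (Function.update (p a) b t))).det| := by
  have hrow : ∀ t : ℝ, hm (Function.update p a (Function.update (p a) b t)) =
      (hm p).updateRow a (Fin.cons 1 (Function.update (p a) b t) : Fin (d+1) → ℝ) := by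
    intro t
    ext j k
    by_cases hj : j = a
    · subst hj
      simp [hm]
    · simp [hm, hj]
  have hlin : ∀ t : ℝ, (Fin.cons 1 (Function.update (p a) b t) : Fin (d+1) → ℝ) =
      (1 - t) • (Fin.cons 1 (Function.update (p a) b 0) : Fin (d+1) → ℝ) +
      t • (Fin.cons 1 (Function.update (p a) b 1) : Fin (d+1) → ℝ) := by
    intro t
    funext k
    refine Fin.cases ?_ (fun k => ?_) k
    · simp only [Fin.cons_zero, Pi.add_apply, Pi.smul_apply, smul_eq_mul]
      ring
    · simp only [Fin.cons_succ, Pi.add_apply, Pi.smul_apply, smul_eq_mul]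
      by_cases hk : k = b
      · subst hk
        simp
      · simp [hk]
        ring
  have hdet : ∀ t : ℝ, (hm (Function.update p a (Function.update (p a) b t))).det =
      (1 - t) * (hm (Function.update p a (Function.update (p a) b 0))).det +
      t * (hm (Function.update p a (Function.update (p a) b 1))).det := by
    intro t
    rw [hrow t, hrow 0, hrow 1, hlin t, Matrix.det_updateRow_add, Matrix.det_updateRow_smul,
      Matrix.det_updateRow_smul]
  have hself : Function.update p a (Function.update (p a) b (p a b)) = p := by simp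
  have h1 := hdet (p a b)
  rw [hself] at h1
  set D0 := (hm (Function.update p a (Function.update (p a) b 0))).det
  set D1 := (hm (Function.update p a (Function.update (p a) b 1))).det
  obtain ⟨h0, h1'⟩ := hp a b
  rw [h1]
  have h2 : |(1 - p a b) * D0 + p a b * D1| ≤ (1 - p a b) * |D0| + p a b * |D1| := by
    refine (abs_add_le _ _).trans ?_
    rw [abs_mul, abs_mul, abs_of_nonneg h0, abs_of_nonneg (by linarith : 0 ≤ 1 - p a b)]
  have h4 : 0 ≤ 1 - p a b := by linarith
  rcases le_total |D0| |D1| with h | h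
  · refine ⟨1, Or.inr rfl, h2.trans ?_⟩
    have h5 := mul_le_mul_of_nonneg_left h h4
    change _ ≤ |D1|
    nlinarith
  · refine ⟨0, Or.inl rfl, h2.trans ?_⟩
    have h5 := mul_le_mul_of_nonneg_left h h0
    change _ ≤ |D0|
    nlinarith

lemma exists_vertices {d : ℕ} (p : Fin (d+1) → Pt d) (hp : ∀ j i, 0 ≤ p j i ∧ p j i ≤ 1) :
    ∃ p' : Fin (d+1) → Pt d, (∀ j i, p' j i = 0 ∨ p' j i = 1) ∧
      |(hm p).det| ≤ |(hm p').det| := by
  classical
  have key : ∀ U : Finset (Fin (d+1) × Fin d), ∃ p' : Fin (d+1) → Pt d,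
      (∀ j i, 0 ≤ p' j i ∧ p' j i ≤ 1) ∧ (∀ x ∈ U, p' x.1 x.2 = 0 ∨ p' x.1 x.2 = 1) ∧
      |(hm p).det| ≤ |(hm p').det| := by
    intro U
    induction U using Finset.induction_on with
    | empty => exact ⟨p, hp, by simp, le_rfl⟩
    | insert x U hx ih =>
      obtain ⟨p', h1, h2, h3⟩ := ih
      obtain ⟨t, ht, ht2⟩ := exists_move p' h1 x.1 x.2
      have hval : ∀ j i, Function.update p' x.1 (Function.update (p' x.1) x.2 t) j i =
          if j = x.1 ∧ i = x.2 then t else p' j i := by
        intro j i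
        by_cases hj : j = x.1
        · subst hj
          by_cases hi : i = x.2
          · subst hi; simp
          · simp [hi]
        · simp [hj]
      refine ⟨Function.update p' x.1 (Function.update (p' x.1) x.2 t), ?_, ?_, h3.trans ht2⟩
      · intro j i
        rw [hval]
        split_ifs
        · rcases ht with h | h <;> simp [h]
        · exact h1 j i
      · intro y hy
        rw [hval]
        split_ifs with hh
        · exact ht
        · rcases Finset.mem_insert.1 hy with h | h
          · exact absurd ⟨by rw [h], by rw [h]⟩ hh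
          · exact h2 y h
  obtain ⟨p', _, h2, h3⟩ := key Finset.univ
  exact ⟨p', fun j i => h2 (j, i) (Finset.mem_univ _), h3⟩

lemma abs_det_hm_le {d : ℕ} (p : Fin (d+1) → Pt d) (hp : ∀ j i, 0 ≤ p j i ∧ p j i ≤ 1) :
    |(hm p).det| ≤ maxDet d := by
  obtain ⟨p', h1, h2⟩ := exists_vertices p hp
  refine h2.trans ?_
  rw [det_hm]
  let s : Fin d → ℝ := fun i => if p' 0 i = 0 then 1 else -1
  let B : Matrix (Fin d) (Fin d) ℝ := Matrix.of fun i j => s i * (edgeM p' i j)
  have hs : ∀ i, s i * s i = 1 := by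
    intro i
    simp only [s]
    split_ifs <;> norm_num
  have hE : edgeM p' = Matrix.diagonal s * B := by
    ext i j
    rw [Matrix.diagonal_mul]
    simp only [B, Matrix.of_apply]
    rw [← mul_assoc, hs, one_mul]
  have hB : ∀ i j, B i j = 0 ∨ B i j = 1 := by
    intro i j
    simp only [B, Matrix.of_apply, edgeM, s]
    rcases h1 0 i with h | h <;> rcases h1 j.succ i with h' | h' <;> simp [h, h']
  rw [hE, Matrix.det_mul, Matrix.det_diagonal, abs_mul]
  have : |∏ i, s i| = 1 := by
    rw [Finset.abs_prod]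
    apply Finset.prod_eq_one
    intro i _
    simp only [s]
    split_ifs <;> simp
  rw [this, one_mul]
  exact le_maxDet B hB

lemma Good.nv_le {d : ℕ} {S : Finset (Pt d)} (h : Good d S) : nv S ≤ maxDet d := by
  obtain ⟨p, hp, hS⟩ := exists_enum S h.card
  rw [nv_eq S p hp hS]
  refine abs_det_hm_le p fun j i => ?_
  have := h.cube (p j) ((hS _).2 ⟨j, rfl⟩)
  exact ⟨this.1 i, this.2 i⟩

/-- the normalized volume of a simplex in the cube is at most the one of an exterior facet -/
lemma nv_le_nv_fac {d : ℕ} {S : Finset (Pt (d+1))} (h : Good (d+1) S) {q : Fin (d+1) × Bool}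
    (hq : (fac q S).card = d + 1) : nv S ≤ nv (fac q S) := by
  classical
  have hF := hq
  rw [card_fac] at hF
  obtain ⟨r, hr, hrS⟩ := exists_enum _ hF
  have hsd : (S \ S.filter (fun x => x q.1 = bv q.2)).card = 1 := by
    rw [Finset.card_sdiff_of_subset (Finset.filter_subset _ _), hF, h.card]
    omega
  obtain ⟨pt, hpt⟩ := Finset.card_eq_one.1 hsd
  have hptS : pt ∈ S ∧ pt ∉ S.filter (fun x => x q.1 = bv q.2) := by
    have : pt ∈ S \ S.filter (fun x => x q.1 = bv q.2) := by rw [hpt]; simp
    exact Finset.mem_sdiff.1 this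
  let p : Fin (d+2) → Pt (d+1) := Fin.cons pt r
  have hpinj : Function.Injective p := by
    intro a b hab
    revert hab
    refine Fin.cases ?_ (fun a => ?_) a <;> refine Fin.cases ?_ (fun b => ?_) b
    · intro _; rfl
    · intro hab
      simp only [p, Fin.cons_zero, Fin.cons_succ] at hab
      exact absurd ((hrS pt).2 ⟨b, hab.symm⟩) hptS.2
    · intro hab
      simp only [p, Fin.cons_zero, Fin.cons_succ] at hab
      exact absurd ((hrS pt).2 ⟨a, hab⟩) hptS.2
    · intro hab
      simp only [p, Fin.cons_succ] at hab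
      rw [hr hab]
  have hpS : ∀ x, x ∈ S ↔ ∃ j, p j = x := by
    intro x
    constructor
    · intro hx
      by_cases hx' : x ∈ S.filter (fun x => x q.1 = bv q.2)
      · obtain ⟨j, hj⟩ := (hrS x).1 hx'
        exact ⟨j.succ, by simp [p, hj]⟩
      · have : x ∈ S \ S.filter (fun x => x q.1 = bv q.2) := Finset.mem_sdiff.2 ⟨hx, hx'⟩
        rw [hpt, Finset.mem_singleton] at this
        exact ⟨0, by simp [p, this]⟩
    · rintro ⟨j, rfl⟩
      refine Fin.cases ?_ (fun j => ?_) j
      · simpa [p] using hptS.1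
      · simp only [p, Fin.cons_succ]
        exact (Finset.mem_filter.1 ((hrS (r j)).2 ⟨j, rfl⟩)).1
  have hrq : ∀ j, r j q.1 = bv q.2 := fun j =>
    (Finset.mem_filter.1 ((hrS (r j)).2 ⟨j, rfl⟩)).2
  let u : Fin (d+1) → Pt d := fun j => q.1.removeNth (r j)
  have huinj : Function.Injective u := by
    intro a b hab
    exact hr (injOn_removeNth q.1 (bv q.2) (hrq a) (hrq b) hab)
  have huS : ∀ x, x ∈ fac q S ↔ ∃ j, u j = x := by
    intro x
    rw [mem_fac]
    constructor
    · rintro ⟨y, hy, hyq, rfl⟩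
      obtain ⟨j, hj⟩ := (hrS y).1 (Finset.mem_filter.2 ⟨hy, hyq⟩)
      exact ⟨j, by simp only [u]; rw [hj]⟩
    · rintro ⟨j, rfl⟩
      have := Finset.mem_filter.1 ((hrS (r j)).2 ⟨j, rfl⟩)
      exact ⟨r j, this.1, this.2, rfl⟩
  rw [nv_eq S p hpinj hpS, nv_eq (fac q S) u huinj huS]
  -- column operation
  let A : Matrix (Fin (d+2)) (Fin (d+2)) ℝ := (hm p).updateCol q.1.succ
    (fun k => hm p k q.1.succ + (-bv q.2) • hm p k 0)
  have hA : A.det = (hm p).det :=
    Matrix.det_updateCol_add_smul_self (hm p) (Fin.succ_ne_zero q.1) (-bv q.2)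
  have hA0 : ∀ j, A j q.1.succ = p j q.1 - bv q.2 := by
    intro j
    simp only [A, Matrix.updateCol_self, hm, Matrix.of_apply, Fin.cons_succ, Fin.cons_zero,
      smul_eq_mul]
    ring
  have hexp := Matrix.det_succ_column A q.1.succ
  rw [Fin.sum_univ_succ] at hexp
  have hz : ∀ j : Fin (d+1), A j.succ q.1.succ = 0 := by
    intro j
    rw [hA0]
    simp only [p, Fin.cons_succ, hrq j, sub_self]
  simp only [hz, mul_zero, zero_mul, Finset.sum_const_zero, add_zero] at hexp
  have hsub : A.submatrix (Fin.succAbove 0) q.1.succ.succAbove = hm u := by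
    ext j k
    rw [Matrix.submatrix_apply]
    simp only [A]
    rw [Matrix.updateCol_ne (Fin.succAbove_ne _ _)]
    simp only [hm, Matrix.of_apply, Fin.succAbove_zero, p, Fin.cons_succ]
    refine Fin.cases ?_ (fun k => ?_) k
    · rw [Fin.succ_succAbove_zero]; simp
    · rw [Fin.succ_succAbove_succ]
      simp only [Fin.cons_succ, u, Fin.removeNth]
  rw [hsub, hA0 0] at hexp
  rw [← hA, hexp, abs_mul, abs_mul, abs_pow, abs_neg, abs_one, one_pow, one_mul]
  have hle : |p 0 q.1 - bv q.2| ≤ 1 := by
    have hc := h.cube pt hptS.1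
    have h0 := hc.1 q.1
    have h1 := hc.2 q.1
    simp only [Pi.zero_apply, Pi.one_apply] at h0 h1
    simp only [p, Fin.cons_zero]
    rw [abs_le]
    unfold bv
    split_ifs <;> constructor <;> linarith
  exact mul_le_of_le_one_left (abs_nonneg _) hle

lemma nv_le_el : ∀ (d : ℕ) {S : Finset (Pt d)}, Good d S → nv S ≤ maxDet (d - el d S)
  | 0, S, hS => by
    simpa using hS.nv_le
  | d+1, S, hS => by
    by_cases hex : ∃ q : Fin (d+1) × Bool, (fac q S).card = d + 1
    · obtain ⟨q, hq⟩ := hex
      rw [el_fac d hS hq]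
      refine (nv_le_nv_fac hS hq).trans ((nv_le_el d (hS.fac hq)).trans (le_of_eq ?_))
      congr 1
      omega
    · rw [not_exists] at hex
      rw [el_eq_zero hex]
      exact hS.nv_le

theorem Phi_le : ∀ (t d : ℕ) {S : Finset (Pt d)}, (t < d ∨ t = 0) → Good d S →
    Phi t d S ≤ ((el d S).descFactorial t : ℝ) * maxDet (d - el d S)
  | 0, d, S, _, hS => by
    simpa [Phi] using nv_le_el d hS
  | t+1, 0, S, h, _ => by omega
  | t+1, 1, S, h, _ => by omega
  | t+1, d+2, S, h, hS => by
    rw [Phi_succ]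
    rcases Finset.eq_empty_or_nonempty (exts S) with he | ⟨q0, hq0⟩
    · rw [he, Finset.sum_empty]
      exact mul_nonneg (by positivity) (maxDet_nonneg _)
    · have hel := el_fac (d+1) hS (mem_exts.1 hq0)
      set e := el (d+1) (fac q0 S) with he
      have hterm : ∀ q ∈ exts S, Phi t (d+1) (fac q S) ≤
          (e.descFactorial t : ℝ) * maxDet (d + 1 - e) := by
        intro q hq
        have h1 := el_fac (d+1) hS (mem_exts.1 hq)
        have h2 : el (d+1) (fac q S) = e := by omega
        have h3 := Phi_le t (d+1) (by omega) (hS.fac (mem_exts.1 hq))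
        rw [h2] at h3
        exact h3
      refine (Finset.sum_le_sum hterm).trans ?_
      rw [Finset.sum_const, nsmul_eq_mul, hel, Nat.succ_descFactorial_succ]
      have hc : (exts S).card ≤ e + 1 := by
        rw [card_exts_eq hS, ← hel]
        exact card_dirs_le (d+1) hS
      have hc' : ((exts S).card : ℝ) ≤ (e : ℝ) + 1 := by exact_mod_cast hc
      have h5 : d + 2 - (e + 1) = d + 1 - e := by omega
      rw [h5]
      push_cast
      rw [mul_assoc]
      exact mul_le_mul_of_nonneg_right hc' (mul_nonneg (by positivity) (maxDet_nonneg _))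

end Pool.Agent.H43.Cube
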