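import Mathlib
import Pool.Agent.H43.Cube.Det

/-!
# Corner simplices and the main lower bounds for covers
-/

set_option autoImplicit false

namespace Pool.Agent.H43.Cube

open MeasureTheory Set Finset

lemma maxDet_zero : maxDet 0 = 1 := by
  apply le_antisymm
  · apply maxDet_le
    intro A _
    simp
  · have := le_maxDet (m := 0) 0 (by simp)
    simpa using this

/-- bound for the number of chains in simplices which are not corners -/
def NC : ℕ → ℕ → ℕ
  | _, 0 => 1
  | 0, _+1 => 0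
  | d+1, t+1 => (d - 1) * NC d t + d.descFactorial t

lemma NC_le : ∀ (d t : ℕ), NC d t ≤ d.descFactorial t
  | d, 0 => by simp [NC]
  | 0, t+1 => by simp [NC]
  | d+1, t+1 => by
    have h := NC_le d t
    rw [Nat.succ_descFactorial_succ]
    unfold NC
    have h1 : (d - 1) * NC d t ≤ d * d.descFactorial t := Nat.mul_le_mul (Nat.sub_le _ _) h
    calc (d - 1) * NC d t + d.descFactorial t ≤ d * d.descFactorial t + d.descFactorial t := by
          omega
      _ = (d + 1) * d.descFactorial t := by ring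

/-- number of the points of `S` with the property `P` -/
noncomputable def cnt {d : ℕ} (S : Finset (Pt d)) (P : Pt d → Prop) : ℕ := by
  classical exact (S.filter P).card

lemma cnt_eq {d : ℕ} (S : Finset (Pt d)) (P : Pt d → Prop) [DecidablePred P] :
    (S.filter P).card = cnt S P := by
  unfold cnt
  congr!

lemma cnt_mono {d : ℕ} {S : Finset (Pt d)} {P Q : Pt d → Prop} (h : ∀ x ∈ S, P x → Q x) :
    cnt S P ≤ cnt S Q := by
  classical
  rw [← cnt_eq, ← cnt_eq]
  apply Finset.card_le_card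
  intro x hx
  rw [Finset.mem_filter] at hx ⊢
  exact ⟨hx.1, h x hx.1 hx.2⟩

lemma cnt_congr {d : ℕ} {S : Finset (Pt d)} {P Q : Pt d → Prop} (h : ∀ x ∈ S, P x ↔ Q x) :
    cnt S P = cnt S Q :=
  le_antisymm (cnt_mono fun x hx => (h x hx).1) (cnt_mono fun x hx => (h x hx).2)

lemma cnt_split {d : ℕ} (S : Finset (Pt d)) (P Q : Pt d → Prop) :
    cnt S P = cnt S (fun x => P x ∧ Q x) + cnt S (fun x => P x ∧ ¬ Q x) := by
  classical
  rw [← cnt_eq, ← cnt_eq, ← cnt_eq]
  rw [← Finset.card_filter_add_card_filter_not (s := S.filter P) Q, Finset.filter_filter,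
    Finset.filter_filter]

lemma cnt_add_le {d : ℕ} {S : Finset (Pt d)} {P Q R : Pt d → Prop}
    (hPQ : ∀ x ∈ S, P x → Q x → False) (hP : ∀ x ∈ S, P x → R x) (hQ : ∀ x ∈ S, Q x → R x) :
    cnt S P + cnt S Q ≤ cnt S R := by
  rw [cnt_split S R P]
  apply Nat.add_le_add
  · exact cnt_mono fun x hx hPx => ⟨hP x hx hPx, hPx⟩
  · exact cnt_mono fun x hx hQx => ⟨hQ x hx hQx, fun hPx => hPQ x hx hPx hQx⟩

lemma card_fac' {d : ℕ} (q : Fin (d+1) × Bool) (S : Finset (Pt (d+1))) :
    (fac q S).card = cnt S (fun x => x q.1 = bv q.2) := by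
  rw [card_fac, cnt_eq]

lemma cnt_fac {d : ℕ} (q : Fin (d+1) × Bool) (S : Finset (Pt (d+1))) (P : Pt d → Prop) :
    cnt (fac q S) P = cnt S (fun x => x q.1 = bv q.2 ∧ P (q.1.removeNth x)) := by
  classical
  rw [← cnt_eq, ← cnt_eq]
  have h1 : (fac q S).filter P = (S.filter (fun x => x q.1 = bv q.2 ∧ P (q.1.removeNth x))).image
      (fun x => (q.1.removeNth x : Pt d)) := by
    ext y
    simp only [Finset.mem_filter, mem_fac, Finset.mem_image]
    constructor
    · rintro ⟨⟨x, hx, hxq, rfl⟩, hP⟩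
      exact ⟨x, ⟨hx, hxq, hP⟩, rfl⟩
    · rintro ⟨x, ⟨hx, hxq, hP⟩, rfl⟩
      exact ⟨⟨x, hx, hxq, rfl⟩, hP⟩
  rw [h1]
  apply Finset.card_image_of_injOn
  refine (injOn_removeNth q.1 (bv q.2)).mono ?_
  intro x hx
  simp only [Finset.coe_filter, Set.mem_ofPred_eq] at hx
  exact hx.2.1

lemma card_fac_fac {d : ℕ} (i0 : Fin (d+2)) (b0 b : Bool) (i' : Fin (d+1))
    (S : Finset (Pt (d+2))) : (fac (i', b) (fac (i0, b0) S)).card =
      cnt S (fun x => x i0 = bv b0 ∧ x (i0.succAbove i') = bv b) := by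
  rw [card_fac', cnt_fac]
  rfl

/-- at most `D - 2` vertices lie in a face of codimension three -/
lemma card_triple_le {n : ℕ} {S : Finset (Pt (n+4))} (h : Good (n+4) S) {i1 i2 i : Fin (n+4)}
    {c1 c2 b : Bool} (h12 : i1 ≠ i2) (h1 : i ≠ i1) (h2 : i ≠ i2)
    (hc1 : (fac (i1, c1) S).card = n + 4) (hc2 : (fac (i2, c2) S).card = n + 4) :
    cnt S (fun x => x i1 = bv c1 ∧ x i2 = bv c2 ∧ x i = bv b) ≤ n + 2 := by
  obtain ⟨k, hk⟩ : ∃ k, i = i1.succAbove k := by
    rcases Fin.eq_self_or_eq_succAbove i1 i with h | ⟨k, h⟩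
    · exact absurd h h1
    · exact ⟨k, h⟩
  obtain ⟨k2, hk2⟩ : ∃ k, i2 = i1.succAbove k := by
    rcases Fin.eq_self_or_eq_succAbove i1 i2 with h | ⟨k, h⟩
    · exact absurd h.symm h12
    · exact ⟨k, h⟩
  have hkk : k ≠ k2 := by
    rintro rfl
    exact h2 (hk.trans hk2.symm)
  obtain ⟨k', hk'⟩ : ∃ k', k = k2.succAbove k' := by
    rcases Fin.eq_self_or_eq_succAbove k2 k with h | ⟨k', h⟩
    · exact absurd h hkk
    · exact ⟨k', h⟩
  subst hk2
  have hg1 := h.fac hc1
  have hf := full_pair h hc1 hc2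
  have hg2 := hg1.fac hf
  have hle := hg2.fac_card_le (k', b)
  rw [card_fac_fac, cnt_fac] at hle
  simp only [Fin.removeNth] at hle
  rw [← hk', ← hk] at hle
  exact hle

lemma two_corners {n : ℕ} {S : Finset (Pt (n+4))} (h : Good (n+4) S) {i1 i2 : Fin (n+4)}
    {c1 c2 : Bool} (h12 : i1 ≠ i2)
    (hc1 : (fac (i1, c1) S).card = n + 4) (hc2 : (fac (i2, c2) S).card = n + 4)
    (hd1 : dirs (fac (i1, c1) S) = Finset.univ) (hd2 : dirs (fac (i2, c2) S) = Finset.univ) :
    dirs S = Finset.univ := by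
  rw [Finset.eq_univ_iff_forall]
  intro i
  by_cases hi1 : i = i1
  · rw [hi1]; exact mem_dirs.2 ⟨c1, hc1⟩
  by_cases hi2 : i = i2
  · rw [hi2]; exact mem_dirs.2 ⟨c2, hc2⟩
  obtain ⟨k1, hk1⟩ : ∃ k, i = i1.succAbove k := by
    rcases Fin.eq_self_or_eq_succAbove i1 i with h | ⟨k, h⟩
    · exact absurd h hi1
    · exact ⟨k, h⟩
  obtain ⟨k2, hk2⟩ : ∃ k, i = i2.succAbove k := by
    rcases Fin.eq_self_or_eq_succAbove i2 i with h | ⟨k, h⟩
    · exact absurd h hi2
    · exact ⟨k, h⟩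
  obtain ⟨b1, hb1⟩ := mem_dirs.1 (hd1 ▸ Finset.mem_univ k1)
  obtain ⟨b2, hb2⟩ := mem_dirs.1 (hd2 ▸ Finset.mem_univ k2)
  obtain ⟨k3, hk3⟩ : ∃ k, i2 = i1.succAbove k := by
    rcases Fin.eq_self_or_eq_succAbove i1 i2 with h | ⟨k, h⟩
    · exact absurd h.symm h12
    · exact ⟨k, h⟩
  have hA12 : cnt S (fun x => x i1 = bv c1 ∧ x i2 = bv c2) = n + 3 := by
    have := full_pair h hc1 (i' := k3) (b := c2) (by rw [← hk3]; exact hc2)
    rw [card_fac_fac, ← hk3] at this
    exact this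
  rw [card_fac_fac, ← hk1] at hb1
  rw [card_fac_fac, ← hk2] at hb2
  have hT1 := card_triple_le h (b := b1) h12 hi1 hi2 hc1 hc2
  have hT2 := card_triple_le h (b := b2) h12 hi1 hi2 hc1 hc2
  rw [card_fac'] at hc1 hc2
  replace hc1 : cnt S (fun x => x i1 = bv c1) = n + 4 := hc1
  replace hc2 : cnt S (fun x => x i2 = bv c2) = n + 4 := hc2
  replace hb1 : cnt S (fun x => x i1 = bv c1 ∧ x i = bv b1) = n + 3 := hb1
  replace hb2 : cnt S (fun x => x i2 = bv c2 ∧ x i = bv b2) = n + 3 := hb2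
  replace hT1 : cnt S (fun x => x i1 = bv c1 ∧ x i2 = bv c2 ∧ x i = bv b1) ≤ n + 2 := hT1
  replace hT2 : cnt S (fun x => x i1 = bv c1 ∧ x i2 = bv c2 ∧ x i = bv b2) ≤ n + 2 := hT2
  -- splitting of `A1 ∩ C_{b1}` and of `A2 ∩ C_{b2}`
  have e1 := cnt_split S (fun x => x i1 = bv c1 ∧ x i = bv b1) (fun x => x i2 = bv c2)
  have e2 := cnt_split S (fun x => x i2 = bv c2 ∧ x i = bv b2) (fun x => x i1 = bv c1)
  have e3 := cnt_split S (fun x => x i1 = bv c1) (fun x => x i2 = bv c2)
  have e4 := cnt_split S (fun x => x i2 = bv c2) (fun x => x i1 = bv c1)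
  have f1 : cnt S (fun x => (x i1 = bv c1 ∧ x i = bv b1) ∧ x i2 = bv c2) =
      cnt S (fun x => x i1 = bv c1 ∧ x i2 = bv c2 ∧ x i = bv b1) :=
    cnt_congr fun x _ => by tauto
  have f2 : cnt S (fun x => (x i2 = bv c2 ∧ x i = bv b2) ∧ x i1 = bv c1) =
      cnt S (fun x => x i1 = bv c1 ∧ x i2 = bv c2 ∧ x i = bv b2) :=
    cnt_congr fun x _ => by tauto
  have f4 : cnt S (fun x => x i2 = bv c2 ∧ x i1 = bv c1) =
      cnt S (fun x => x i1 = bv c1 ∧ x i2 = bv c2) :=
    cnt_congr fun x _ => by tauto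
  have l1 : cnt S (fun x => (x i1 = bv c1 ∧ x i = bv b1) ∧ ¬ x i2 = bv c2) ≤
      cnt S (fun x => x i1 = bv c1 ∧ ¬ x i2 = bv c2) :=
    cnt_mono fun x _ => by tauto
  have l2 : cnt S (fun x => (x i2 = bv c2 ∧ x i = bv b2) ∧ ¬ x i1 = bv c1) ≤
      cnt S (fun x => x i2 = bv c2 ∧ ¬ x i1 = bv c1) :=
    cnt_mono fun x _ => by tauto
  have hb : b1 = b2 := by
    by_contra hne
    have h5 : cnt S (fun x => x i1 = bv c1 ∧ x i2 = bv c2 ∧ x i = bv b1) +
        cnt S (fun x => x i1 = bv c1 ∧ x i2 = bv c2 ∧ x i = bv b2) ≤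
        cnt S (fun x => x i1 = bv c1 ∧ x i2 = bv c2) :=
      cnt_add_le (fun x _ hx hx' => hne (bv_eq_iff.1 (hx.2.2.symm.trans hx'.2.2)))
        (fun x _ => by tauto) (fun x _ => by tauto)
    omega
  subst hb
  rw [mem_dirs]
  refine ⟨b1, le_antisymm (h.fac_card_le (i, b1)) ?_⟩
  rw [card_fac']
  have h6 : cnt S (fun x => x i1 = bv c1 ∧ x i = bv b1) +
      cnt S (fun x => (x i2 = bv c2 ∧ x i = bv b1) ∧ ¬ x i1 = bv c1) ≤
      cnt S (fun x => x i = bv b1) :=
    cnt_add_le (fun x _ hx hx' => hx'.2 hx.1) (fun x _ => by tauto) (fun x _ => by tauto)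
  change n + 4 ≤ cnt S (fun x => x i = bv b1)
  omega

theorem Phi_le_NC : ∀ (t n : ℕ) {S : Finset (Pt (n+1))}, t + 2 ≤ n + 1 → Good (n+1) S →
    dirs S ≠ Finset.univ → el (n+1) S = n + 1 → Phi t (n+1) S ≤ (NC (n+1) t : ℝ)
  | 0, n, S, _, hS, _, hel => by
    have := Phi_le 0 (n+1) (Or.inr rfl) hS
    rw [hel] at this
    simpa [maxDet_zero, NC] using this
  | t+1, 0, S, h, _, _, _ => by omega
  | t+1, n+1, S, h, hS, hd, hel => by
    classical
    rw [Phi_succ]
    have hcard : (exts S).card ≤ n + 1 := by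
      rw [card_exts_eq hS]
      have h1 : (dirs S).card < (Finset.univ : Finset (Fin (n+2))).card :=
        Finset.card_lt_card (Finset.ssubset_univ_iff.2 hd)
      simp only [Finset.card_univ, Fintype.card_fin] at h1
      omega
    have helq : ∀ q ∈ exts S, el (n+1) (fac q S) = n + 1 := by
      intro q hq
      have := el_fac (n+1) hS (mem_exts.1 hq)
      omega
    rcases Nat.eq_zero_or_pos t with ht | ht
    · subst ht
      have hterm : ∀ q ∈ exts S, Phi 0 (n+1) (fac q S) ≤ 1 := by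
        intro q hq
        have := Phi_le 0 (n+1) (Or.inr rfl) (hS.fac (mem_exts.1 hq))
        rw [helq q hq] at this
        simpa [maxDet_zero] using this
      refine (Finset.sum_le_sum hterm).trans ?_
      rw [Finset.sum_const, nsmul_eq_mul, mul_one]
      have h2 : NC (n+2) 1 = n + 1 := by simp [NC]
      rw [h2]
      exact_mod_cast hcard
    · obtain ⟨m, rfl⟩ : ∃ m, n = m + 2 := ⟨n - 2, by omega⟩
      have hNC : NC (m+2+2) (t+1) = (m + 2) * NC (m+3) t + (m+3).descFactorial t := by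
        conv_lhs => unfold NC
        rfl
      have hnc : ∀ q ∈ exts S, dirs (fac q S) ≠ Finset.univ →
          Phi t (m+3) (fac q S) ≤ (NC (m+3) t : ℝ) := fun q hq hq' =>
        Phi_le_NC t (m+2) (by omega) (hS.fac (mem_exts.1 hq)) hq' (helq q hq)
      have hle : ((NC (m+3) t : ℕ) : ℝ) ≤ ((m+3).descFactorial t : ℝ) := by
        exact_mod_cast NC_le (m+3) t
      by_cases hex : ∃ q0 ∈ exts S, dirs (fac q0 S) = Finset.univ
      · obtain ⟨q0, hq0, hq0'⟩ := hex
        have hothers : ∀ q ∈ (exts S).erase q0, Phi t (m+3) (fac q S) ≤ (NC (m+3) t : ℝ) := by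
          intro q hq
          have hq1 := Finset.mem_of_mem_erase hq
          have hq2 := Finset.ne_of_mem_erase hq
          apply hnc q hq1
          intro hcon
          apply hd
          have hne : q.1 ≠ q0.1 := by
            intro hh
            apply hq2
            obtain ⟨i, b⟩ := q
            obtain ⟨i0, b0⟩ := q0
            simp only at hh
            subst hh
            rw [full_unique hS (mem_exts.1 hq1) (mem_exts.1 hq0)]
          exact two_corners (n := m) hS hne (mem_exts.1 hq1) (mem_exts.1 hq0) hcon hq0'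
        rw [← Finset.add_sum_erase _ _ hq0]
        have h3 : Phi t (m+3) (fac q0 S) ≤ ((m+3).descFactorial t : ℝ) := by
          have := Phi_le t (m+3) (Or.inl (by omega)) (hS.fac (mem_exts.1 hq0))
          rw [helq q0 hq0] at this
          simpa [maxDet_zero] using this
        have h4 := Finset.sum_le_sum hothers
        rw [Finset.sum_const, nsmul_eq_mul, Finset.card_erase_of_mem hq0] at h4
        have h5 : (((exts S).card - 1 : ℕ) : ℝ) ≤ (m : ℝ) + 2 := by
          have : (exts S).card - 1 ≤ m + 2 := by omega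
          exact_mod_cast this
        have h6 : (((exts S).card - 1 : ℕ) : ℝ) * (NC (m+3) t : ℝ) ≤
            ((m : ℝ) + 2) * (NC (m+3) t : ℝ) := mul_le_mul_of_nonneg_right h5 (by positivity)
        rw [hNC]
        push_cast
        change Phi t (m+3) (fac q0 S) + _ ≤ _
        linarith
      · have hall : ∀ q ∈ exts S, Phi t (m+3) (fac q S) ≤ (NC (m+3) t : ℝ) := by
          intro q hq
          apply hnc q hq
          intro hcon
          exact hex ⟨q, hq, hcon⟩
        have h4 := Finset.sum_le_sum hall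
        rw [Finset.sum_const, nsmul_eq_mul] at h4
        have h5 : ((exts S).card : ℝ) ≤ (m : ℝ) + 3 := by
          have : (exts S).card ≤ m + 3 := by omega
          exact_mod_cast this
        have h6 : ((exts S).card : ℝ) * (NC (m+3) t : ℝ) ≤
            ((m : ℝ) + 3) * (NC (m+3) t : ℝ) := mul_le_mul_of_nonneg_right h5 (by positivity)
        rw [hNC]
        push_cast
        have h7 : ((m : ℝ) + 3) * (NC (m+3) t : ℝ) = ((m:ℝ) + 2) * (NC (m+3) t : ℝ) +
          (NC (m+3) t : ℝ) := by ring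
        refine h4.trans (h6.trans ?_)
        rw [h7]
        linarith

end Pool.Agent.H43.Cube
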