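import Mathlib
import Pool.Agent.H43.Cube.Corner

/-!
# Lower bounds for the number of simplices in a cover of the cube
-/

set_option autoImplicit false

namespace Pool.Agent.H43.Cube

open MeasureTheory Set Finset

/-- `S` is the vertex set of a `d`-simplex in `ℝ^d` -/
def IsSimplex (d : ℕ) (S : Finset (Fin d → ℝ)) : Prop :=
  S.card = d + 1 ∧ AffineIndependent ℝ (fun x : S => (x : Fin d → ℝ))

/-- `T` is a cover of the cube `[0,1]^d`: a finite family of `d`-simplices with union `[0,1]^d` -/
def IsCover (d : ℕ) (T : Finset (Finset (Fin d → ℝ))) : Prop :=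
  (∀ S ∈ T, IsSimplex d S) ∧
    (⋃ S ∈ T, convexHull ℝ (S : Set (Fin d → ℝ))) = Set.Icc (0 : Fin d → ℝ) 1

lemma IsCover.good {d : ℕ} {T : Finset (Finset (Fin d → ℝ))} (h : IsCover d T) :
    ∀ S ∈ T, Good d S := by
  intro S hS
  refine ⟨(h.1 S hS).1, ai_of_affineIndependent (h.1 S hS).2, fun x hx => ?_⟩
  rw [← h.2]
  simp only [Set.mem_iUnion]
  exact ⟨S, hS, subset_convexHull ℝ _ hx⟩

/-- **Lower bound for covers.** -/
theorem cover_bound {d : ℕ} {T : Finset (Finset (Fin d → ℝ))} (hT : IsCover d T) (m : ℕ)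
    (hm : m ≤ d) (y : ℕ → ℝ) (hy : ∀ t, 0 ≤ y t)
    (h : ∀ e ≤ d, (∑ t ∈ range m, y t * (e.descFactorial t : ℝ)) * maxDet (d - e) ≤ 1) :
    (d.factorial : ℝ) * ∑ t ∈ range m, 2 ^ t * y t ≤ T.card := by
  have hg := hT.good
  have hS : ∀ S ∈ T, ∑ t ∈ range m, y t * Phi t d S ≤ 1 := by
    intro S hS
    refine le_trans ?_ (h (el d S) (el_le d S))
    rw [Finset.sum_mul]
    refine Finset.sum_le_sum fun t ht => ?_
    rw [mul_assoc]
    refine mul_le_mul_of_nonneg_left ?_ (hy t)
    have := Finset.mem_range.1 ht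
    exact Phi_le t d (Or.inl (by omega)) (hg S hS)
  calc (d.factorial : ℝ) * ∑ t ∈ range m, 2 ^ t * y t
      = ∑ t ∈ range m, y t * (2 ^ t * (d.factorial : ℝ)) := by
        rw [Finset.mul_sum]
        exact Finset.sum_congr rfl fun t _ => by ring
    _ ≤ ∑ t ∈ range m, y t * ∑ S ∈ T, Phi t d S := by
        refine Finset.sum_le_sum fun t ht => mul_le_mul_of_nonneg_left ?_ (hy t)
        have := Finset.mem_range.1 ht
        exact sum_Phi t d T (fun S => S) (by omega) hg (le_of_eq hT.2.symm)
    _ = ∑ S ∈ T, ∑ t ∈ range m, y t * Phi t d S := by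
        rw [Finset.sum_comm]
        exact Finset.sum_congr rfl fun t _ => by rw [Finset.mul_sum]
    _ ≤ ∑ S ∈ T, 1 := Finset.sum_le_sum hS
    _ = T.card := by simp

/-! ### unit corners -/

/-- the vertex of the cube given by a vector of booleans -/
def vtx {d : ℕ} (v : Fin d → Bool) : Pt d := fun i => bv (v i)

lemma bv_mem (b : Bool) : 0 ≤ bv b ∧ bv b ≤ 1 := by
  unfold bv
  split_ifs <;> norm_num

open scoped Classical in
/-- the corner simplex at a vertex of the cube -/
noncomputable def unitCorner {d : ℕ} (v : Fin d → Bool) : Finset (Pt d) :=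
  insert (vtx v) (Finset.univ.image fun i => Function.update (vtx v) i (bv (!v i)))

lemma mem_unitCorner {d : ℕ} {v : Fin d → Bool} {x : Pt d} :
    x ∈ unitCorner v ↔ x = vtx v ∨ ∃ i, Function.update (vtx v) i (bv (!v i)) = x := by
  simp [unitCorner]

lemma bv_not_ne (b : Bool) : bv (!b) ≠ bv b := by
  cases b <;> simp [bv]

lemma update_ne_vtx {d : ℕ} (v : Fin d → Bool) (i : Fin d) :
    Function.update (vtx v) i (bv (!v i)) ≠ vtx v := by
  intro h
  have := congrFun h i
  rw [Function.update_self] at this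
  exact bv_not_ne _ this

lemma update_inj {d : ℕ} (v : Fin d → Bool) :
    Function.Injective (fun i => Function.update (vtx v) i (bv (!v i))) := by
  intro i j hij
  by_contra hne
  have := congrFun hij i
  simp only at this
  rw [Function.update_self, Function.update_of_ne hne] at this
  exact bv_not_ne _ this

lemma sum_unitCorner {d : ℕ} {M : Type} [AddCommMonoid M] (v : Fin d → Bool) (f : Pt d → M) :
    ∑ x ∈ unitCorner v, f x = f (vtx v) + ∑ i, f (Function.update (vtx v) i (bv (!v i))) := by
  classical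
  unfold unitCorner
  rw [Finset.sum_insert, Finset.sum_image fun i _ j _ h => update_inj v h]
  intro h
  obtain ⟨i, _, hi⟩ := Finset.mem_image.1 h
  exact update_ne_vtx v i hi

lemma good_unitCorner {d : ℕ} (v : Fin d → Bool) : Good d (unitCorner v) := by
  classical
  refine ⟨?_, ?_, ?_⟩
  · have h := sum_unitCorner v (fun _ => 1)
    rw [Finset.sum_const, Finset.sum_const] at h
    simp only [smul_eq_mul, mul_one, Finset.card_univ, Fintype.card_fin] at h
    omega
  · intro w h0 h1
    rw [sum_unitCorner] at h0 h1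
    have hw : ∀ i, w (Function.update (vtx v) i (bv (!v i))) = 0 := by
      intro i
      have h2 := congrFun h1 i
      simp only [Pi.add_apply, Finset.sum_apply, Pi.smul_apply, smul_eq_mul, Pi.zero_apply] at h2
      have h3 : ∑ c, w (Function.update (vtx v) c (bv (!v c))) *
          Function.update (vtx v) c (bv (!v c)) i =
          ∑ c, (w (Function.update (vtx v) c (bv (!v c))) * vtx v i +
            if c = i then w (Function.update (vtx v) i (bv (!v i))) * (bv (!v i) - bv (v i))
              else 0) := by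
        refine Finset.sum_congr rfl fun c _ => ?_
        by_cases hc : c = i
        · subst hc
          rw [Function.update_self, if_pos rfl]
          simp only [vtx]
          ring
        · rw [Function.update_of_ne (Ne.symm hc), if_neg hc, add_zero]
      rw [h3, Finset.sum_add_distrib, ← Finset.sum_mul, Finset.sum_ite_eq' Finset.univ i,
        if_pos (Finset.mem_univ i), ← add_assoc, ← add_mul, h0, zero_mul, zero_add] at h2
      rcases mul_eq_zero.1 h2 with h4 | h4
      · exact h4
      · exact absurd (by linarith) (bv_not_ne (v i))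
    have hv : w (vtx v) = 0 := by
      rw [Finset.sum_eq_zero fun i _ => hw i, add_zero] at h0
      exact h0
    intro x hx
    rcases mem_unitCorner.1 hx with h | ⟨i, h⟩
    · rw [h]; exact hv
    · rw [← h]; exact hw i
  · intro x hx
    rcases mem_unitCorner.1 hx with h | ⟨i, h⟩
    · rw [h]
      exact ⟨fun k => (bv_mem _).1, fun k => (bv_mem _).2⟩
    · rw [← h]
      constructor
      · intro k
        by_cases hk : k = i
        · subst hk; rw [Function.update_self]; exact (bv_mem _).1
        · rw [Function.update_of_ne hk]; exact (bv_mem _).1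
      · intro k
        by_cases hk : k = i
        · subst hk; rw [Function.update_self]; exact (bv_mem _).2
        · rw [Function.update_of_ne hk]; exact (bv_mem _).2

/-- a corner simplex is contained in a unit corner -/
lemma corner_sub {n : ℕ} {S : Finset (Pt (n+1))} (h : Good (n+1) S)
    (hd : dirs S = Finset.univ) : ∃ v : Fin (n+1) → Bool,
      convexHull ℝ (S : Set (Pt (n+1))) ⊆ convexHull ℝ (unitCorner v : Set (Pt (n+1))) := by
  have hex : ∀ i, ∃ b, (fac (i, b) S).card = n + 1 := fun i =>
    mem_dirs.1 (hd ▸ Finset.mem_univ i)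
  choose v hv using hex
  refine ⟨v, convexHull_min ?_ (convex_convexHull ℝ _)⟩
  -- every vertex differs from `vtx v` in at most one coordinate
  have key : ∀ x ∈ S, ∀ i j, x i ≠ bv (v i) → x j ≠ bv (v j) → i = j := by
    intro x hx i j hi hj
    by_contra hne
    obtain ⟨k, hk⟩ : ∃ k, j = i.succAbove k := by
      rcases Fin.eq_self_or_eq_succAbove i j with h | ⟨k, h⟩
      · exact absurd h.symm hne
      · exact ⟨k, h⟩
    obtain ⟨m, rfl⟩ : ∃ m, n = m + 1 := by
      rcases n with _ | m
      · exact k.elim0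
      · exact ⟨m, rfl⟩
    have hp := full_pair (d := m) h (i0 := i) (b0 := v i) (i' := k) (b := v j) (hv i)
      (by rw [← hk]; exact hv j)
    rw [card_fac_fac, ← hk] at hp
    replace hp : cnt S (fun x => x i = bv (v i) ∧ x j = bv (v j)) = m + 1 := hp
    have h1 := hv i
    rw [card_fac'] at h1
    replace h1 : cnt S (fun x => x i = bv (v i)) = m + 2 := h1
    have h2 := hv j
    rw [card_fac'] at h2
    replace h2 : cnt S (fun x => x j = bv (v j)) = m + 2 := h2
    -- the complements contain only `x`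
    have hS : cnt S (fun _ => True) = m + 3 := by
      rw [← h.card]
      classical
      rw [← cnt_eq]
      simp
    have e1 := cnt_split S (fun _ => True) (fun x => x i = bv (v i))
    have e2 := cnt_split S (fun x => x i = bv (v i)) (fun x => x j = bv (v j))
    have e3 := cnt_split S (fun _ => True) (fun x => x j = bv (v j))
    have f1 : cnt S (fun x => True ∧ x i = bv (v i)) = cnt S (fun x => x i = bv (v i)) :=
      cnt_congr fun x _ => by tauto
    have f3 : cnt S (fun x => True ∧ x j = bv (v j)) = cnt S (fun x => x j = bv (v j)) :=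
      cnt_congr fun x _ => by tauto
    have g1 : 1 ≤ cnt S (fun x => x i ≠ bv (v i) ∧ x j ≠ bv (v j)) := by
      classical
      rw [← cnt_eq, Nat.one_le_iff_ne_zero, ← Nat.pos_iff_ne_zero, Finset.card_pos]
      exact ⟨x, Finset.mem_filter.2 ⟨hx, hi, hj⟩⟩
    have g2 : cnt S (fun x => x i ≠ bv (v i) ∧ x j ≠ bv (v j)) +
        cnt S (fun x => x i = bv (v i) ∧ ¬ x j = bv (v j)) ≤
        cnt S (fun x => True ∧ ¬ x j = bv (v j)) :=
      cnt_add_le (fun x _ hx hx' => hx.1 hx'.1) (fun x _ hx => ⟨trivial, hx.2⟩)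
        (fun x _ hx => ⟨trivial, hx.2⟩)
    omega
  intro x hx
  have hx' : x ∈ S := Finset.mem_coe.1 hx
  by_cases hxv : ∃ i, x i ≠ bv (v i)
  · obtain ⟨i, hi⟩ := hxv
    have hother : ∀ j, j ≠ i → x j = bv (v j) := by
      intro j hj
      by_contra hcon
      exact hj (key x hx' j i hcon hi)
    -- `x` is on the segment
    have hc := h.cube x hx'
    have h0 : 0 ≤ x i := hc.1 i
    have h1 : x i ≤ 1 := hc.2 i
    let s : ℝ := if v i then 1 - x i else x i
    have hs : 0 ≤ s ∧ s ≤ 1 := by
      simp only [s]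
      split_ifs <;> constructor <;> linarith
    have hxeq : x = (1 - s) • vtx v + s • Function.update (vtx v) i (bv (!v i)) := by
      funext j
      simp only [Pi.add_apply, Pi.smul_apply, smul_eq_mul]
      by_cases hj : j = i
      · subst hj
        rw [Function.update_self]
        simp only [vtx, s, bv]
        cases hvj : v j <;> simp
      · rw [Function.update_of_ne hj, hother j hj]
        simp only [vtx]
        ring
    rw [hxeq]
    refine (convex_convexHull ℝ _) (subset_convexHull ℝ _ ?_) (subset_convexHull ℝ _ ?_)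
      (by linarith [hs.2]) hs.1 (by ring)
    · exact Finset.mem_coe.2 (mem_unitCorner.2 (Or.inl rfl))
    · exact Finset.mem_coe.2 (mem_unitCorner.2 (Or.inr ⟨i, rfl⟩))
  · have : x = vtx v := by
      funext i
      by_contra hcon
      exact hxv ⟨i, hcon⟩
    rw [this]
    exact subset_convexHull ℝ _ (Finset.mem_coe.2 (mem_unitCorner.2 (Or.inl rfl)))

/-- **Lower bound for covers, taking into account that there are only `2 ^ (n + 1)` corners.** -/
theorem cover_bound_cap {n : ℕ} {T : Finset (Finset (Fin (n+1) → ℝ))} (hT : IsCover (n+1) T)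
    (m : ℕ) (hm : m ≤ n) (y : ℕ → ℝ) (hy : ∀ t, 0 ≤ y t) (z : ℝ) (hz : 0 ≤ z)
    (h : ∀ e ≤ n, (∑ t ∈ range m, y t * (e.descFactorial t : ℝ)) * maxDet (n + 1 - e) ≤ 1)
    (hc : ∑ t ∈ range m, y t * ((n+1).descFactorial t : ℝ) ≤ 1 + z)
    (hn : ∑ t ∈ range m, y t * (NC (n+1) t : ℝ) ≤ 1) :
    ((n+1).factorial : ℝ) * ∑ t ∈ range m, 2 ^ t * y t - z * 2 ^ (n+1) ≤ T.card := by
  classical
  have hg := hT.good
  have hex : ∀ S : Finset (Pt (n+1)), ∃ v : Fin (n+1) → Bool, S ∈ T → dirs S = Finset.univ →
      convexHull ℝ (S : Set (Pt (n+1))) ⊆ convexHull ℝ (unitCorner v : Set (Pt (n+1))) := by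
    intro S
    by_cases hS : S ∈ T ∧ dirs S = Finset.univ
    · obtain ⟨v, hv⟩ := corner_sub (hg S hS.1) hS.2
      exact ⟨v, fun _ _ => hv⟩
    · exact ⟨fun _ => false, fun h1 h2 => absurd ⟨h1, h2⟩ hS⟩
  choose vert hvert using hex
  set T1 := T.filter (fun S => ¬ dirs S = Finset.univ) with hT1
  set T2 := (T.filter (fun S => dirs S = Finset.univ)).image (fun S => unitCorner (vert S)) with hT2
  have hcard1 : T1.card + T2.card ≤ T.card := by
    have h1 : T2.card ≤ (T.filter (fun S => dirs S = Finset.univ)).card := Finset.card_image_le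
    have h2 : (T.filter (fun S => dirs S = Finset.univ)).card + T1.card = T.card := by
      rw [hT1]
      convert Finset.card_filter_add_card_filter_not (s := T) (fun S => dirs S = Finset.univ)
    omega
  have hcard2 : T2.card ≤ 2 ^ (n+1) := by
    have h1 : T2 ⊆ (Finset.univ : Finset (Fin (n+1) → Bool)).image unitCorner := by
      intro S hS
      obtain ⟨S', _, rfl⟩ := Finset.mem_image.1 hS
      exact Finset.mem_image_of_mem _ (Finset.mem_univ _)
    refine (Finset.card_le_card h1).trans (Finset.card_image_le.trans ?_)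
    simp
  have hg' : ∀ S ∈ T1 ∪ T2, Good (n+1) S := by
    intro S hS
    rcases Finset.mem_union.1 hS with h | h
    · exact hg S (Finset.mem_filter.1 h).1
    · obtain ⟨S', _, rfl⟩ := Finset.mem_image.1 h
      exact good_unitCorner _
  have hcov : Set.Icc (0 : Pt (n+1)) 1 ⊆ ⋃ S ∈ T1 ∪ T2, convexHull ℝ (S : Set (Pt (n+1))) := by
    rw [← hT.2]
    intro x hx
    simp only [Set.mem_iUnion] at hx ⊢
    obtain ⟨S, hS, hxS⟩ := hx
    by_cases hd : dirs S = Finset.univ
    · refine ⟨unitCorner (vert S), Finset.mem_union_right _ (Finset.mem_image.2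
        ⟨S, Finset.mem_filter.2 ⟨hS, hd⟩, rfl⟩), hvert S hS hd hxS⟩
    · exact ⟨S, Finset.mem_union_left _ (Finset.mem_filter.2 ⟨hS, hd⟩), hxS⟩
  have hG1 : ∀ S ∈ T1, ∑ t ∈ range m, y t * Phi t (n+1) S ≤ 1 := by
    intro S hS
    have hS' := Finset.mem_filter.1 hS
    have hgS := hg S hS'.1
    rcases Nat.lt_or_ge (el (n+1) S) (n+1) with hlt | hge
    · refine le_trans ?_ (h (el (n+1) S) (by omega))
      rw [Finset.sum_mul]
      refine Finset.sum_le_sum fun t ht => ?_
      rw [mul_assoc]
      refine mul_le_mul_of_nonneg_left ?_ (hy t)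
      have := Finset.mem_range.1 ht
      exact Phi_le t (n+1) (Or.inl (by omega)) hgS
    · have hel : el (n+1) S = n + 1 := le_antisymm (el_le _ _) hge
      refine le_trans ?_ hn
      refine Finset.sum_le_sum fun t ht => mul_le_mul_of_nonneg_left ?_ (hy t)
      have := Finset.mem_range.1 ht
      exact Phi_le_NC t n (by omega) hgS hS'.2 hel
  have hG2 : ∀ S ∈ T2, ∑ t ∈ range m, y t * Phi t (n+1) S ≤ 1 + z := by
    intro S hS
    have hgS := hg' S (Finset.mem_union_right _ hS)
    rcases Nat.lt_or_ge (el (n+1) S) (n+1) with hlt | hge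
    · refine le_trans ?_ ((h (el (n+1) S) (by omega)).trans (by linarith))
      rw [Finset.sum_mul]
      refine Finset.sum_le_sum fun t ht => ?_
      rw [mul_assoc]
      refine mul_le_mul_of_nonneg_left ?_ (hy t)
      have := Finset.mem_range.1 ht
      exact Phi_le t (n+1) (Or.inl (by omega)) hgS
    · have hel : el (n+1) S = n + 1 := le_antisymm (el_le _ _) hge
      refine le_trans ?_ hc
      refine Finset.sum_le_sum fun t ht => mul_le_mul_of_nonneg_left ?_ (hy t)
      have := Finset.mem_range.1 ht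
      have h1 := Phi_le t (n+1) (Or.inl (by omega)) hgS
      rw [hel] at h1
      simpa [maxDet_zero] using h1
  have hmain : ((n+1).factorial : ℝ) * ∑ t ∈ range m, 2 ^ t * y t ≤
      (T1.card : ℝ) + (T2.card : ℝ) * (1 + z) := by
    calc ((n+1).factorial : ℝ) * ∑ t ∈ range m, 2 ^ t * y t
        = ∑ t ∈ range m, y t * (2 ^ t * ((n+1).factorial : ℝ)) := by
          rw [Finset.mul_sum]
          exact Finset.sum_congr rfl fun t _ => by ring
      _ ≤ ∑ t ∈ range m, y t * ∑ S ∈ T1 ∪ T2, Phi t (n+1) S := by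
          refine Finset.sum_le_sum fun t ht => mul_le_mul_of_nonneg_left ?_ (hy t)
          have := Finset.mem_range.1 ht
          exact sum_Phi t (n+1) (T1 ∪ T2) (fun S => S) (by omega) hg' hcov
      _ = ∑ S ∈ T1 ∪ T2, ∑ t ∈ range m, y t * Phi t (n+1) S := by
          rw [Finset.sum_comm]
          exact Finset.sum_congr rfl fun t _ => by rw [Finset.mul_sum]
      _ ≤ ∑ S ∈ T1, ∑ t ∈ range m, y t * Phi t (n+1) S +
          ∑ S ∈ T2, ∑ t ∈ range m, y t * Phi t (n+1) S := by
          have h1 := Finset.sum_union_inter (s₁ := T1) (s₂ := T2)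
            (f := fun S => ∑ t ∈ range m, y t * Phi t (n+1) S)
          have h2 : 0 ≤ ∑ S ∈ T1 ∩ T2, ∑ t ∈ range m, y t * Phi t (n+1) S :=
            Finset.sum_nonneg fun S _ => Finset.sum_nonneg fun t _ =>
              mul_nonneg (hy t) (Phi_nonneg _ _ _)
          linarith
      _ ≤ ∑ S ∈ T1, (1:ℝ) + ∑ S ∈ T2, (1 + z) :=
          add_le_add (Finset.sum_le_sum hG1) (Finset.sum_le_sum hG2)
      _ = (T1.card : ℝ) + (T2.card : ℝ) * (1 + z) := by
          rw [Finset.sum_const, Finset.sum_const, nsmul_eq_mul, nsmul_eq_mul, mul_one]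
  have h3 : (T1.card : ℝ) + (T2.card : ℝ) ≤ (T.card : ℝ) := by exact_mod_cast hcard1
  have h4 : (T2.card : ℝ) ≤ 2 ^ (n+1) := by exact_mod_cast hcard2
  have h5 : (T2.card : ℝ) * z ≤ 2 ^ (n+1) * z := mul_le_mul_of_nonneg_right h4 hz
  nlinarith

end Pool.Agent.H43.Cube
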