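import Mathlib
import Pool.Agent.H43.Cube.Gram
import Pool.Agent.H43.Cube.Cover

/-!
# Gram matrices of matrices with entries `1`, `-1`, and Hadamard's bound
-/

set_option autoImplicit false

namespace Pool.Agent.H43.Cube

open Finset Matrix

lemma abs_det_nat {m : ℕ} (A : Matrix (Fin m) (Fin m) ℝ) (hA : ∀ i j, A i j = 0 ∨ A i j = 1) :
    ∃ k : ℕ, |A.det| = k := by
  classical
  let B : Matrix (Fin m) (Fin m) ℤ := Matrix.of fun i j => if A i j = 0 then 0 else 1
  have hB : A = (Int.castRingHom ℝ).mapMatrix B := by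
    ext i j
    simp only [RingHom.mapMatrix_apply, Matrix.map_apply, B, Matrix.of_apply]
    rcases hA i j with h | h <;> simp [h]
  refine ⟨B.det.natAbs, ?_⟩
  rw [hB, ← RingHom.map_det]
  simp [Nat.cast_natAbs]

/-- passing from a `0/1` matrix to a `±1` matrix -/
lemma to_pm {m : ℕ} (A : Matrix (Fin m) (Fin m) ℝ) (hA : ∀ i j, A i j = 0 ∨ A i j = 1) :
    ∃ M : Matrix (Fin (m+1)) (Fin (m+1)) ℤ, (∀ i j, M i j = 1 ∨ M i j = -1) ∧
      |(M.det : ℝ)| = 2 ^ m * |A.det| := by
  classical
  let p : Fin (m+1) → Pt m := Fin.cons 0 fun j i => A i j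
  have h1 : edgeM p = A := by
    ext i j
    simp [edgeM, p]
  let q : Fin (m+1) → Fin m → ℤ := fun j i => if p j i = 0 then 0 else 1
  have hp : ∀ j i, p j i = 0 ∨ p j i = 1 := by
    intro j i
    refine Fin.cases ?_ (fun j => ?_) j
    · simp [p]
    · simp only [p, Fin.cons_succ]
      exact hA i j
  have hq : ∀ j i, (q j i : ℝ) = p j i := by
    intro j i
    rcases hp j i with h | h <;> simp [q, h]
  have hq01 : ∀ j i, q j i = 0 ∨ q j i = 1 := by
    intro j i
    simp only [q]
    split_ifs <;> simp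
  let N : Matrix (Fin (m+1)) (Fin (m+1)) ℤ := Matrix.of fun j => Fin.cons 1 (q j)
  have hN : (N.det : ℝ) = (hm p).det := by
    have : hm p = (Int.castRingHom ℝ).mapMatrix N := by
      ext j k
      refine Fin.cases ?_ (fun k => ?_) k
      · simp [hm, N]
      · simp [hm, N, hq]
    rw [this, ← RingHom.map_det]
    simp
  -- column operations
  let E : Matrix (Fin (m+1)) (Fin (m+1)) ℤ := Matrix.of fun k k' =>
    if k' = 0 then (if k = 0 then 1 else 0) else (if k = 0 then 1 else if k = k' then -2 else 0)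
  have hE : E.det = (-2) ^ m := by
    have : E.BlockTriangular id := by
      intro i j hij
      simp only [id] at hij
      simp only [E, Matrix.of_apply]
      have h0 : i ≠ 0 := fun h => by
        rw [h] at hij
        exact absurd hij (Fin.not_lt_zero j)
      by_cases hj : j = 0
      · simp [hj, h0]
      · simp [hj, h0, hij.ne']
    rw [Matrix.det_of_isUpperTriangular this, Fin.prod_univ_succ]
    simp [E, Fin.succ_ne_zero]
  refine ⟨N * E, ?_, ?_⟩
  · intro i j
    rw [Matrix.mul_apply, Fin.sum_univ_succ]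
    refine Fin.cases ?_ (fun j => ?_) j
    · left
      simp [N, E, Fin.succ_ne_zero]
    · have : ∑ k : Fin m, N i k.succ * E k.succ j.succ = -2 * q i j := by
        rw [Finset.sum_eq_single j]
        · simp [N, E, Fin.succ_ne_zero]
          ring
        · intro k _ hk
          simp [E, Fin.succ_ne_zero, Fin.succ_inj, hk]
        · simp
      rw [this]
      have h0 : N i 0 * E 0 j.succ = 1 := by simp [N, E, Fin.succ_ne_zero]
      rw [h0]
      rcases hq01 i j with h | h <;> rw [h] <;> norm_num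
  · rw [Matrix.det_mul, hE]
    rw [Int.cast_mul, hN, det_hm, h1, abs_mul, mul_comm]
    congr 1
    push_cast
    rw [abs_pow]
    norm_num

/-- from real gram determinants -/
lemma gram_psd {n : ℕ} (M : Matrix (Fin n) (Fin n) ℤ) :
    (((Int.castRingHom ℝ).mapMatrix (M * M.transpose))).PosSemidef := by
  have := Matrix.posSemidef_self_mul_conjTranspose ((Int.castRingHom ℝ).mapMatrix M)
  rw [Matrix.conjTranspose_eq_transpose_of_trivial] at this
  rw [map_mul]
  exact this

lemma gram_apply {n : ℕ} (M : Matrix (Fin n) (Fin n) ℤ) (i j : Fin n) :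
    (M * M.transpose) i j = ∑ k, M i k * M j k := by
  simp [Matrix.mul_apply]

lemma gram_diag {n : ℕ} {M : Matrix (Fin n) (Fin n) ℤ} (hM : ∀ i j, M i j = 1 ∨ M i j = -1)
    (i : Fin n) : (M * M.transpose) i i = n := by
  rw [gram_apply]
  have : ∀ k, M i k * M i k = 1 := by
    intro k
    rcases hM i k with h | h <;> rw [h] <;> norm_num
  simp [this]

lemma gram_abs {n : ℕ} {M : Matrix (Fin n) (Fin n) ℤ} (hM : ∀ i j, M i j = 1 ∨ M i j = -1)
    (i j : Fin n) : -(n:ℤ) ≤ (M * M.transpose) i j ∧ (M * M.transpose) i j ≤ n := by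
  rw [gram_apply]
  have h1 : ∀ k, -1 ≤ M i k * M j k ∧ M i k * M j k ≤ 1 := by
    intro k
    rcases hM i k with h | h <;> rcases hM j k with h' | h' <;> rw [h, h'] <;> norm_num
  constructor
  · calc -(n:ℤ) = ∑ k : Fin n, (-1:ℤ) := by simp
      _ ≤ _ := Finset.sum_le_sum fun k _ => (h1 k).1
  · calc ∑ k, M i k * M j k ≤ ∑ k : Fin n, (1:ℤ) := Finset.sum_le_sum fun k _ => (h1 k).2
      _ = n := by simp

lemma gram_symm {n : ℕ} (M : Matrix (Fin n) (Fin n) ℤ) (i j : Fin n) :
    (M * M.transpose) i j = (M * M.transpose) j i := by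
  rw [gram_apply, gram_apply]
  exact Finset.sum_congr rfl fun k _ => mul_comm _ _

/-- the class of rows mod 4 -/
lemma gram_mod {n : ℕ} {M : Matrix (Fin n) (Fin n) ℤ} (hM : ∀ i j, M i j = 1 ∨ M i j = -1)
    (i j : Fin n) : (4:ℤ) ∣ n + (∑ k, M i k) + (∑ k, M j k) + (M * M.transpose) i j := by
  rw [gram_apply]
  have : (n:ℤ) + (∑ k, M i k) + (∑ k, M j k) + ∑ k, M i k * M j k =
      ∑ k, (1 + M i k) * (1 + M j k) := by
    have h2 : ∀ k, (1 + M i k) * (1 + M j k) = 1 + M i k + M j k + M i k * M j k :=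
      fun k => by ring
    simp_rw [h2, Finset.sum_add_distrib]
    simp
  rw [this]
  refine Finset.dvd_sum fun k _ => ?_
  rcases hM i k with h | h <;> rcases hM j k with h' | h' <;> rw [h, h'] <;> norm_num

lemma det_sq_gram {n : ℕ} (M : Matrix (Fin n) (Fin n) ℤ) :
    ((M.det : ℝ)) ^ 2 = ((Int.castRingHom ℝ).mapMatrix (M * M.transpose)).det := by
  rw [← RingHom.map_det, Matrix.det_mul, Matrix.det_transpose]
  simp [pow_two]

/-- Hadamard bound for principal submatrices of gram matrices -/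
lemma det_sub_le {n k : ℕ} {G : Matrix (Fin n) (Fin n) ℝ} (hG : G.PosSemidef)
    {c : ℝ} (hd : ∀ i, G i i ≤ c) (g : Fin k → Fin n) : (G.submatrix g g).det ≤ c ^ k := by
  have := psd_det_le (hG.submatrix g) (c := c) (by
    rw [Matrix.trace]
    calc ∑ i, (G.submatrix g g).diag i ≤ ∑ i : Fin k, c := Finset.sum_le_sum fun i _ => hd _
      _ = c * Fintype.card (Fin k) := by simp [mul_comm])
  simpa using this

lemma abs_det_hadamard {m : ℕ} (A : Matrix (Fin m) (Fin m) ℝ)
    (hA : ∀ i j, A i j = 0 ∨ A i j = 1) :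
    (2 ^ m * |A.det|) ^ 2 ≤ ((m:ℝ)+1) ^ (m+1) := by
  obtain ⟨M, hM, hdet⟩ := to_pm A hA
  rw [← hdet, sq_abs, det_sq_gram]
  have hG := gram_psd M
  have h1 := det_sub_le hG (c := (m:ℝ) + 1) (fun i => by
    simp only [RingHom.mapMatrix_apply, Matrix.map_apply, Int.coe_castRingHom]
    rw [gram_diag hM]
    push_cast
    exact le_rfl) id
  simpa using h1

end Pool.Agent.H43.Cube
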