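import Mathlib
import Pool.Agent.H43.Cube.Had

/-!
# Numerical bounds for maximal determinants
-/

set_option autoImplicit false

namespace Pool.Agent.H43.Cube

open Finset

lemma maxDet_le_of (m c : ℕ) (h : (m+1) ^ (m+1) < (c+1) ^ 2 * 4 ^ m) : maxDet m ≤ c := by
  apply maxDet_le
  intro A hA
  obtain ⟨k, hk⟩ := abs_det_nat A hA
  have h1 := abs_det_hadamard A hA
  rw [hk] at h1 ⊢
  have h2 : ((k:ℝ) * 2 ^ m) ^ 2 ≤ ((m:ℝ)+1) ^ (m+1) := by
    rw [mul_comm]
    exact h1
  have h3 : k ^ 2 * 4 ^ m ≤ (m+1) ^ (m+1) := by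
    have : ((k:ℝ) * 2 ^ m) ^ 2 = ((k ^ 2 * 4 ^ m : ℕ) : ℝ) := by
      push_cast
      rw [mul_pow, ← pow_mul, mul_comm m 2, pow_mul]
      norm_num
    rw [this] at h2
    exact_mod_cast h2
  by_contra hcon
  have hlt : c + 1 ≤ k := by
    have : (c:ℝ) < k := not_le.1 hcon
    exact_mod_cast this
  have h4 : (c+1) ^ 2 * 4 ^ m ≤ k ^ 2 * 4 ^ m :=
    Nat.mul_le_mul_right _ (Nat.pow_le_pow_left hlt 2)
  omega

lemma maxDet_one : maxDet 1 ≤ 1 := by exact_mod_cast maxDet_le_of 1 1 (by norm_num)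
lemma maxDet_two : maxDet 2 ≤ 1 := by exact_mod_cast maxDet_le_of 2 1 (by norm_num)
lemma maxDet_three : maxDet 3 ≤ 2 := by exact_mod_cast maxDet_le_of 3 2 (by norm_num)
lemma maxDet_four : maxDet 4 ≤ 3 := by exact_mod_cast maxDet_le_of 4 3 (by norm_num)
lemma maxDet_five' : maxDet 5 ≤ 6 := by exact_mod_cast maxDet_le_of 5 6 (by norm_num)
lemma maxDet_seven : maxDet 7 ≤ 32 := by exact_mod_cast maxDet_le_of 7 32 (by norm_num)
lemma maxDet_eight : maxDet 8 ≤ 76 := by exact_mod_cast maxDet_le_of 8 76 (by norm_num)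
lemma maxDet_nine : maxDet 9 ≤ 195 := by exact_mod_cast maxDet_le_of 9 195 (by norm_num)
lemma maxDet_ten : maxDet 10 ≤ 521 := by exact_mod_cast maxDet_le_of 10 521 (by norm_num)
lemma maxDet_eleven : maxDet 11 ≤ 1458 := by exact_mod_cast maxDet_le_of 11 1458 (by norm_num)
lemma maxDet_twelve : maxDet 12 ≤ 4252 := by exact_mod_cast maxDet_le_of 12 4252 (by norm_num)

/-- a cover of the four-dimensional cube has at least `16` simplices -/
theorem cover_four {T : Finset (Finset (Fin 4 → ℝ))} (hT : IsCover 4 T) : 16 ≤ T.card := by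
  have h := cover_bound hT 2 (by norm_num) (fun t => if t = 0 then 1/3 else 1/6)
    (fun t => by split_ifs <;> norm_num) (by
      intro e he
      have h0 := maxDet_zero
      have h1 := maxDet_one
      have h2 := maxDet_two
      have h3 := maxDet_three
      have h4 := maxDet_four
      interval_cases e <;> simp [Finset.sum_range_succ, Nat.descFactorial] <;> linarith)
  norm_num [Finset.sum_range_succ, Nat.factorial] at h
  exact_mod_cast h

end Pool.Agent.H43.Cube
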