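import Mathlib
import Pool.Agent.H43.Cube.Gram
import Pool.Agent.H43.Cube.Num

/-!
# Maximal determinants of order five and six
-/

set_option autoImplicit false

namespace Pool.Agent.H43.Cube

open Finset Matrix

lemma det_three_six : ∀ a ∈ ({-6,-2,2,6} : Finset ℤ), ∀ b ∈ ({-6,-2,2,6} : Finset ℤ),
    ∀ c ∈ ({-6,-2,2,6} : Finset ℤ),
    6 * 6 * 6 - 6 * c * c - a * a * 6 + a * c * b + b * a * c - b * 6 * b ≤ 160 := by
  decide +kernel

theorem maxDet_five : maxDet 5 ≤ 5 := by
  classical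
  apply maxDet_le
  intro A hA
  obtain ⟨k, hk⟩ := abs_det_nat A hA
  obtain ⟨M, hM, hdet⟩ : ∃ M : Matrix (Fin 6) (Fin 6) ℤ, (∀ i j, M i j = 1 ∨ M i j = -1) ∧
      |(M.det : ℝ)| = 2 ^ 5 * |A.det| := to_pm A hA
  set Gz := M * M.transpose with hGz
  set G := (Int.castRingHom ℝ).mapMatrix Gz with hGdef
  have hG : G.PosSemidef := gram_psd M
  have hGa : ∀ i j, G i j = (Gz i j : ℝ) := fun i j => by simp [hGdef]
  have hdiag : ∀ i, G i i = 6 := by
    intro i
    rw [hGa, hGz, gram_diag hM]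
    norm_num
  -- three rows in the same class
  have hs : ∀ i, (2:ℤ) ∣ ∑ k, M i k := by
    intro i
    have h1 : (2:ℤ) ∣ ∑ k, (1 + M i k) := by
      refine Finset.dvd_sum fun k _ => ?_
      rcases hM i k with h | h <;> rw [h] <;> norm_num
    have h2 : ∑ k, (1 + M i k) = 6 + ∑ k, M i k := by
      rw [Finset.sum_add_distrib]
      simp
    rw [h2] at h1
    omega
  obtain ⟨i, j, l, hij, hil, hjl, c1, c2⟩ : ∃ i j l : Fin 6, i ≠ j ∧ i ≠ l ∧ j ≠ l ∧
      (∑ k, M i k) % 4 = (∑ k, M j k) % 4 ∧ (∑ k, M i k) % 4 = (∑ k, M l k) % 4 := by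
    have hpig := Finset.exists_lt_card_fiber_of_mul_lt_card_of_maps_to
      (s := (Finset.univ : Finset (Fin 6))) (t := ({0, 2} : Finset ℤ))
      (f := fun i => (∑ k, M i k) % 4) (n := 2) (by
        intro i _
        have := hs i
        simp only [Finset.mem_insert, Finset.mem_singleton]
        omega) (by simp)
    obtain ⟨y, -, hy⟩ := hpig
    rw [Finset.two_lt_card] at hy
    obtain ⟨i, hi, j, hj, l, hl, h1, h2, h3⟩ := hy
    simp only [Finset.mem_filter, Finset.mem_univ, true_and] at hi hj hl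
    exact ⟨i, j, l, h1, h2, h3, hi.trans hj.symm, hi.trans hl.symm⟩
  have hmod : ∀ a b : Fin 6, (∑ k, M a k) % 4 = (∑ k, M b k) % 4 →
      Gz a b ∈ ({-6,-2,2,6} : Finset ℤ) := by
    intro a b hab
    have h1 := gram_mod hM a b
    have h2 := gram_abs hM a b
    have h3 := hs a
    rw [← hGz] at h1 h2
    push_cast at h1 h2
    simp only [Finset.mem_insert, Finset.mem_singleton]
    omega
  let f : Fin 3 → Fin 6 := ![i, j, l]
  have hf : Function.Injective f := by
    intro x y hxy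
    fin_cases x <;> fin_cases y <;> simp [f, hij, hil, hjl, hij.symm, hil.symm, hjl.symm] at hxy ⊢
  obtain ⟨g, -, -, hle⟩ := fischer (k := 3) (l := 3) (by norm_num) hG f hf
  have h1 : (G.submatrix f f).det ≤ 160 := by
    rw [Matrix.det_fin_three]
    simp only [Matrix.submatrix_apply, f, Matrix.cons_val_zero, Matrix.cons_val_one,
      Matrix.cons_val_two, Matrix.head_cons, Matrix.tail_cons]
    simp only [hdiag]
    rw [hGa, hGa, hGa, hGa, hGa, hGa]
    rw [hGz, gram_symm M j i, gram_symm M l i, gram_symm M l j, ← hGz]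
    have h3 := det_three_six (Gz i j) (hmod i j c1) (Gz i l) (hmod i l c2) (Gz j l)
      (hmod j l (c1.symm.trans c2))
    have h4 : ((6 * 6 * 6 - 6 * Gz j l * Gz j l - Gz i j * Gz i j * 6 + Gz i j * Gz j l * Gz i l +
      Gz i l * Gz i j * Gz j l - Gz i l * 6 * Gz i l : ℤ) : ℝ) ≤ 160 := by exact_mod_cast h3
    push_cast at h4
    linarith
  have h2 : (G.submatrix g g).det ≤ 216 := by
    have := det_sub_le hG (c := 6) (fun i => (hdiag i).le) g
    norm_num at this ⊢
    linarith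
  have h20 : 0 ≤ (G.submatrix g g).det := (hG.submatrix g).det_nonneg
  have h3 : (M.det : ℝ) ^ 2 ≤ 34560 := by
    rw [det_sq_gram]
    calc G.det ≤ (G.submatrix f f).det * (G.submatrix g g).det := hle
      _ ≤ 160 * (G.submatrix g g).det := mul_le_mul_of_nonneg_right h1 h20
      _ ≤ 160 * 216 := by linarith
      _ = 34560 := by norm_num
  rw [← sq_abs, hdet, hk] at h3
  rw [hk]
  have h4 : k < 6 := by
    by_contra hcon
    push Not at hcon
    have h5 : (6:ℝ) ≤ k := by exact_mod_cast hcon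
    have h6 : (192:ℝ) ≤ 2 ^ 5 * k := by linarith
    have h7 : (192:ℝ) ^ 2 ≤ (2 ^ 5 * (k:ℝ)) ^ 2 := pow_le_pow_left₀ (by norm_num) h6 2
    norm_num at h7
    linarith
  have h5 : k ≤ 5 := by omega
  exact_mod_cast h5

end Pool.Agent.H43.Cube
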