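import Mathlib
import Pool.Agent.H43.Cube.VFive

/-!
# Maximal determinants of order six
-/

set_option autoImplicit false

namespace Pool.Agent.H43.Cube

open Finset Matrix

/-- the combinatorial situation: a psd integer matrix of order seven with diagonal `7` and all
off-diagonal entries in `{-5,-1,3,7}` -/
lemma det_seven (Gz : Matrix (Fin 7) (Fin 7) ℤ)
    (hG : ((Int.castRingHom ℝ).mapMatrix Gz).PosSemidef)
    (hd : ∀ i, Gz i i = 7) (hs : ∀ i j, Gz i j = Gz j i)
    (ho : ∀ i j, Gz i j = -5 ∨ Gz i j = -1 ∨ Gz i j = 3 ∨ Gz i j = 7) :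
    ((Int.castRingHom ℝ).mapMatrix Gz).det ≤ 491520 := by
  classical
  set G := (Int.castRingHom ℝ).mapMatrix Gz with hGdef
  have hsub : ∀ (k : ℕ) (f : Fin k → Fin 7), (G.submatrix f f).det = ((Gz.submatrix f f).det : ℝ) := by
    intro k f
    have : G.submatrix f f = (Int.castRingHom ℝ).mapMatrix (Gz.submatrix f f) := by
      ext i j
      simp [hGdef]
    rw [this, ← RingHom.map_det]
    simp
  have hdiag : ∀ i, G i i ≤ 7 := by
    intro i
    simp [hGdef, hd]
  have hnn : ∀ (k : ℕ) (f : Fin k → Fin 7), 0 ≤ (G.submatrix f f).det :=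
    fun k f => (hG.submatrix f).det_nonneg
  -- two by two blocks
  have h2blk : ∀ a b : Fin 7, (Gz.submatrix ![a, b] ![a, b]).det = 49 - Gz a b * Gz a b := by
    intro a b
    rw [Matrix.det_fin_two]
    simp [hd, hs b a]
  have h3blk : ∀ a b c : Fin 7, (Gz.submatrix ![a, b, c] ![a, b, c]).det =
      343 - 7 * (Gz a b * Gz a b + Gz a c * Gz a c + Gz b c * Gz b c) +
        2 * (Gz a b * Gz a c * Gz b c) := by
    intro a b c
    rw [Matrix.det_fin_three]
    simp [hd, hs b a, hs c a, hs c b]
    ring
  by_cases hbad : ∃ i j, i ≠ j ∧ (Gz i j = -5 ∨ Gz i j = 7)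
  · obtain ⟨i, j, hij, hv⟩ := hbad
    have hf : Function.Injective (![i, j] : Fin 2 → Fin 7) := by
      intro x y hxy
      fin_cases x <;> fin_cases y <;> simp [hij, hij.symm] at hxy ⊢
    obtain ⟨g, -, -, hle⟩ := fischer (k := 2) (l := 5) (by norm_num) hG _ hf
    have h1 : (G.submatrix ![i, j] ![i, j]).det ≤ 24 := by
      rw [hsub, h2blk]
      rcases hv with h | h <;> rw [h] <;> norm_num
    have h2 := det_sub_le hG hdiag g
    calc G.det ≤ _ := hle
      _ ≤ 24 * (G.submatrix g g).det := mul_le_mul_of_nonneg_right h1 (hnn _ _)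
      _ ≤ 24 * 7 ^ 5 := by linarith
      _ ≤ 491520 := by norm_num
  push Not at hbad
  have ho' : ∀ i j, i ≠ j → Gz i j = -1 ∨ Gz i j = 3 := by
    intro i j hij
    obtain ⟨h1, h2⟩ := hbad i j hij
    rcases ho i j with h | h | h | h
    · exact absurd h h1
    · exact Or.inl h
    · exact Or.inr h
    · exact absurd h h2
  by_cases hadj : ∃ i j k, i ≠ j ∧ i ≠ k ∧ j ≠ k ∧ Gz i j = 3 ∧ Gz i k = 3
  · obtain ⟨i, j, k, hij, hik, hjk, h3, h3'⟩ := hadj
    have hf : Function.Injective (![i, j, k] : Fin 3 → Fin 7) := by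
      intro x y hxy
      fin_cases x <;> fin_cases y <;>
        simp [hij, hij.symm, hik, hik.symm, hjk, hjk.symm] at hxy ⊢
    obtain ⟨g, hg, -, hle⟩ := fischer (k := 3) (l := 4) (by norm_num) hG _ hf
    have h1 : (G.submatrix ![i, j, k] ![i, j, k]).det ≤ 208 := by
      rw [hsub, h3blk, h3, h3']
      rcases ho' j k hjk with h | h <;> rw [h] <;> norm_num
    have h2 : (G.submatrix g g).det ≤ 2304 := by
      obtain ⟨g', hg', -, hle'⟩ := fischer (k := 2) (l := 2) (by norm_num) (hG.submatrix g)
        ![0, 1] (by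
          intro x y hxy
          fin_cases x <;> fin_cases y <;> simp at hxy ⊢)
      have key : ∀ q : Fin 2 → Fin 4, Function.Injective q →
          ((G.submatrix g g).submatrix q q).det ≤ 48 := by
        intro q hq
        rw [Matrix.submatrix_submatrix, hsub]
        have h5 : (g ∘ q) = ![g (q 0), g (q 1)] := by
          funext x
          fin_cases x <;> simp
        rw [h5, h2blk]
        have h6 : g (q 0) ≠ g (q 1) := fun h => by
          have := hq (hg h)
          simp at this
        rcases ho' _ _ h6 with h | h <;> rw [h] <;> norm_num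
      have hk1 := key ![0, 1] (by
          intro x y hxy
          fin_cases x <;> fin_cases y <;> simp at hxy ⊢)
      have hk2 := key g' hg'
      have hk3 : 0 ≤ ((G.submatrix g g).submatrix g' g').det :=
        ((hG.submatrix g).submatrix g').det_nonneg
      calc (G.submatrix g g).det ≤ _ := hle'
        _ ≤ 48 * ((G.submatrix g g).submatrix g' g').det := mul_le_mul_of_nonneg_right hk1 hk3
        _ ≤ 48 * 48 := by linarith
        _ = 2304 := by norm_num
    calc G.det ≤ _ := hle
      _ ≤ 208 * (G.submatrix g g).det := mul_le_mul_of_nonneg_right h1 (hnn _ _)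
      _ ≤ 208 * 2304 := by linarith
      _ ≤ 491520 := by norm_num
  push Not at hadj
  have hadj' : ∀ i j k, i ≠ j → i ≠ k → j ≠ k → Gz i j = 3 → Gz i k = -1 := by
    intro i j k h1 h2 h3 h4
    rcases ho' i k h2 with h | h
    · exact h
    · exact absurd h (hadj i j k h1 h2 h3 h4)
  by_cases htwo : ∃ i j k l, i ≠ j ∧ i ≠ k ∧ i ≠ l ∧ j ≠ k ∧ j ≠ l ∧ k ≠ l ∧
      Gz i j = 3 ∧ Gz k l = 3
  · obtain ⟨i, j, k, l, hij, hik, hil, hjk, hjl, hkl, h3, h3'⟩ := htwo
    have hf : Function.Injective (![i, j, k, l] : Fin 4 → Fin 7) := by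
      intro x y hxy
      fin_cases x <;> fin_cases y <;>
        simp [hij, hij.symm, hik, hik.symm, hjk, hjk.symm, hil, hil.symm, hjl, hjl.symm, hkl,
          hkl.symm] at hxy ⊢
    obtain ⟨g, hg, -, hle⟩ := fischer (k := 4) (l := 3) (by norm_num) hG _ hf
    have h1 : (G.submatrix ![i, j, k, l] ![i, j, k, l]).det = 1536 := by
      rw [hsub]
      have e1 : Gz i k = -1 := hadj' i j k hij hik hjk h3
      have e2 : Gz i l = -1 := hadj' i j l hij hil hjl h3
      have e3 : Gz j k = -1 := hadj' j i k hij.symm hjk hik (by rw [hs]; exact h3)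
      have e4 : Gz j l = -1 := hadj' j i l hij.symm hjl hil (by rw [hs]; exact h3)
      have : Gz.submatrix ![i, j, k, l] ![i, j, k, l] =
          Matrix.of ![![7,3,-1,-1],![3,7,-1,-1],![-1,-1,7,3],![-1,-1,3,7]] := by
        ext x y
        fin_cases x <;> fin_cases y <;>
          simp [hd, h3, h3', e1, e2, e3, e4, hs j i, hs k i, hs l i, hs k j, hs l j, hs l k]
      rw [this]
      have : (Matrix.of ![![7,3,-1,-1],![3,7,-1,-1],![-1,-1,7,3],![-1,-1,3,7]] :
        Matrix (Fin 4) (Fin 4) ℤ).det = 1536 := by decide +kernel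
      rw [this]
      norm_num
    have h2 : (G.submatrix g g).det ≤ 320 := by
      have h5 : g = ![g 0, g 1, g 2] := by
        funext x
        fin_cases x <;> simp
      rw [hsub, h5, h3blk]
      have n1 : g 0 ≠ g 1 := fun h => by simpa using hg h
      have n2 : g 0 ≠ g 2 := fun h => by simpa using hg h
      have n3 : g 1 ≠ g 2 := fun h => by simpa using hg h
      rcases ho' _ _ n1 with h | h <;> rcases ho' _ _ n2 with h' | h' <;>
        rcases ho' _ _ n3 with h'' | h'' <;> rw [h, h', h''] <;> norm_num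
    calc G.det ≤ _ := hle
      _ ≤ 1536 * 320 := by
        rw [h1]
        linarith
      _ ≤ 491520 := by norm_num
  push Not at htwo
  by_cases hone : ∃ i j, i ≠ j ∧ Gz i j = 3
  · obtain ⟨i, j, hij, h3⟩ := hone
    have hf : Function.Injective (![i, j] : Fin 2 → Fin 7) := by
      intro x y hxy
      fin_cases x <;> fin_cases y <;> simp [hij, hij.symm] at hxy ⊢
    obtain ⟨g, hg, hfg, hle⟩ := fischer (k := 2) (l := 5) (by norm_num) hG _ hf
    have h1 : (G.submatrix ![i, j] ![i, j]).det = 40 := by
      rw [hsub, h2blk, h3]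
      norm_num
    have h2 : (G.submatrix g g).det = 12288 := by
      rw [hsub]
      have : Gz.submatrix g g = Matrix.of (fun x y => if x = y then 7 else -1) := by
        ext x y
        simp only [Matrix.submatrix_apply, Matrix.of_apply]
        split_ifs with hxy
        · rw [hxy, hd]
        · have hne : g x ≠ g y := fun h => hxy (hg h)
          rcases ho' _ _ hne with h | h
          · exact h
          · have a1 := hfg 0 x
            have a2 := hfg 0 y
            have a3 := hfg 1 x
            have a4 := hfg 1 y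
            simp only [Matrix.cons_val_zero, Matrix.cons_val_one] at a1 a2 a3 a4
            exact absurd h (htwo i j (g x) (g y) hij a1 a2 a3 a4 hne h3)
      rw [this]
      have : (Matrix.of (fun i j => if i = j then 7 else -1) :
        Matrix (Fin 5) (Fin 5) ℤ).det = 12288 := by decide +kernel
      rw [this]
      norm_num
    calc G.det ≤ _ := hle
      _ ≤ 491520 := by
        rw [h1, h2]
        norm_num
  push Not at hone
  -- all off-diagonal entries are -1
  obtain ⟨g, hg, hfg, hle⟩ := fischer (k := 1) (l := 6) (by norm_num) hG ![0] (by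
    intro x y _
    exact Subsingleton.elim _ _)
  have h1 := det_sub_le hG hdiag (k := 1) ![0]
  have h2 : (G.submatrix g g).det = 65536 := by
    rw [hsub]
    have : Gz.submatrix g g = Matrix.of (fun x y => if x = y then 7 else -1) := by
      ext x y
      simp only [Matrix.submatrix_apply, Matrix.of_apply]
      split_ifs with hxy
      · rw [hxy, hd]
      · have hne : g x ≠ g y := fun h => hxy (hg h)
        rcases ho' _ _ hne with h | h
        · exact h
        · exact absurd h (hone _ _ hne)
    rw [this]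
    have : (Matrix.of (fun i j => if i = j then 7 else -1) :
      Matrix (Fin 6) (Fin 6) ℤ).det = 65536 := by decide +kernel
    rw [this]
    norm_num
  calc G.det ≤ _ := hle
    _ ≤ 491520 := by
      rw [h2]
      linarith

theorem maxDet_six : maxDet 6 ≤ 10 := by
  classical
  apply maxDet_le
  intro A hA
  obtain ⟨k, hk⟩ := abs_det_nat A hA
  obtain ⟨M', hM', hdet'⟩ : ∃ M : Matrix (Fin 7) (Fin 7) ℤ, (∀ i j, M i j = 1 ∨ M i j = -1) ∧
      |(M.det : ℝ)| = 2 ^ 6 * |A.det| := to_pm A hA
  have hs' : ∀ i, (2:ℤ) ∣ 7 + ∑ k, M' i k := by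
    intro i
    have h1 : (2:ℤ) ∣ ∑ k, (1 + M' i k) := by
      refine Finset.dvd_sum fun k _ => ?_
      rcases hM' i k with h | h <;> rw [h] <;> norm_num
    have h2 : ∑ k, (1 + M' i k) = 7 + ∑ k, M' i k := by
      rw [Finset.sum_add_distrib]
      simp
    rwa [h2] at h1
  -- normalise the rows
  obtain ⟨M, hM, hdet, hs⟩ : ∃ M : Matrix (Fin 7) (Fin 7) ℤ, (∀ i j, M i j = 1 ∨ M i j = -1) ∧
      |(M.det : ℝ)| = 2 ^ 6 * |A.det| ∧ ∀ i, (∑ k, M i k) % 4 = 3 := by
    let v : Fin 7 → ℤ := fun i => if (∑ k, M' i k) % 4 = 3 then 1 else -1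
    have hv : ∀ i, v i = 1 ∨ v i = -1 := by
      intro i
      simp only [v]
      split_ifs <;> simp
    refine ⟨Matrix.of fun i j => v i * M' i j, ?_, ?_, ?_⟩
    · intro i j
      simp only [Matrix.of_apply]
      rcases hv i with h | h <;> rcases hM' i j with h' | h' <;> rw [h, h'] <;> norm_num
    · rw [Matrix.det_mul_column, ← hdet', Int.cast_mul, abs_mul]
      have h1 : |((∏ i, v i : ℤ) : ℝ)| = 1 := by
        rw [Int.cast_prod, Finset.abs_prod]
        refine Finset.prod_eq_one fun i _ => ?_
        rcases hv i with h | h <;> rw [h] <;> norm_num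
      rw [h1, one_mul]
    · intro i
      simp only [Matrix.of_apply]
      rw [← Finset.mul_sum]
      have h1 := hs' i
      simp only [v]
      split_ifs with h
      · rw [one_mul]
        exact h
      · omega
  have h1 : (M.det : ℝ) ^ 2 ≤ 491520 := by
    rw [det_sq_gram]
    apply det_seven _ (gram_psd M)
    · intro i
      rw [gram_diag hM]
      norm_num
    · exact gram_symm M
    · intro i j
      have h1 := gram_mod hM i j
      have h2 := gram_abs hM i j
      have h3 := hs i
      have h4 := hs j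
      push_cast at h1 h2
      omega
  rw [← sq_abs, hdet, hk] at h1
  rw [hk]
  have h4 : k < 11 := by
    by_contra hcon
    push Not at hcon
    have h5 : (11:ℝ) ≤ k := by exact_mod_cast hcon
    have h6 : (704:ℝ) ≤ 2 ^ 6 * k := by linarith
    have h7 : (704:ℝ) ^ 2 ≤ (2 ^ 6 * (k:ℝ)) ^ 2 := pow_le_pow_left₀ (by norm_num) h6 2
    norm_num at h7
    linarith
  have h5 : k ≤ 10 := by omega
  exact_mod_cast h5

end Pool.Agent.H43.Cube
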