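import Mathlib
import Pool.Agent.H43.Cube.VSix

/-!
# Barba type bounds
-/

set_option autoImplicit false

namespace Pool.Agent.H43.Cube

open Finset Matrix

/-- one step in Barba's inequality -/
lemma barba_step {α : Type} [Fintype α] [DecidableEq α] {A : Matrix α α ℝ}
    {v : Matrix α (Fin 1) ℝ} {w : Matrix (Fin 1) (Fin 1) ℝ}
    (hG : (Matrix.fromBlocks A v vᴴ w).PosSemidef) {n c : ℝ} (hc : 0 < c) (hcn : c ≤ n)
    (hA : ∀ a, A a a ≤ n) (hw : w 0 0 ≤ n) (hv : ∀ a, c ≤ |v a 0|) :
    (Matrix.fromBlocks A v vᴴ w).det ≤ c * (n - c) ^ Fintype.card α + (n - c) * A.det := by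
  classical
  have hAp : A.PosSemidef := by
    have := hG.submatrix (Sum.inl : α → α ⊕ Fin 1)
    exact this
  have hwp : w.PosSemidef := by
    have := hG.submatrix (Sum.inr : Fin 1 → α ⊕ Fin 1)
    exact this
  have h0 : 0 ≤ c * (n - c) ^ Fintype.card α :=
    mul_nonneg hc.le (pow_nonneg (by linarith) _)
  by_cases hdet : A.det = 0
  · -- singular case
    have h1 := fischer_sum hG
    have h2 : (Matrix.fromBlocks A v vᴴ w).toBlocks₁₁ = A := Matrix.toBlocks_fromBlocks₁₁ _ _ _ _
    rw [h2, hdet, zero_mul] at h1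
    rw [hdet, mul_zero, add_zero]
    exact h1.trans h0
  have hPA : A.PosDef := hAp.posDef_iff_det_ne_zero.2 hdet
  have hAu : IsUnit A.det := isUnit_iff_ne_zero.2 hdet
  let _ : Invertible A := Matrix.invertibleOfIsUnitDet A hAu
  have hSchur : ∀ u : Matrix (Fin 1) (Fin 1) ℝ, (Matrix.fromBlocks A v vᴴ u).det =
      A.det * (u 0 0 - (vᴴ * A⁻¹ * v) 0 0) := by
    intro u
    rw [Matrix.det_fromBlocks₁₁, Matrix.invOf_eq_nonsing_inv]
    congr 1
    rw [Matrix.det_fin_one]
    simp
  set u : Matrix (Fin 1) (Fin 1) ℝ := Matrix.of fun _ _ => c with hu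
  have hu0 : u 0 0 = c := rfl
  have hud : u = c • (1 : Matrix (Fin 1) (Fin 1) ℝ) := by
    ext i j
    have hi := Subsingleton.elim i j
    subst hi
    simp [hu]
  have huP : u.PosDef := by
    rw [hud]
    exact Matrix.PosDef.smul Matrix.PosDef.one hc
  have hAdet : 0 < A.det := hPA.det_pos
  have key : (Matrix.fromBlocks A v vᴴ u).det ≤ c * (n - c) ^ Fintype.card α := by
    by_cases hneg : u 0 0 - (vᴴ * A⁻¹ * v) 0 0 < 0
    · rw [hSchur]
      exact (mul_nonpos_of_nonneg_of_nonpos hAdet.le hneg.le).trans h0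
    push Not at hneg
    have h1 : (u - vᴴ * A⁻¹ * v).PosSemidef := by
      have h2 : u - vᴴ * A⁻¹ * v = (u 0 0 - (vᴴ * A⁻¹ * v) 0 0) •
          (1 : Matrix (Fin 1) (Fin 1) ℝ) := by
        ext i j
        have hi := Subsingleton.elim i 0
        have hj := Subsingleton.elim j 0
        subst hi
        subst hj
        simp
      rw [h2]
      exact Matrix.PosSemidef.smul Matrix.PosSemidef.one hneg
    have h2 : (Matrix.fromBlocks A v vᴴ u).PosSemidef :=
      (Matrix.PosDef.fromBlocks₁₁ v u hPA).2 h1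
    have huu : IsUnit u.det := isUnit_iff_ne_zero.2 huP.det_pos.ne'
    let _ : Invertible u := Matrix.invertibleOfIsUnitDet u huu
    have h3 : (A - v * u⁻¹ * vᴴ).PosSemidef := (Matrix.PosDef.fromBlocks₂₂ A v huP).1 h2
    have huinv : u⁻¹ = c⁻¹ • (1 : Matrix (Fin 1) (Fin 1) ℝ) := by
      apply Matrix.inv_eq_right_inv
      rw [hud, Matrix.smul_mul, Matrix.mul_smul, Matrix.one_mul, smul_smul,
        mul_inv_cancel₀ hc.ne', one_smul]
    have h4 : (Matrix.fromBlocks A v vᴴ u).det = c * (A - v * u⁻¹ * vᴴ).det := by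
      rw [Matrix.det_fromBlocks₂₂, Matrix.invOf_eq_nonsing_inv, Matrix.det_fin_one, hu0]
    rw [h4]
    refine mul_le_mul_of_nonneg_left ?_ hc.le
    apply psd_det_le h3
    rw [Matrix.trace]
    calc ∑ i, (A - v * u⁻¹ * vᴴ).diag i ≤ ∑ i : α, (n - c) := by
          refine Finset.sum_le_sum fun i _ => ?_
          rw [Matrix.diag_apply, Matrix.sub_apply, huinv]
          have h5 : (v * (c⁻¹ • (1 : Matrix (Fin 1) (Fin 1) ℝ)) * vᴴ) i i = c⁻¹ * (v i 0) ^ 2 := by
            rw [Matrix.mul_smul, Matrix.mul_one, Matrix.smul_mul, Matrix.smul_apply,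
              Matrix.mul_apply]
            simp [pow_two]
          rw [h5]
          have h6 : c ^ 2 ≤ (v i 0) ^ 2 := by
            rw [← sq_abs (v i 0)]
            exact pow_le_pow_left₀ hc.le (hv i) 2
          have h7 : c ≤ c⁻¹ * (v i 0) ^ 2 := by
            rw [← div_eq_inv_mul, le_div_iff₀ hc]
            linarith
          linarith [hA i]
      _ = (n - c) * Fintype.card α := by
          rw [Finset.sum_const, Finset.card_univ, nsmul_eq_mul, mul_comm]
  have h5 : (Matrix.fromBlocks A v vᴴ w).det = (Matrix.fromBlocks A v vᴴ u).det +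
      (w 0 0 - c) * A.det := by
    rw [hSchur, hSchur, hu0]
    ring
  rw [h5]
  have h6 : (w 0 0 - c) * A.det ≤ (n - c) * A.det :=
    mul_le_mul_of_nonneg_right (by linarith) hAdet.le
  linarith

/-- one step in Barba's inequality, for principal submatrices -/
lemma barba_step' {N k : ℕ} {G : Matrix (Fin N) (Fin N) ℝ} (hG : G.PosSemidef) {n c : ℝ}
    (hc : 0 < c) (hcn : c ≤ n) (hd : ∀ i, G i i ≤ n) (ho : ∀ i j, i ≠ j → c ≤ |G i j|)
    (f : Fin k → Fin N) (x : Fin N) (hx : ∀ i, f i ≠ x) :
    (G.submatrix (Fin.snoc f x : Fin (k+1) → Fin N) (Fin.snoc f x : Fin (k+1) → Fin N)).det ≤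
      c * (n - c) ^ k + (n - c) * (G.submatrix f f).det := by
  classical
  let f' : Fin (k+1) → Fin N := Fin.snoc f x
  let e : Fin k ⊕ Fin 1 ≃ Fin (k+1) := finSumFinEquiv
  have h1 : (G.submatrix f' f').submatrix e e =
      Matrix.fromBlocks (G.submatrix f f) (G.submatrix f (fun _ : Fin 1 => x))
        (G.submatrix f (fun _ : Fin 1 => x))ᴴ
        (G.submatrix (fun _ : Fin 1 => x) (fun _ : Fin 1 => x)) := by
    have hfl : ∀ i : Fin k, f' (e (Sum.inl i)) = f i := by
      intro i
      have : e (Sum.inl i) = Fin.castSucc i := by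
        simp only [e, finSumFinEquiv_apply_left]
        rfl
      rw [this]
      simp [f']
    have hfr : ∀ i : Fin 1, f' (e (Sum.inr i)) = x := by
      intro i
      have : e (Sum.inr i) = Fin.last k := by
        have := Subsingleton.elim i 0
        subst this
        simp only [e, finSumFinEquiv_apply_right]
        rfl
      rw [this]
      simp [f']
    ext i j
    rcases i with i | i <;> rcases j with j | j
    · simp [hfl]
    · simp [hfl, hfr]
    · simp only [Matrix.submatrix_apply, hfl, hfr, Matrix.fromBlocks_apply₂₁,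
        Matrix.conjTranspose_apply, star_trivial]
      have := congrFun (congrFun hG.1 x) (f j)
      simpa using this.symm
    · simp [hfr]
  have h2 : (G.submatrix f' f').det = ((G.submatrix f' f').submatrix e e).det := by
    rw [Matrix.det_submatrix_equiv_self]
  rw [show (Fin.snoc f x : Fin (k+1) → Fin N) = f' from rfl, h2, h1]
  have h3 : (Matrix.fromBlocks (G.submatrix f f) (G.submatrix f (fun _ : Fin 1 => x))
        (G.submatrix f (fun _ : Fin 1 => x))ᴴ
        (G.submatrix (fun _ : Fin 1 => x) (fun _ : Fin 1 => x))).PosSemidef := by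
    rw [← h1]
    exact (hG.submatrix f').submatrix e
  have h4 := barba_step h3 hc hcn (fun a => hd _) (hd _) (fun a => ho _ _ (hx a))
  simpa using h4

/-- Barba's inequality, starting from a principal submatrix -/
lemma barba_ext {N : ℕ} {G : Matrix (Fin N) (Fin N) ℝ} (hG : G.PosSemidef) {n c : ℝ}
    (hc : 0 < c) (hcn : c ≤ n) (hd : ∀ i, G i i ≤ n) (ho : ∀ i j, i ≠ j → c ≤ |G i j|) :
    ∀ (l k : ℕ), k + l = N → 0 < k → ∀ f : Fin k → Fin N, Function.Injective f →
    G.det ≤ (n - c) ^ l * (G.submatrix f f).det + l * c * (n - c) ^ (N - 1) := by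
  intro l
  induction l with
  | zero =>
    intro k hk hk0 f hf
    have hkN : k = N := by omega
    subst hkN
    have hb : Function.Bijective f := Finite.injective_iff_bijective.1 hf
    have := Matrix.det_submatrix_equiv_self (Equiv.ofBijective f hb) G
    have h2 : (G.submatrix f f).det = G.det := this
    rw [h2]
    simp
  | succ l ih =>
    intro k hk hk0 f hf
    obtain ⟨x, hx⟩ : ∃ x, x ∉ Set.range f := by
      by_contra hcon
      push Not at hcon
      have h1 : Fintype.card (Fin N) ≤ Fintype.card (Fin k) :=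
        Fintype.card_le_of_surjective f hcon
      simp at h1
      omega
    have hx' : ∀ i, f i ≠ x := fun i h => hx ⟨i, h⟩
    have hinj : Function.Injective (Fin.snoc f x : Fin (k+1) → Fin N) :=
      Fin.snoc_injective_of_injective hf hx
    have h1 := ih (k+1) (by omega) (by omega) _ hinj
    have h2 := barba_step' hG hc hcn hd ho f x hx'
    have hnn : 0 ≤ (n - c) ^ l := pow_nonneg (by linarith) _
    have h3 : (n - c) ^ l * (G.submatrix (Fin.snoc f x : Fin (k+1) → Fin N)
        (Fin.snoc f x : Fin (k+1) → Fin N)).det ≤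
        (n - c) ^ l * (c * (n - c) ^ k + (n - c) * (G.submatrix f f).det) :=
      mul_le_mul_of_nonneg_left h2 hnn
    have h4 : (n - c) ^ l * (c * (n - c) ^ k) = c * (n - c) ^ (N - 1) := by
      have : N - 1 = l + k := by omega
      rw [this, pow_add]
      ring
    have h5 : (n - c) ^ (l+1) = (n - c) ^ l * (n - c) := pow_succ _ _
    push_cast
    rw [h5]
    nlinarith [h1, h3, h4]

/-- Barba's inequality for a principal submatrix -/
lemma barba_sub {N k : ℕ} {G : Matrix (Fin N) (Fin N) ℝ} (hG : G.PosSemidef) {n c : ℝ}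
    (hc : 0 < c) (hcn : c ≤ n) (hd : ∀ i, G i i ≤ n) (f : Fin (k+1) → Fin N)
    (ho : ∀ i j, i ≠ j → c ≤ |G (f i) (f j)|) :
    (G.submatrix f f).det ≤ (n - c) ^ k * (n + k * c) := by
  have h1 := barba_ext (hG.submatrix f) hc hcn (fun i => hd _) ho k 1 (by omega) (by omega)
    ![0] (by intro x y _; exact Subsingleton.elim _ _)
  have h2 : ((G.submatrix f f).submatrix ![0] ![0]).det ≤ n := by
    rw [Matrix.det_fin_one]
    exact hd _
  have hnn : 0 ≤ (n - c) ^ k := pow_nonneg (by linarith) _
  have h3 := mul_le_mul_of_nonneg_left h2 hnn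
  simp only [Nat.add_sub_cancel] at h1
  calc (G.submatrix f f).det ≤ _ := h1
    _ ≤ (n - c) ^ k * n + k * c * (n - c) ^ k := by linarith
    _ = _ := by ring

end Pool.Agent.H43.Cube
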