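import Mathlib
import Pool.Agent.H43.Cube.Cover

/-!
# The overlap of two adjacent unit corners
-/

set_option autoImplicit false

namespace Pool.Agent.H43.Cube

open MeasureTheory Set Finset

lemma vol_corner_ge : ∀ (d : ℕ) (c : ℝ), 0 ≤ c →
    ENNReal.ofReal (c ^ d / (d.factorial : ℝ)) ≤ volume (corner d c)
  | 0, c, hc => by
    have : corner 0 c = Set.univ := by
      ext a
      simp [corner, hc]
    rw [this]
    simp [volume_pi]
  | d+1, c, hc => by
    have h := (volume_preserving_piFinSuccAbove (fun _ : Fin (d+1) => ℝ) 0).symm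
    rw [← h.measure_preimage (measurableSet_corner _ _).nullMeasurableSet]
    have h2 : (volume : Measure (ℝ × (Fin d → ℝ))) = (volume : Measure ℝ).prod volume := rfl
    have h3 : MeasurableSet ((MeasurableEquiv.piFinSuccAbove (fun _ : Fin (d+1) => ℝ) 0).symm ⁻¹'
        corner (d+1) c) := (measurableSet_corner _ _).preimage (MeasurableEquiv.measurable _)
    rw [h2, Measure.prod_apply h3]
    have hcons : ∀ (t : ℝ) (a : Fin d → ℝ),
        (MeasurableEquiv.piFinSuccAbove (fun _ : Fin (d+1) => ℝ) 0).symm (t, a) =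
        (Fin.cons t a : Fin (d+1) → ℝ) := by
      intro t a
      simp [MeasurableEquiv.piFinSuccAbove]
      rfl
    have h4 : ∀ t : ℝ, 
        (Set.Icc 0 c).indicator (fun t => ENNReal.ofReal ((c - t) ^ d / (d.factorial : ℝ))) t ≤
        volume (Prod.mk t ⁻¹' ((MeasurableEquiv.piFinSuccAbove
        (fun _ : Fin (d+1) => ℝ) 0).symm ⁻¹' corner (d+1) c)) := by
      intro t
      by_cases ht : t ∈ Set.Icc 0 c
      · rw [indicator_of_mem ht]
        refine le_trans (vol_corner_ge d (c - t) (by linarith [ht.2])) (measure_mono ?_)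
        intro a ha
        rw [Set.mem_preimage, Set.mem_preimage, hcons]
        refine ⟨fun i => ?_, ?_⟩
        · refine Fin.cases ?_ (fun i => ?_) i
          · simpa using ht.1
          · simpa using ha.1 i
        · have := ha.2
          rw [Fin.sum_univ_succ]
          simp only [Fin.cons_zero, Fin.cons_succ]
          linarith
      · rw [indicator_of_notMem ht]
        exact bot_le
    refine le_trans ?_ (lintegral_mono h4)
    rw [lintegral_indicator measurableSet_Icc]
    have hd : ∀ t ∈ Set.Icc 0 c, HasDerivWithinAt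
        (fun t : ℝ => - ((c - t) ^ (d+1) / ((d+1).factorial : ℝ)))
        ((c - t) ^ d / (d.factorial : ℝ)) (Set.Icc 0 c) t := by
      intro t _
      have e1 : HasDerivAt (fun t : ℝ => c - t) (-1) t := by
        simpa using (hasDerivAt_id t).const_sub c
      have e2 := ((e1.pow (d+1)).div_const ((d+1).factorial : ℝ)).neg
      have e3 : -((((d+1 : ℕ) : ℝ) * (c - t) ^ (d+1-1) * -1) / ((d+1).factorial : ℝ)) =
          (c - t) ^ d / (d.factorial : ℝ) := by
        rw [Nat.factorial_succ]
        push_cast
        have : (0:ℝ) < (d.factorial : ℝ) := by positivity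
        have : (0:ℝ) < (d:ℝ) + 1 := by positivity
        field_simp
      rw [← e3]
      exact e2.hasDerivWithinAt
    have hm : MonotoneOn (fun t : ℝ => - ((c - t) ^ (d+1) / ((d+1).factorial : ℝ)))
        (Set.Icc 0 c) := by
      intro a ha b hb hab
      simp only
      have h1 : (c - b) ^ (d+1) ≤ (c - a) ^ (d+1) :=
        pow_le_pow_left₀ (by linarith [hb.2]) (by linarith) _
      have h2 : (c - b) ^ (d+1) / ((d+1).factorial : ℝ) ≤ (c - a) ^ (d+1) /
        ((d+1).factorial : ℝ) := by gcongr
      linarith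
    rw [lintegral_deriv_eq_volume_image_of_monotoneOn measurableSet_Icc hd hm]
    have hsub : Set.Icc (-(c ^ (d+1) / ((d+1).factorial : ℝ))) 0 ⊆ 
        (fun t : ℝ => - ((c - t) ^ (d+1) / ((d+1).factorial : ℝ))) '' (Set.Icc 0 c) := by
      have hcont : ContinuousOn (fun t : ℝ => - ((c - t) ^ (d+1) / ((d+1).factorial : ℝ)))
        (Set.Icc 0 c) := fun t ht => (hd t ht).continuousWithinAt
      have := intermediate_value_Icc hc hcont
      simpa using this
    refine le_trans ?_ (measure_mono hsub)
    rw [Real.volume_Icc]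
    simp

/-- distance coordinates from the vertex `w` -/
def uu {d : ℕ} (w : Fin d → Bool) (x : Pt d) : Fin d → ℝ := fun j => if w j then 1 - x j else x j

lemma mem_hull_unitCorner {d : ℕ} {w : Fin d → Bool} {x : Pt d} (h0 : ∀ j, 0 ≤ uu w x j)
    (h1 : ∑ j, uu w x j ≤ 1) : x ∈ convexHull ℝ (unitCorner w : Set (Pt d)) := by
  have hx : x = (1 - ∑ j, uu w x j) • vtx w +
      ∑ j, uu w x j • Function.update (vtx w) j (bv (!w j)) := by
    funext i
    simp only [Pi.add_apply, Pi.smul_apply, smul_eq_mul, Finset.sum_apply]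
    have h2 : ∀ j, uu w x j * Function.update (vtx w) j (bv (!w j)) i =
        uu w x j * vtx w i + if j = i then uu w x i * (bv (!w i) - bv (w i)) else 0 := by
      intro j
      by_cases hj : j = i
      · subst hj
        rw [Function.update_self, if_pos rfl]
        simp only [vtx]
        ring
      · rw [Function.update_of_ne (Ne.symm hj), if_neg hj, add_zero]
    simp_rw [h2]
    rw [Finset.sum_add_distrib, ← Finset.sum_mul, Finset.sum_ite_eq' Finset.univ i,
      if_pos (Finset.mem_univ i)]
    simp only [uu, vtx, bv]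
    cases w i
    · simp
    · simp
      ring
  rw [hx]
  have h3 : (1 - ∑ j, uu w x j) • vtx w +
      ∑ j, uu w x j • Function.update (vtx w) j (bv (!w j)) =
      ∑ j : Option (Fin d), (Option.elim j (1 - ∑ j, uu w x j) (uu w x)) •
        (Option.elim j (vtx w) (fun j => Function.update (vtx w) j (bv (!w j)))) := by
    rw [Fintype.sum_option]
    rfl
  rw [h3]
  refine (convex_convexHull ℝ _).sum_mem ?_ ?_ ?_
  · rintro (_ | j) _
    · simp only [Option.elim]
      linarith
    · exact h0 j
  · rw [Fintype.sum_option]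
    simp only [Option.elim]
    ring
  · rintro (_ | j) _
    · exact subset_convexHull ℝ _ (Finset.mem_coe.2 (mem_unitCorner.2 (Or.inl rfl)))
    · exact subset_convexHull ℝ _ (Finset.mem_coe.2 (mem_unitCorner.2 (Or.inr ⟨j, rfl⟩)))

/-- the overlap of the unit corners at `w` and at its neighbour in direction `i` -/
def KK {d : ℕ} (w : Fin d → Bool) (i : Fin d) : Set (Pt d) :=
  {x | (∀ j, 0 ≤ uu w x j) ∧ ∑ j, uu w x j ≤ 2 * uu w x i ∧ ∑ j, uu w x j ≤ 1}

lemma uu_update {d : ℕ} {w : Fin d → Bool} {i : Fin d} (hw : w i = false) (x : Pt d) (j : Fin d) :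
    uu (Function.update w i true) x j = if j = i then 1 - uu w x i else uu w x j := by
  by_cases hj : j = i
  · subst hj
    simp [uu, hw]
  · simp [uu, hj]

lemma sum_uu_update {d : ℕ} {w : Fin d → Bool} {i : Fin d} (hw : w i = false) (x : Pt d) :
    ∑ j, uu (Function.update w i true) x j = ∑ j, uu w x j + 1 - 2 * uu w x i := by
  have h1 : ∀ j, uu (Function.update w i true) x j = uu w x j +
      if j = i then 1 - 2 * uu w x i else 0 := by
    intro j
    rw [uu_update hw]
    split_ifs with h
    · subst h; ring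
    · ring
  simp_rw [h1]
  rw [Finset.sum_add_distrib, Finset.sum_ite_eq' Finset.univ i, if_pos (Finset.mem_univ i)]
  ring

lemma KK_le_one {d : ℕ} {w : Fin d → Bool} {i : Fin d} {x : Pt d} (hx : x ∈ KK w i) (j : Fin d) :
    uu w x j ≤ 1 :=
  (Finset.single_le_sum (fun j _ => hx.1 j) (Finset.mem_univ j)).trans hx.2.2

lemma KK_cube {d : ℕ} {w : Fin d → Bool} {i : Fin d} : KK w i ⊆ Set.Icc (0 : Pt d) 1 := by
  intro x hx
  have h1 := KK_le_one hx
  constructor
  · intro j
    have := hx.1 j
    have := h1 j
    simp only [uu] at *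
    simp only [Pi.zero_apply]
    split_ifs at * <;> linarith
  · intro j
    have := hx.1 j
    have := h1 j
    simp only [uu] at *
    simp only [Pi.one_apply]
    split_ifs at * <;> linarith

lemma KK_sub_left {d : ℕ} {w : Fin d → Bool} {i : Fin d} :
    KK w i ⊆ convexHull ℝ (unitCorner w : Set (Pt d)) :=
  fun _ hx => mem_hull_unitCorner hx.1 hx.2.2

lemma KK_sub_right {d : ℕ} {w : Fin d → Bool} {i : Fin d} (hw : w i = false) :
    KK w i ⊆ convexHull ℝ (unitCorner (Function.update w i true) : Set (Pt d)) := by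
  intro x hx
  apply mem_hull_unitCorner
  · intro j
    rw [uu_update hw]
    split_ifs
    · have := KK_le_one hx i
      linarith
    · exact hx.1 j
  · rw [sum_uu_update hw]
    have := hx.2.1
    linarith

/-- moving a point in the interior of `KK` -/
lemma KK_interior {d : ℕ} {w : Fin d → Bool} {i : Fin d} {x : Pt d}
    (hx : x ∈ interior (KK w i)) : (∀ j, 0 < uu w x j) ∧ ∑ j, uu w x j < 2 * uu w x i ∧
      ∑ j, uu w x j < 1 := by
  rw [mem_interior_iff_mem_nhds, Metric.mem_nhds_iff] at hx
  obtain ⟨ε, hε, hb⟩ := hx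
  have key : ∀ (j : Fin d) (s : ℝ), |s| < ε → ∃ y ∈ KK w i, ∀ k, uu w y k =
      uu w x k + if k = j then s else 0 := by
    intro j s hs
    refine ⟨Function.update x j (x j + if w j then -s else s), hb ?_, ?_⟩
    · rw [Metric.mem_ball, dist_pi_lt_iff hε]
      intro k
      by_cases hk : k = j
      · subst hk
        rw [Function.update_self, Real.dist_eq]
        split_ifs
        · simpa using hs
        · simpa using hs
      · rw [Function.update_of_ne hk, dist_self]
        exact hε
    · intro k
      by_cases hk : k = j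
      · subst hk
        simp only [uu, Function.update_self]
        split_ifs <;> ring
      · simp [uu, hk]
  have hε2 : |(-(ε/2))| < ε := by
    rw [abs_neg, abs_of_pos (by linarith)]
    linarith
  have hε3 : |ε/2| < ε := by
    rw [abs_of_pos (by linarith)]
    linarith
  have hsum : ∀ (y : Pt d) (j : Fin d) (s : ℝ), (∀ k, uu w y k =
      uu w x k + if k = j then s else 0) → ∑ k, uu w y k = ∑ k, uu w x k + s := by
    intro y j s h
    simp_rw [h]
    rw [Finset.sum_add_distrib, Finset.sum_ite_eq' Finset.univ j, if_pos (Finset.mem_univ j)]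
  refine ⟨fun j => ?_, ?_, ?_⟩
  · obtain ⟨y, hy, h⟩ := key j _ hε2
    have h1 := hy.1 j
    rw [h j, if_pos rfl] at h1
    linarith
  · obtain ⟨y, hy, h⟩ := key i _ hε2
    have h1 := hy.2.1
    rw [hsum y i _ h, h i, if_pos rfl] at h1
    linarith
  · obtain ⟨y, hy, h⟩ := key i _ hε3
    have h1 := hy.2.2
    rw [hsum y i _ h] at h1
    linarith

/-- the interiors of the overlaps are pairwise disjoint -/
lemma KK_unique {d : ℕ} {w w' : Fin d → Bool} {i i' : Fin d} (hw : w i = false)
    (hw' : w' i' = false) {x : Pt d} (hx : x ∈ interior (KK w i))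
    (hx' : x ∈ interior (KK w' i')) : w = w' ∧ i = i' := by
  obtain ⟨h1, h2, h3⟩ := KK_interior hx
  obtain ⟨h1', h2', h3'⟩ := KK_interior hx'
  -- the smaller coordinates
  have half : ∀ (w : Fin d → Bool) (i : Fin d), (∀ j, 0 < uu w x j) →
      ∑ j, uu w x j < 2 * uu w x i → ∑ j, uu w x j < 1 → ∀ j, j ≠ i →
      uu w x j < 1/2 ∧ uu w x j < uu w x i ∧ uu w x j < 1 - uu w x i := by
    intro w i h1 h2 h3 j hj
    have h4 : uu w x i + uu w x j ≤ ∑ j, uu w x j := by
      have := Finset.add_le_sum (s := Finset.univ) (f := fun j => uu w x j)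
        (fun k _ => (h1 k).le) (Finset.mem_univ i) (Finset.mem_univ j) (Ne.symm hj)
      exact this
    refine ⟨by linarith, by linarith, by linarith⟩
  have hval : ∀ (w : Fin d → Bool) (j : Fin d), uu w x j = x j ∨ uu w x j = 1 - x j := by
    intro w j
    simp only [uu]
    split_ifs <;> simp
  have hii : i = i' := by
    by_contra hne
    obtain ⟨a1, a2, a3⟩ := half w i h1 h2 h3 i' (Ne.symm hne)
    obtain ⟨b1, b2, b3⟩ := half w' i' h1' h2' h3' i hne
    rcases hval w i with e1 | e1 <;> rcases hval w i' with e2 | e2 <;>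
      rcases hval w' i with e3 | e3 <;> rcases hval w' i' with e4 | e4 <;>
      simp only [e1, e2] at a1 a2 a3 <;> simp only [e3, e4] at b1 b2 b3 <;> linarith
  subst hii
  refine ⟨?_, rfl⟩
  funext j
  by_cases hj : j = i
  · subst hj
    rw [hw, hw']
  · have a1 := (half w i h1 h2 h3 j hj).1
    have b1 := (half w' i h1' h2' h3' j hj).1
    simp only [uu] at a1 b1
    cases hwj : w j <;> cases hwj' : w' j <;> rw [hwj] at a1 <;> rw [hwj'] at b1 <;>
      simp at a1 b1 ⊢ <;> linarith

end Pool.Agent.H43.Cube
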