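import Mathlib
import Pool.Agent.H43.Cube.Over

/-!
# Lower bounds for covers, taking into account the overlaps of adjacent corners
-/

set_option autoImplicit false

namespace Pool.Agent.H43.Cube

open MeasureTheory Set Finset

/-- determinant of the linear map used for the overlap -/
lemma det_over {n : ℕ} (σ : Fin (n+1) → ℝ) (hσ : ∀ j, σ j = 1 ∨ σ j = -1) (i : Fin (n+1)) :
    |(Matrix.of (fun r c : Fin (n+1) => σ r * (if r = i then (if c = i then (1:ℝ) else 1/2)
      else if r = c then 1/2 else 0))).det| = (1/2) ^ n := by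
  classical
  have h1 : (Matrix.of (fun r c : Fin (n+1) => σ r * (if r = i then (if c = i then (1:ℝ) else 1/2)
      else if r = c then 1/2 else 0))) = Matrix.diagonal σ *
      ((1 + (Matrix.replicateCol (Fin 1) (fun r : Fin (n+1) => if r = i then (1:ℝ) else 0)) *
        (Matrix.replicateRow (Fin 1) (fun c : Fin (n+1) => if c = i then (0:ℝ) else 1))) *
        Matrix.diagonal (fun c => if c = i then (1:ℝ) else 1/2)) := by
    ext r c
    rw [Matrix.diagonal_mul, Matrix.mul_diagonal]
    simp only [Matrix.of_apply, Matrix.add_apply, Matrix.mul_apply, Matrix.replicateCol_apply,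
      Matrix.replicateRow_apply, Finset.univ_unique, Finset.sum_singleton, Matrix.one_apply]
    by_cases hr : r = i
    · subst hr
      by_cases hc : c = r
      · subst hc
        simp
      · simp [hc, Ne.symm hc]
    · by_cases hc : c = i
      · subst hc
        simp [hr]
      · by_cases hrc : r = c
        · subst hrc
          simp [hr]
        · simp [hr, hrc]
  have h2 : (1 + (Matrix.replicateCol (Fin 1) (fun r : Fin (n+1) => if r = i then (1:ℝ) else 0)) *
        (Matrix.replicateRow (Fin 1) (fun c : Fin (n+1) => if c = i then (0:ℝ) else 1))).det = 1 := by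
    have h3 := Matrix.det_one_add_replicateCol_mul_replicateRow (ι := Fin 1)
      (fun r : Fin (n+1) => if r = i then (1:ℝ) else 0)
      (fun c : Fin (n+1) => if c = i then (0:ℝ) else 1)
    have h4 : (fun c : Fin (n+1) => if c = i then (0:ℝ) else 1) ⬝ᵥ
      (fun r : Fin (n+1) => if r = i then (1:ℝ) else 0) = 0 := by
      unfold dotProduct
      refine Finset.sum_eq_zero fun c _ => ?_
      change (if c = i then (0:ℝ) else 1) * (if c = i then (1:ℝ) else 0) = 0
      split_ifs <;> simp
    rw [h4, add_zero] at h3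
    exact h3
  rw [h1, Matrix.det_mul, Matrix.det_mul, h2, Matrix.det_diagonal, Matrix.det_diagonal, one_mul,
    abs_mul, Finset.abs_prod]
  have h5 : ∏ j, |σ j| = 1 := by
    refine Finset.prod_eq_one fun j _ => ?_
    rcases hσ j with h | h <;> rw [h] <;> norm_num
  have h6 : ∏ j, (if j = i then (1:ℝ) else 1/2) = (1/2) ^ n := by
    rw [← Finset.mul_prod_erase _ _ (Finset.mem_univ i), if_pos rfl, one_mul]
    rw [Finset.prod_congr rfl (g := fun _ => (1/2:ℝ)) (fun j hj => by
      rw [if_neg (Finset.ne_of_mem_erase hj)])]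
    rw [Finset.prod_const, Finset.card_erase_of_mem (Finset.mem_univ i), Finset.card_univ,
      Fintype.card_fin, Nat.add_sub_cancel]
  rw [h5, h6, one_mul, abs_of_nonneg (by positivity)]

lemma vol_KK {n : ℕ} (w : Fin (n+1) → Bool) (i : Fin (n+1)) :
    ENNReal.ofReal ((1/2) ^ n / ((n+1).factorial : ℝ)) ≤ volume (KK w i) := by
  classical
  let σ : Fin (n+1) → ℝ := fun j => if w j then -1 else 1
  have hσ : ∀ j, σ j = 1 ∨ σ j = -1 := by
    intro j
    simp only [σ]
    split_ifs <;> simp
  let M : Matrix (Fin (n+1)) (Fin (n+1)) ℝ := Matrix.of (fun r c : Fin (n+1) =>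
    σ r * (if r = i then (if c = i then (1:ℝ) else 1/2) else if r = c then 1/2 else 0))
  have hsub : (fun x => vtx w + x) '' ((Matrix.toLin' M) '' (corner (n+1) 1)) ⊆ KK w i := by
    rintro _ ⟨_, ⟨a, ha, rfl⟩, rfl⟩
    have hMi : (Matrix.toLin' M a) i = σ i * (a i / 2 + (∑ c, a c) / 2) := by
      simp only [Matrix.toLin'_apply, Matrix.mulVec, dotProduct, M, Matrix.of_apply, if_true]
      have h1 : ∀ c, σ i * (if c = i then (1:ℝ) else 1/2) * a c =
          σ i * (a c / 2 + if c = i then a i / 2 else 0) := by
        intro c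
        split_ifs with h
        · subst h; ring
        · ring
      simp_rw [h1]
      rw [← Finset.mul_sum, Finset.sum_add_distrib, Finset.sum_ite_eq' Finset.univ i,
        if_pos (Finset.mem_univ i), Finset.sum_div]
      ring
    have hMj : ∀ r, r ≠ i → (Matrix.toLin' M a) r = σ r * (a r / 2) := by
      intro r hr
      simp only [Matrix.toLin'_apply, Matrix.mulVec, dotProduct, M, Matrix.of_apply, if_neg hr]
      have h1 : ∀ c, σ r * (if r = c then (1/2:ℝ) else 0) * a c =
          if r = c then σ r * (a r / 2) else 0 := by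
        intro c
        split_ifs with h
        · subst h; ring
        · ring
      simp_rw [h1]
      rw [Finset.sum_ite_eq, if_pos (Finset.mem_univ r)]
    have hu : ∀ (y : Pt (n+1)) (r : Fin (n+1)) (s : ℝ), y r = σ r * s →
        uu w (vtx w + y) r = s := by
      intro y r s h
      simp only [uu, Pi.add_apply, h, vtx, bv, σ]
      cases w r
      · simp
      · simp
    have hui := hu _ i _ hMi
    have huj : ∀ r, r ≠ i → uu w (vtx w + Matrix.toLin' M a) r = a r / 2 :=
      fun r hr => hu _ r _ (hMj r hr)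
    have hall : ∀ r, uu w (vtx w + Matrix.toLin' M a) r =
        a r / 2 + if r = i then (∑ c, a c) / 2 else 0 := by
      intro r
      split_ifs with h
      · rw [h, hui]
      · rw [huj r h, add_zero]
    have hsum : ∑ r, uu w (vtx w + Matrix.toLin' M a) r = ∑ c, a c := by
      simp_rw [hall]
      rw [Finset.sum_add_distrib, Finset.sum_ite_eq' Finset.univ i, if_pos (Finset.mem_univ i),
        ← Finset.sum_div]
      ring
    have hs0 : 0 ≤ ∑ c, a c := Finset.sum_nonneg fun c _ => ha.1 c
    refine ⟨?_, ?_, ?_⟩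
    · intro j
      rw [hall]
      have := ha.1 j
      split_ifs <;> linarith
    · rw [hsum, hui]
      have := ha.1 i
      linarith
    · rw [hsum]
      exact ha.2
  refine le_trans ?_ (measure_mono hsub)
  rw [Set.image_add_left, measure_preimage_add, Measure.addHaar_image_linearMap,
    LinearMap.det_toLin', det_over σ hσ i]
  have h1 := vol_corner_ge (n+1) 1 zero_le_one
  rw [one_pow] at h1
  calc ENNReal.ofReal ((1/2) ^ n / ((n+1).factorial : ℝ))
      = ENNReal.ofReal ((1/2) ^ n) * ENNReal.ofReal (1 / ((n+1).factorial : ℝ)) := by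
        rw [← ENNReal.ofReal_mul (by positivity), mul_one_div]
    _ ≤ _ := by gcongr

lemma convex_KK {d : ℕ} (w : Fin d → Bool) (i : Fin d) : Convex ℝ (KK w i) := by
  intro x hx y hy a b ha hb hab
  have h : ∀ j, uu w (a • x + b • y) j = a * uu w x j + b * uu w y j := by
    intro j
    simp only [uu, Pi.add_apply, Pi.smul_apply, smul_eq_mul]
    have hb' : b = 1 - a := by linarith
    subst hb'
    split_ifs
    · ring
    · ring
  have hs : ∑ j, uu w (a • x + b • y) j = a * ∑ j, uu w x j + b * ∑ j, uu w y j := by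
    simp_rw [h]
    rw [Finset.sum_add_distrib, Finset.mul_sum, Finset.mul_sum]
  refine ⟨fun j => ?_, ?_, ?_⟩
  · rw [h]
    have := hx.1 j
    have := hy.1 j
    positivity
  · rw [hs, h]
    have h1 := mul_le_mul_of_nonneg_left hx.2.1 ha
    have h2 := mul_le_mul_of_nonneg_left hy.2.1 hb
    linarith
  · rw [hs]
    have h1 := mul_le_mul_of_nonneg_left hx.2.2 ha
    have h2 := mul_le_mul_of_nonneg_left hy.2.2 hb
    linarith

lemma vol_interior_KK {n : ℕ} (w : Fin (n+1) → Bool) (i : Fin (n+1)) :
    ENNReal.ofReal ((1/2) ^ n / ((n+1).factorial : ℝ)) ≤ volume (interior (KK w i)) := by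
  refine (vol_KK w i).trans ?_
  have h1 : KK w i ⊆ interior (KK w i) ∪ frontier (KK w i) := by
    intro x hx
    by_cases h : x ∈ interior (KK w i)
    · exact Or.inl h
    · exact Or.inr ⟨subset_closure hx, h⟩
  calc volume (KK w i) ≤ volume (interior (KK w i)) + volume (frontier (KK w i)) :=
        (measure_mono h1).trans (measure_union_le _ _)
    _ = volume (interior (KK w i)) := by
        rw [(convex_KK w i).addHaar_frontier volume, add_zero]

open scoped Classical in
/-- adjacent pairs in a set of vertices of the cube -/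
noncomputable def pairsOf {d : ℕ} (W : Finset (Fin d → Bool)) : Finset ((Fin d → Bool) × Fin d) :=
  (W ×ˢ Finset.univ).filter fun p => p.1 p.2 = false ∧ Function.update p.1 p.2 true ∈ W

lemma mem_pairsOf {d : ℕ} {W : Finset (Fin d → Bool)} {p : (Fin d → Bool) × Fin d} :
    p ∈ pairsOf W ↔ p.1 ∈ W ∧ p.1 p.2 = false ∧ Function.update p.1 p.2 true ∈ W := by
  simp [pairsOf]

/-- the base inequality for volumes -/
lemma vol_excess {n : ℕ} {κ : Type} (T : Finset κ) (s : κ → Finset (Pt (n+1)))
    (hg : ∀ k ∈ T, Good (n+1) (s k))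
    (hc : Set.Icc (0 : Pt (n+1)) 1 ⊆ ⋃ k ∈ T, convexHull ℝ (s k : Set (Pt (n+1))))
    (W : Finset (Fin (n+1) → Bool)) (c : (Fin (n+1) → Bool) → κ)
    (hW : ∀ w ∈ W, c w ∈ T ∧ s (c w) = unitCorner w) (hinj : ∀ w ∈ W, ∀ w' ∈ W, c w = c w' → w = w') :
    ((n+1).factorial : ℝ) + (pairsOf W).card * (1/2) ^ n ≤ ∑ k ∈ T, nv (s k) := by
  classical
  have hmeas : ∀ k, MeasurableSet (convexHull ℝ (s k : Set (Pt (n+1)))) := fun k =>
    (Set.Finite.isClosed_convexHull (𝕜 := ℝ) (Finset.finite_toSet _)).measurableSet
  -- pointwise inequality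
  have hpt : ∀ x : Pt (n+1), (Set.Icc (0 : Pt (n+1)) 1).indicator (fun _ => (1:ENNReal)) x +
      ∑ p ∈ pairsOf W, (interior (KK p.1 p.2)).indicator (fun _ => (1:ENNReal)) x ≤
      ∑ k ∈ T, (convexHull ℝ (s k : Set (Pt (n+1)))).indicator (fun _ => (1:ENNReal)) x := by
    intro x
    by_cases hx : ∃ p ∈ pairsOf W, x ∈ interior (KK p.1 p.2)
    · obtain ⟨p, hp, hxp⟩ := hx
      obtain ⟨hp1, hp2, hp3⟩ := mem_pairsOf.1 hp
      have h1 : ∑ p ∈ pairsOf W, (interior (KK p.1 p.2)).indicator (fun _ => (1:ENNReal)) x = 1 := by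
        rw [Finset.sum_eq_single p]
        · rw [indicator_of_mem hxp]
        · intro q hq hqp
          rw [indicator_of_notMem]
          intro hxq
          obtain ⟨hq1, hq2, hq3⟩ := mem_pairsOf.1 hq
          obtain ⟨e1, e2⟩ := KK_unique hq2 hp2 hxq hxp
          exact hqp (Prod.ext e1 e2)
        · intro h; exact absurd hp h
      have hxK : x ∈ KK p.1 p.2 := interior_subset hxp
      rw [h1, indicator_of_mem (KK_cube hxK)]
      have hne : c p.1 ≠ c (Function.update p.1 p.2 true) := by
        intro h
        have := hinj _ hp1 _ hp3 h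
        have h2 := congrFun this p.2
        rw [hp2, Function.update_self] at h2
        exact Bool.false_ne_true h2
      have h2 : ∑ k ∈ {c p.1, c (Function.update p.1 p.2 true)},
          (convexHull ℝ (s k : Set (Pt (n+1)))).indicator (fun _ => (1:ENNReal)) x = 1 + 1 := by
        rw [Finset.sum_pair hne, indicator_of_mem, indicator_of_mem]
        · rw [(hW _ hp3).2]
          exact KK_sub_right hp2 hxK
        · rw [(hW _ hp1).2]
          exact KK_sub_left hxK
      rw [← h2]
      refine Finset.sum_le_sum_of_subset ?_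
      intro k hk
      rcases Finset.mem_insert.1 hk with h | h
      · rw [h]; exact (hW _ hp1).1
      · rw [Finset.mem_singleton.1 h]; exact (hW _ hp3).1
    · push Not at hx
      have h1 : ∑ p ∈ pairsOf W, (interior (KK p.1 p.2)).indicator (fun _ => (1:ENNReal)) x = 0 := by
        refine Finset.sum_eq_zero fun p hp => ?_
        rw [indicator_of_notMem (hx p hp)]
      rw [h1, add_zero]
      by_cases hxc : x ∈ Set.Icc (0 : Pt (n+1)) 1
      · rw [indicator_of_mem hxc]
        have := hc hxc
        simp only [Set.mem_iUnion] at this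
        obtain ⟨k, hk, hxk⟩ := this
        refine le_trans ?_ (Finset.single_le_sum (f := fun k =>
          (convexHull ℝ (s k : Set (Pt (n+1)))).indicator (fun _ => (1:ENNReal)) x)
          (fun _ _ => bot_le) hk)
        rw [indicator_of_mem hxk]
      · rw [indicator_of_notMem hxc]
        exact bot_le
  have hint := lintegral_mono hpt (μ := volume)
  rw [lintegral_add_left (measurable_const.indicator measurableSet_Icc),
    lintegral_finsetSum _ (fun p _ => measurable_const.indicator isOpen_interior.measurableSet),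
    lintegral_finsetSum _ (fun k _ => measurable_const.indicator (hmeas k)),
    lintegral_indicator_const measurableSet_Icc, one_mul] at hint
  have e1 : ∀ k, ∫⁻ a, (convexHull ℝ (s k : Set (Pt (n+1)))).indicator (fun _ => (1:ENNReal)) a =
      volume (convexHull ℝ (s k : Set (Pt (n+1)))) := fun k => by
    rw [lintegral_indicator_const (hmeas k), one_mul]
  have e2 : ∀ p : (Fin (n+1) → Bool) × Fin (n+1), ∫⁻ a, (interior (KK p.1 p.2)).indicator
      (fun _ => (1:ENNReal)) a = volume (interior (KK p.1 p.2)) := fun p => by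
    rw [lintegral_indicator_const isOpen_interior.measurableSet, one_mul]
  simp only [e1, e2] at hint
  have hvol : volume (Set.Icc (0 : Pt (n+1)) 1) = 1 := by
    rw [Real.volume_Icc_pi]
    simp
  rw [hvol] at hint
  have h2 : ENNReal.ofReal (1 + (pairsOf W).card * ((1/2) ^ n / ((n+1).factorial : ℝ))) ≤
      ENNReal.ofReal (∑ k ∈ T, nv (s k) / ((n+1).factorial : ℝ)) := by
    rw [ENNReal.ofReal_sum_of_nonneg fun k _ => div_nonneg (nv_nonneg _) (by positivity)]
    refine le_trans ?_ (hint.trans (Finset.sum_le_sum fun k hk => vol_le_nv (s k) (hg k hk).card))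
    rw [ENNReal.ofReal_add (by norm_num) (by positivity), ENNReal.ofReal_one]
    gcongr
    rw [ENNReal.ofReal_mul (by positivity), ENNReal.ofReal_natCast, ← nsmul_eq_mul,
      ← Finset.sum_const]
    exact Finset.sum_le_sum fun p _ => vol_interior_KK _ _
  rw [ENNReal.ofReal_le_ofReal_iff (Finset.sum_nonneg fun k _ =>
      div_nonneg (nv_nonneg _) (by positivity)), ← Finset.sum_div, le_div_iff₀ (by positivity)] at h2
  have hf : (0:ℝ) < ((n+1).factorial : ℝ) := by positivity
  calc ((n+1).factorial : ℝ) + (pairsOf W).card * (1/2) ^ n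
      = (1 + (pairsOf W).card * ((1/2) ^ n / ((n+1).factorial : ℝ))) * ((n+1).factorial : ℝ) := by
        field_simp
    _ ≤ _ := h2

end Pool.Agent.H43.Cube
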