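import Mathlib
import Pool.Agent.H43.Cube.Exc

/-!
# Lower bounds for covers, taking into account the overlaps of adjacent corners
-/

set_option autoImplicit false

namespace Pool.Agent.H43.Cube

open MeasureTheory Set Finset

lemma bv_inj {b c : Bool} (h : bv b = bv c) : b = c := bv_eq_iff.1 h

lemma vtx_insertNth {n : ℕ} (j : Fin (n+1)) (b : Bool) (w : Fin n → Bool) :
    vtx (j.insertNth b w : Fin (n+1) → Bool) = (j.insertNth (bv b) (vtx w) : Fin (n+1) → ℝ) := by
  funext k
  rcases Fin.eq_self_or_eq_succAbove j k with hk | ⟨k', hk⟩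
  · subst hk
    simp [vtx]
  · subst hk
    simp [vtx]

/-- the facets of the unit corners are unit corners -/
lemma fac_unitCorner {n : ℕ} (j : Fin (n+1)) (b : Bool) (w : Fin n → Bool) :
    fac (j, b) (unitCorner (j.insertNth b w : Fin (n+1) → Bool)) = unitCorner w := by
  ext y
  rw [mem_fac, mem_unitCorner]
  constructor
  · rintro ⟨x, hx, hxj, rfl⟩
    simp only at hxj
    rcases mem_unitCorner.1 hx with h | ⟨i, h⟩
    · left
      rw [h, vtx_insertNth]
      simp
    · right
      rcases Fin.eq_self_or_eq_succAbove j i with hi | ⟨i', hi⟩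
      · exfalso
        subst hi
        rw [← h, Function.update_self] at hxj
        simp only [Fin.insertNth_apply_same] at hxj
        exact bv_not_ne b hxj
      · refine ⟨i', ?_⟩
        rw [← h, vtx_insertNth]
        funext k
        simp only [Fin.removeNth]
        by_cases hk : k = i'
        · subst hk
          rw [Function.update_self, hi, Function.update_self]
          simp
        · rw [Function.update_of_ne hk, hi, Function.update_of_ne]
          · simp
          · intro h'
            exact hk (Fin.succAbove_right_injective h')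
  · rintro (h | ⟨i, h⟩)
    · refine ⟨vtx (j.insertNth b w : Fin (n+1) → Bool), mem_unitCorner.2 (Or.inl rfl), ?_, ?_⟩
      · simp [vtx]
      · rw [vtx_insertNth, h]
        simp
    · refine ⟨_, mem_unitCorner.2 (Or.inr ⟨j.succAbove i, rfl⟩), ?_, ?_⟩
      · simp only
        rw [Function.update_of_ne (Fin.succAbove_ne j i).symm]
        simp [vtx]
      · rw [← h, vtx_insertNth]
        funext k
        simp only [Fin.removeNth]
        by_cases hk : k = i
        · subst hk
          rw [Function.update_self, Function.update_self]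
          simp
        · rw [Function.update_of_ne hk, Function.update_of_ne]
          · simp
          · intro h'
            exact hk (Fin.succAbove_right_injective h')

open scoped Classical in
/-- the vertices of `W` in a facet -/
noncomputable def facW {n : ℕ} (q : Fin (n+1) × Bool) (W : Finset (Fin (n+1) → Bool)) :
    Finset (Fin n → Bool) :=
  Finset.univ.filter fun w => (q.1.insertNth q.2 w : Fin (n+1) → Bool) ∈ W

lemma mem_facW {n : ℕ} {q : Fin (n+1) × Bool} {W : Finset (Fin (n+1) → Bool)}
    {w : Fin n → Bool} : w ∈ facW q W ↔ (q.1.insertNth q.2 w : Fin (n+1) → Bool) ∈ W := by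
  simp [facW]

lemma update_insertNth' {n : ℕ} (j : Fin (n+1)) (b : Bool) (w : Fin n → Bool) (i : Fin n)
    (v : Bool) : Function.update (j.insertNth b w : Fin (n+1) → Bool) (j.succAbove i) v =
      (j.insertNth b (Function.update w i v) : Fin (n+1) → Bool) := by
  funext k
  rcases Fin.eq_self_or_eq_succAbove j k with hk | ⟨k', hk⟩
  · subst hk
    rw [Function.update_of_ne (Fin.succAbove_ne _ i).symm]
    simp
  · subst hk
    by_cases hk' : k' = i
    · subst hk'
      simp
    · rw [Function.update_of_ne (fun h => hk' (Fin.succAbove_right_injective h))]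
      simp [hk']

lemma card_pairs_fac {n : ℕ} (W : Finset (Fin (n+2) → Bool)) :
    (n+1) * (pairsOf W).card ≤ ∑ q : Fin (n+2) × Bool, (pairsOf (facW q W)).card := by
  classical
  have h1 : ∀ q : Fin (n+2) × Bool,
      ((pairsOf W).filter fun p => q.1 ≠ p.2 ∧ p.1 q.1 = q.2).card ≤ (pairsOf (facW q W)).card := by
    intro q
    have hsub : ((pairsOf W).filter fun p => q.1 ≠ p.2 ∧ p.1 q.1 = q.2) ⊆
        (pairsOf (facW q W)).image fun p =>
          ((q.1.insertNth q.2 p.1 : Fin (n+2) → Bool), q.1.succAbove p.2) := by
      rintro ⟨w, i⟩ hp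
      obtain ⟨hp, hne, hq⟩ := Finset.mem_filter.1 hp
      simp only at hne hq
      obtain ⟨i', hi'⟩ : ∃ i', i = q.1.succAbove i' := by
        rcases Fin.eq_self_or_eq_succAbove q.1 i with h | ⟨i', h⟩
        · exact absurd h.symm hne
        · exact ⟨i', h⟩
      subst hi'
      obtain ⟨h1, h2, h3⟩ := mem_pairsOf.1 hp
      simp only at h1 h2 h3
      have hw : w = (q.1.insertNth q.2 (q.1.removeNth w) : Fin (n+2) → Bool) := by
        rw [← hq, Fin.insertNth_self_removeNth]
      refine Finset.mem_image.2 ⟨(q.1.removeNth w, i'), ?_, ?_⟩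
      · refine mem_pairsOf.2 ⟨?_, ?_, ?_⟩
        · rw [mem_facW]
          simp only
          rw [← hw]
          exact h1
        · exact h2
        · rw [mem_facW]
          simp only
          rw [← update_insertNth', ← hw]
          exact h3
      · simp only
        rw [← hw]
    exact (Finset.card_le_card hsub).trans Finset.card_image_le
  refine le_trans ?_ (Finset.sum_le_sum fun q _ => h1 q)
  simp_rw [Finset.card_filter]
  rw [Finset.sum_comm, mul_comm, ← smul_eq_mul, ← Finset.sum_const]
  refine Finset.sum_le_sum fun p _ => ?_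
  rw [← Finset.card_filter]
  have h2 : (Finset.univ.erase p.2).image (fun j => (j, p.1 j)) ⊆
      Finset.univ.filter (fun q : Fin (n+2) × Bool => q.1 ≠ p.2 ∧ p.1 q.1 = q.2) := by
    intro q hq
    obtain ⟨j, hj, rfl⟩ := Finset.mem_image.1 hq
    simp only [Finset.mem_filter, Finset.mem_univ, true_and, and_true]
    exact Finset.ne_of_mem_erase hj
  have h3 : ((Finset.univ.erase p.2).image (fun j => (j, p.1 j))).card = n + 1 := by
    rw [Finset.card_image_of_injective _ (fun a b h => (Prod.ext_iff.1 h).1),
      Finset.card_erase_of_mem (Finset.mem_univ _), Finset.card_univ, Fintype.card_fin]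
    rfl
  rw [← h3]
  exact Finset.card_le_card h2

/-- the chain inequality with excess -/
theorem sum_Phi_exc : ∀ (t n : ℕ) {κ : Type} (T : Finset κ) (s : κ → Finset (Pt (n+1))), t ≤ n →
    (∀ k ∈ T, Good (n+1) (s k)) →
    (Set.Icc (0 : Pt (n+1)) 1 ⊆ ⋃ k ∈ T, convexHull ℝ (s k : Set (Pt (n+1)))) →
    ∀ (W : Finset (Fin (n+1) → Bool)) (c : (Fin (n+1) → Bool) → κ),
    (∀ w ∈ W, c w ∈ T ∧ s (c w) = unitCorner w) → (∀ w ∈ W, ∀ w' ∈ W, c w = c w' → w = w') →
    (2:ℝ) ^ t * ((n+1).factorial : ℝ) +
      (pairsOf W).card * ((n.descFactorial t : ℝ) * 2 ^ t * (1/2) ^ n) ≤ ∑ k ∈ T, Phi t (n+1) (s k)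
  | 0, n, κ, T, s, _, hg, hc, W, c, hW, hinj => by
    have := vol_excess T s hg hc W c hW hinj
    simpa [Phi] using this
  | t+1, 0, κ, T, s, h, _, _, _, _, _, _ => absurd h (by omega)
  | t+1, n+1, κ, T, s, h, hg, hc, W, c, hW, hinj => by
    classical
    have h1 : ∑ k ∈ T, Phi (t+1) (n+1+1) (s k) = ∑ q : Fin (n+2) × Bool,
        ∑ k ∈ T.filter (fun k => (fac q (s k)).card = n + 1 + 1), Phi t (n+1) (fac q (s k)) := by
      simp only [Phi]
      rw [Finset.sum_comm]
      refine Finset.sum_congr rfl fun q _ => ?_
      rw [Finset.sum_filter]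
    rw [h1]
    have h2 : ∀ q : Fin (n+2) × Bool, (2:ℝ) ^ t * ((n+1).factorial : ℝ) +
        (pairsOf (facW q W)).card * ((n.descFactorial t : ℝ) * 2 ^ t * (1/2) ^ n) ≤
        ∑ k ∈ T.filter (fun k => (fac q (s k)).card = n + 1 + 1), Phi t (n+1) (fac q (s k)) := by
      intro q
      refine sum_Phi_exc t n _ (fun k => fac q (s k)) (by omega) ?_ (cover_step T s hg hc q)
        (facW q W) (fun w => c (q.1.insertNth q.2 w)) ?_ ?_
      · intro k hk
        have hk' := Finset.mem_filter.1 hk
        exact (hg k hk'.1).fac hk'.2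
      · intro w hw
        have hw' := mem_facW.1 hw
        obtain ⟨g1, g2⟩ := hW _ hw'
        have g3 : fac q (s (c (q.1.insertNth q.2 w))) = unitCorner w := by
          rw [g2]
          exact fac_unitCorner q.1 q.2 w
        refine ⟨Finset.mem_filter.2 ⟨g1, ?_⟩, g3⟩
        rw [g3]
        exact (good_unitCorner w).card
      · intro w hw w' hw' he
        have := hinj _ (mem_facW.1 hw) _ (mem_facW.1 hw') he
        have h3 := congrArg (fun v : Fin (n+2) → Bool => (q.1.removeNth v : Fin (n+1) → Bool)) this
        simpa using h3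
    have h3 : ((n:ℝ)+1) * ((pairsOf W).card : ℝ) ≤
        ∑ q : Fin (n+2) × Bool, ((pairsOf (facW q W)).card : ℝ) := by
      exact_mod_cast card_pairs_fac W
    have hA : (0:ℝ) ≤ (n.descFactorial t : ℝ) * 2 ^ t * (1/2) ^ n := by positivity
    have h4 := mul_le_mul_of_nonneg_right h3 hA
    have h5 : ∑ q : Fin (n+2) × Bool, ((2:ℝ) ^ t * ((n+1).factorial : ℝ) +
        (pairsOf (facW q W)).card * ((n.descFactorial t : ℝ) * 2 ^ t * (1/2) ^ n)) =
        (2:ℝ) ^ (t+1) * ((n+1+1).factorial : ℝ) +
        (∑ q : Fin (n+2) × Bool, ((pairsOf (facW q W)).card : ℝ)) *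
          ((n.descFactorial t : ℝ) * 2 ^ t * (1/2) ^ n) := by
      rw [Finset.sum_add_distrib, Finset.sum_const, Finset.card_univ, Fintype.card_prod,
        Fintype.card_fin, Fintype.card_bool, nsmul_eq_mul, Finset.sum_mul,
        Nat.factorial_succ (n+1)]
      push_cast
      ring
    have h6 : ((pairsOf W).card : ℝ) * (((n+1).descFactorial (t+1) : ℝ) * 2 ^ (t+1) *
        (1/2) ^ (n+1)) = (((n:ℝ)+1) * ((pairsOf W).card : ℝ)) *
          ((n.descFactorial t : ℝ) * 2 ^ t * (1/2) ^ n) := by
      rw [Nat.succ_descFactorial_succ, pow_succ (2:ℝ) t, pow_succ (1/2:ℝ) n]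
      push_cast
      ring
    rw [h6]
    have h7 := Finset.sum_le_sum fun q (_ : q ∈ (Finset.univ : Finset (Fin (n+2) × Bool))) => h2 q
    rw [h5] at h7
    linarith

/-- many vertices span many edges -/
lemma card_pairs_ge {n : ℕ} (W : Finset (Fin (n+1) → Bool)) :
    (n+1) * W.card ≤ (pairsOf W).card + (n+1) * 2 ^ n := by
  classical
  have h1 : (pairsOf W).card = ∑ i : Fin (n+1),
      (W.filter fun w => w i = false ∧ Function.update w i true ∈ W).card := by
    unfold pairsOf
    rw [Finset.card_filter, Finset.sum_product_right]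
    simp_rw [Finset.card_filter]
  have h2 : ∀ i : Fin (n+1), W.card ≤
      (W.filter fun w => w i = false ∧ Function.update w i true ∈ W).card + 2 ^ n := by
    intro i
    set A := W.filter fun w => w i = false with hA
    set B := W.filter fun w => ¬ w i = false with hB
    set B' := B.image fun w => Function.update w i false with hB'
    set F := (Finset.univ : Finset (Fin (n+1) → Bool)).filter fun w => w i = false with hF
    have c1 : A.card + B.card = W.card := Finset.card_filter_add_card_filter_not _
    have c2 : B'.card = B.card := by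
      apply Finset.card_image_of_injOn
      intro w hw w' hw' h
      have hwi : w i = true := by
        have := (Finset.mem_filter.1 (Finset.mem_coe.1 hw)).2
        simpa using this
      have hwi' : w' i = true := by
        have := (Finset.mem_filter.1 (Finset.mem_coe.1 hw')).2
        simpa using this
      funext k
      by_cases hk : k = i
      · subst hk
        rw [hwi, hwi']
      · have := congrFun h k
        simp only [Function.update_of_ne hk] at this
        exact this
    have c3 : F.card ≤ 2 ^ n := by
      have : F.card ≤ (Finset.univ : Finset (Fin n → Bool)).card := by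
        apply Finset.card_le_card_of_injOn (fun w => (i.removeNth w : Fin n → Bool))
          (fun _ _ => Finset.mem_univ _)
        intro w hw w' hw' h
        have hwi := (Finset.mem_filter.1 (Finset.mem_coe.1 hw)).2
        have hwi' := (Finset.mem_filter.1 (Finset.mem_coe.1 hw')).2
        simp only at h
        rw [← Fin.insertNth_self_removeNth i w, ← Fin.insertNth_self_removeNth i w', h, hwi, hwi']
      simpa using this
    have c4 : A ∪ B' ⊆ F := by
      intro w hw
      rcases Finset.mem_union.1 hw with h | h
      · exact Finset.mem_filter.2 ⟨Finset.mem_univ _, (Finset.mem_filter.1 h).2⟩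
      · obtain ⟨w', _, rfl⟩ := Finset.mem_image.1 h
        exact Finset.mem_filter.2 ⟨Finset.mem_univ _, by simp⟩
    have c5 : A ∩ B' ⊆ W.filter fun w => w i = false ∧ Function.update w i true ∈ W := by
      intro w hw
      obtain ⟨hwA, hwB⟩ := Finset.mem_inter.1 hw
      obtain ⟨hw1, hw2⟩ := Finset.mem_filter.1 hwA
      obtain ⟨w', hw', he⟩ := Finset.mem_image.1 hwB
      obtain ⟨hw3, hw4⟩ := Finset.mem_filter.1 hw'
      have hw5 : w' i = true := by simpa using hw4
      refine Finset.mem_filter.2 ⟨hw1, hw2, ?_⟩
      have : Function.update w i true = w' := by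
        rw [← he]
        funext k
        by_cases hk : k = i
        · subst hk
          simp [hw5]
        · simp [hk]
      rw [this]
      exact hw3
    have c6 := Finset.card_union_add_card_inter A B'
    have c7 := Finset.card_le_card c4
    have c8 := Finset.card_le_card c5
    omega
  rw [h1]
  calc (n+1) * W.card = ∑ i : Fin (n+1), W.card := by simp
    _ ≤ ∑ i : Fin (n+1), ((W.filter fun w => w i = false ∧ Function.update w i true ∈ W).card +
        2 ^ n) := Finset.sum_le_sum fun i _ => h2 i
    _ = _ := by
      rw [Finset.sum_add_distrib]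
      simp

end Pool.Agent.H43.Cube
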