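import Mathlib
import Pool.Agent.H43.Cube.Barba

/-!
# Maximal determinants of orders eight, nine, ten and twelve
-/

set_option autoImplicit false

namespace Pool.Agent.H43.Cube

open Finset Matrix

lemma maxDet_le_of_gram {m c : ℕ} {B : ℝ} (hB : B < (((c:ℝ)+1) * 2 ^ m) ^ 2)
    (h : ∀ M : Matrix (Fin (m+1)) (Fin (m+1)) ℤ, (∀ i j, M i j = 1 ∨ M i j = -1) →
      (M.det : ℝ) ^ 2 ≤ B) : maxDet m ≤ c := by
  apply maxDet_le
  intro A hA
  obtain ⟨k, hk⟩ := abs_det_nat A hA
  obtain ⟨M, hM, hdet⟩ := to_pm A hA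
  have h1 := h M hM
  rw [← sq_abs, hdet, hk] at h1
  rw [hk]
  have h4 : k < c + 1 := by
    by_contra hcon
    push Not at hcon
    have h5 : (c:ℝ) + 1 ≤ k := by exact_mod_cast hcon
    have h6 : ((c:ℝ) + 1) * 2 ^ m ≤ 2 ^ m * k := by
      rw [mul_comm]
      exact mul_le_mul_of_nonneg_left h5 (by positivity)
    have h7 : (((c:ℝ) + 1) * 2 ^ m) ^ 2 ≤ (2 ^ m * (k:ℝ)) ^ 2 :=
      pow_le_pow_left₀ (by positivity) h6 2
    linarith
  have h5 : k ≤ c := by omega
  exact_mod_cast h5

lemma row_parity {n : ℕ} {M : Matrix (Fin n) (Fin n) ℤ} (hM : ∀ i j, M i j = 1 ∨ M i j = -1)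
    (i : Fin n) : (2:ℤ) ∣ n + ∑ k, M i k := by
  have h1 : (2:ℤ) ∣ ∑ k, (1 + M i k) := by
    refine Finset.dvd_sum fun k _ => ?_
    rcases hM i k with h | h <;> rw [h] <;> norm_num
  have h2 : ∑ k, (1 + M i k) = n + ∑ k, M i k := by
    rw [Finset.sum_add_distrib]
    simp
  rwa [h2] at h1

/-- normalising the rows in odd order -/
lemma norm_rows {n : ℕ} {M' : Matrix (Fin n) (Fin n) ℤ} (hM' : ∀ i j, M' i j = 1 ∨ M' i j = -1)
    (hn : n % 2 = 1) : ∃ M : Matrix (Fin n) (Fin n) ℤ, (∀ i j, M i j = 1 ∨ M i j = -1) ∧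
      (M.det : ℝ) ^ 2 = (M'.det : ℝ) ^ 2 ∧ ∀ i, (∑ k, M i k) % 4 = 3 := by
  let v : Fin n → ℤ := fun i => if (∑ k, M' i k) % 4 = 3 then 1 else -1
  have hv : ∀ i, v i = 1 ∨ v i = -1 := by
    intro i
    simp only [v]
    split_ifs <;> simp
  refine ⟨Matrix.of fun i j => v i * M' i j, ?_, ?_, ?_⟩
  · intro i j
    simp only [Matrix.of_apply]
    rcases hv i with h | h <;> rcases hM' i j with h' | h' <;> rw [h, h'] <;> norm_num
  · rw [Matrix.det_mul_column, Int.cast_mul, mul_pow]
    have h1 : ((∏ i, v i : ℤ) : ℝ) ^ 2 = 1 := by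
      rw [← sq_abs, Int.cast_prod, Finset.abs_prod]
      rw [Finset.prod_eq_one, one_pow]
      intro i _
      rcases hv i with h | h <;> rw [h] <;> norm_num
    rw [h1, one_mul]
  · intro i
    simp only [Matrix.of_apply]
    rw [← Finset.mul_sum]
    have h1 := row_parity hM' i
    simp only [v]
    split_ifs with h
    · rw [one_mul]
      exact h
    · omega

lemma gram_real {n : ℕ} (M : Matrix (Fin n) (Fin n) ℤ) (i j : Fin n) :
    ((Int.castRingHom ℝ).mapMatrix (M * M.transpose)) i j = (((M * M.transpose) i j : ℤ) : ℝ) := by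
  simp only [RingHom.mapMatrix_apply, Matrix.map_apply, Int.coe_castRingHom]

/-- Barba's bound for odd order -/
lemma barba_odd {n : ℕ} (hn : n % 2 = 0) {M : Matrix (Fin (n+1)) (Fin (n+1)) ℤ}
    (hM : ∀ i j, M i j = 1 ∨ M i j = -1) :
    (M.det : ℝ) ^ 2 ≤ (n:ℝ) ^ n * (2 * n + 1) := by
  rw [det_sq_gram]
  have h1 := barba_sub (gram_psd M) (n := (n:ℝ) + 1) (c := 1) one_pos (by linarith [n.cast_nonneg (α := ℝ)])
    (fun i => by
      rw [gram_real, gram_diag hM]
      push_cast
      exact le_rfl) id (by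
      intro i j hij
      rw [gram_real]
      have h1 := gram_mod hM i j
      have h2 := row_parity hM i
      have h3 := row_parity hM j
      have h4 : (M * M.transpose) i j ≠ 0 := by
        intro h
        rw [h] at h1
        push_cast at h1 h2 h3
        omega
      have h5 : 1 ≤ |(M * M.transpose) i j| := Int.one_le_abs h4
      simp only [id]
      exact_mod_cast h5)
  simp only [Matrix.submatrix_id_id] at h1
  calc _ ≤ _ := h1
    _ = _ := by ring

theorem maxDet_eight' : maxDet 8 ≤ 65 := by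
  have := maxDet_le_of_gram (m := 8) (c := 65) (B := (8:ℝ) ^ 8 * (2 * 8 + 1)) (by norm_num)
    (fun M hM => by
      have := barba_odd (n := 8) (by norm_num) hM
      exact_mod_cast this)
  exact_mod_cast this

theorem maxDet_twelve' : maxDet 12 ≤ 3645 := by
  have := maxDet_le_of_gram (m := 12) (c := 3645) (B := (12:ℝ) ^ 12 * (2 * 12 + 1)) (by norm_num)
    (fun M hM => by
      have := barba_odd (n := 12) (by norm_num) hM
      exact_mod_cast this)
  exact_mod_cast this

/-- the determinant bound for order ten -/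
lemma nine_aux (M : Matrix (Fin 10) (Fin 10) ℤ) (hM : ∀ i j, M i j = 1 ∨ M i j = -1) :
    (M.det : ℝ) ^ 2 ≤ 5435817984 := by
  classical
  rw [det_sq_gram]
  have hG := gram_psd M
  set G := (Int.castRingHom ℝ).mapMatrix (M * M.transpose) with hGdef
  have hd : ∀ i, G i i ≤ 10 := by
    intro i
    rw [hGdef, gram_real, gram_diag hM]
    norm_num
  have hcl : ∀ i j, (∑ k, M i k) % 4 = (∑ k, M j k) % 4 → 2 ≤ |G i j| := by
    intro i j hij
    rw [hGdef, gram_real]
    have h1 := gram_mod hM i j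
    have h2 := row_parity hM i
    have h3 : 2 ≤ |(M * M.transpose) i j| := by
      push_cast at h1 h2
      rw [le_abs]
      omega
    exact_mod_cast h3
  let S := (Finset.univ : Finset (Fin 10)).filter fun i => (∑ k, M i k) % 4 = 0
  obtain ⟨p, hp⟩ : ∃ p, S.card = p := ⟨_, rfl⟩
  have hp10 : p ≤ 10 := by
    rw [← hp]
    exact (Finset.card_le_univ _).trans (by simp)
  let f : Fin p → Fin 10 := fun i => S.orderEmbOfFin hp i
  have hf : Function.Injective f := (S.orderEmbOfFin hp).injective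
  have hfS : ∀ i, (∑ k, M (f i) k) % 4 = 0 := by
    intro i
    have := Finset.orderEmbOfFin_mem S hp i
    exact (Finset.mem_filter.1 this).2
  obtain ⟨g, hg, hfg, hle⟩ := fischer (k := p) (l := 10 - p) (by omega) hG f hf
  have hgS : ∀ j, (∑ k, M (g j) k) % 4 = 2 := by
    intro j
    have h1 : g j ∉ S := by
      intro hmem
      have h2 : g j ∈ Set.range (S.orderEmbOfFin hp) := by
        rw [Finset.range_orderEmbOfFin]
        exact hmem
      obtain ⟨i, hi⟩ := h2
      exact hfg i j hi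
    have h2 := row_parity hM (g j)
    simp only [S, Finset.mem_filter, Finset.mem_univ, true_and] at h1
    push_cast at h2
    omega
  have bnd : ∀ (q : ℕ) (h : Fin (q+1) → Fin 10),
      (∀ i j, (∑ k, M (h i) k) % 4 = (∑ k, M (h j) k) % 4) →
      (G.submatrix h h).det ≤ 8 ^ q * (10 + q * 2) := by
    intro q h hh
    have := barba_sub hG (n := 10) (c := 2) (by norm_num) (by norm_num) hd h
      (fun i j _ => hcl _ _ (hh i j))
    norm_num at this ⊢
    exact this
  have hb1 : ∀ (q : ℕ) (h : Fin q → Fin 10),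
      (∀ i j, (∑ k, M (h i) k) % 4 = (∑ k, M (h j) k) % 4) →
      (G.submatrix h h).det * 8 ≤ 8 ^ q * (8 + q * 2) := by
    intro q h hh
    rcases q with _ | q
    · simp
    · have := bnd q h hh
      push_cast
      rw [pow_succ]
      nlinarith [this]
  have h1 := hb1 p f (fun i j => by rw [hfS i, hfS j])
  have h2 := hb1 (10 - p) g (fun i j => by rw [hgS i, hgS j])
  have h10 : 0 ≤ (G.submatrix f f).det := (hG.submatrix f).det_nonneg
  have h20 : 0 ≤ (G.submatrix g g).det := (hG.submatrix g).det_nonneg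
  have h3 : ((G.submatrix f f).det * 8) * ((G.submatrix g g).det * 8) ≤
      (8 ^ p * (8 + p * 2)) * (8 ^ (10 - p) * (8 + ((10 - p : ℕ) : ℝ) * 2)) :=
    mul_le_mul h1 h2 (by positivity) (by positivity)
  have h4 : ((8:ℝ) ^ p * (8 + p * 2)) * (8 ^ (10 - p) * (8 + ((10 - p : ℕ) : ℝ) * 2)) =
      8 ^ 10 * ((8 + p * 2) * (8 + ((10 - p : ℕ) : ℝ) * 2)) := by
    have : (8:ℝ) ^ 10 = 8 ^ p * 8 ^ (10 - p) := by
      rw [← pow_add]
      congr 1
      omega
    rw [this]
    ring
  have h5 : (8 + (p:ℝ) * 2) * (8 + ((10 - p : ℕ) : ℝ) * 2) ≤ 324 := by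
    rw [Nat.cast_sub hp10]
    push_cast
    nlinarith [sq_nonneg ((p:ℝ) - 5)]
  rw [h4] at h3
  have h6 : (8:ℝ) ^ 10 * ((8 + p * 2) * (8 + ((10 - p : ℕ) : ℝ) * 2)) ≤ 8 ^ 10 * 324 :=
    mul_le_mul_of_nonneg_left h5 (by positivity)
  calc G.det ≤ _ := hle
    _ ≤ 5435817984 := by
      norm_num at h3 h6
      nlinarith [h3, h6]

theorem maxDet_nine' : maxDet 9 ≤ 144 := by
  have := maxDet_le_of_gram (m := 9) (c := 144) (B := 5435817984) (by norm_num)
    (fun M hM => nine_aux M hM)
  exact_mod_cast this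

/-- determinant of the matrix with diagonal `a - 1` and off-diagonal entries `-1` -/
lemma det_minus_one (n : ℕ) (a : ℝ) (ha : a ≠ 0) :
    (Matrix.of (fun i j : Fin n => if i = j then a - 1 else -1)).det = a ^ n * (1 - n / a) := by
  have h1 : (Matrix.of (fun i j : Fin n => if i = j then a - 1 else -1)) =
      a • (1 + (Matrix.replicateCol (Fin 1) (fun _ : Fin n => (-a⁻¹ : ℝ))) *
        (Matrix.replicateRow (Fin 1) (fun _ : Fin n => (1:ℝ)))) := by
    ext i j
    simp only [Matrix.of_apply, Matrix.smul_apply, Matrix.add_apply, Matrix.mul_apply,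
      Matrix.replicateCol_apply, Matrix.replicateRow_apply, Finset.univ_unique,
      Finset.sum_singleton, smul_eq_mul, Matrix.one_apply]
    split_ifs
    · field_simp
      ring
    · field_simp
      ring
  rw [h1, Matrix.det_smul]
  have h2 := Matrix.det_one_add_replicateCol_mul_replicateRow (ι := Fin 1) (fun _ : Fin n => (-a⁻¹ : ℝ))
    (fun _ : Fin n => (1:ℝ))
  have h3 : (1 + (Matrix.replicateCol (Fin 1) (fun _ : Fin n => (-a⁻¹ : ℝ))) *
      (Matrix.replicateRow (Fin 1) (fun _ : Fin n => (1:ℝ)))).det =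
      1 + (fun _ : Fin n => (1:ℝ)) ⬝ᵥ (fun _ : Fin n => (-a⁻¹ : ℝ)) := by
    exact h2
  rw [h3]
  simp [dotProduct]
  left
  field_simp
  ring

end Pool.Agent.H43.Cube
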