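import Mathlib
import Pool.Agent.H43.Cube.VTen

/-!
# Maximal determinants of order ten
-/

set_option autoImplicit false

namespace Pool.Agent.H43.Cube

open Finset Matrix

/-- the combinatorial situation: a psd integer matrix of order eleven with diagonal `11` and all
off-diagonal entries congruent to `3` modulo `4` -/
lemma det_eleven (Gz : Matrix (Fin 11) (Fin 11) ℤ)
    (hG : ((Int.castRingHom ℝ).mapMatrix Gz).PosSemidef)
    (hd : ∀ i, Gz i i = 11) (hs : ∀ i j, Gz i j = Gz j i)
    (ho : ∀ i j, Gz i j % 4 = 3) :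
    ((Int.castRingHom ℝ).mapMatrix Gz).det ≤ 192880000000 := by
  classical
  set G := (Int.castRingHom ℝ).mapMatrix Gz with hGdef
  have hGa : ∀ i j, G i j = (Gz i j : ℝ) := fun i j => by simp [hGdef]
  have hsub : ∀ (k : ℕ) (f : Fin k → Fin 11),
      (G.submatrix f f).det = ((Gz.submatrix f f).det : ℝ) := by
    intro k f
    have : G.submatrix f f = (Int.castRingHom ℝ).mapMatrix (Gz.submatrix f f) := by
      ext i j
      simp [hGdef]
    rw [this, ← RingHom.map_det]
    simp
  have hdiag : ∀ i, G i i ≤ 11 := by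
    intro i
    simp [hGdef, hd]
  have hoff : ∀ i j, i ≠ j → (1:ℝ) ≤ |G i j| := by
    intro i j _
    rw [hGa]
    have h1 := ho i j
    have h2 : Gz i j ≠ 0 := by
      intro h
      rw [h] at h1
      norm_num at h1
    have h3 := Int.one_le_abs h2
    exact_mod_cast h3
  have hnn : ∀ (k : ℕ) (f : Fin k → Fin 11), 0 ≤ (G.submatrix f f).det :=
    fun k f => (hG.submatrix f).det_nonneg
  have barba : ∀ (l k : ℕ), k + l = 11 → 0 < k → ∀ f : Fin k → Fin 11, Function.Injective f →
      G.det ≤ 10 ^ l * (G.submatrix f f).det + l * 10 ^ 10 := by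
    intro l k hkl hk f hf
    have := barba_ext hG (n := 11) (c := 1) one_pos (by norm_num) hdiag hoff l k hkl hk f hf
    norm_num at this ⊢
    exact this
  have h2blk : ∀ a b : Fin 11, (Gz.submatrix ![a, b] ![a, b]).det = 121 - Gz a b * Gz a b := by
    intro a b
    rw [Matrix.det_fin_two]
    simp [hd, hs b a]
  have h3blk : ∀ a b c : Fin 11, (Gz.submatrix ![a, b, c] ![a, b, c]).det =
      1331 - 11 * (Gz a b * Gz a b + Gz a c * Gz a c + Gz b c * Gz b c) +
        2 * (Gz a b * Gz a c * Gz b c) := by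
    intro a b c
    rw [Matrix.det_fin_three]
    simp [hd, hs b a, hs c a, hs c b]
    ring
  by_cases hbad : ∃ i j, i ≠ j ∧ 5 ≤ |Gz i j|
  · obtain ⟨i, j, hij, hv⟩ := hbad
    have hf : Function.Injective (![i, j] : Fin 2 → Fin 11) := by
      intro x y hxy
      fin_cases x <;> fin_cases y <;> simp [hij, hij.symm] at hxy ⊢
    have h1 : (G.submatrix ![i, j] ![i, j]).det ≤ 96 := by
      rw [hsub, h2blk]
      have h2 : 25 ≤ Gz i j * Gz i j := by
        rw [← abs_mul_abs_self]
        nlinarith
      have h3 : 121 - Gz i j * Gz i j ≤ 96 := by linarith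
      exact_mod_cast h3
    have h2 := barba 9 2 (by norm_num) (by norm_num) _ hf
    norm_num at h2 h1 ⊢
    linarith
  push Not at hbad
  have ho' : ∀ i j, i ≠ j → Gz i j = -1 ∨ Gz i j = 3 := by
    intro i j hij
    have h1 := hbad i j hij
    have h2 := ho i j
    rw [abs_lt] at h1
    omega
  by_cases hadj : ∃ i j k, i ≠ j ∧ i ≠ k ∧ j ≠ k ∧ Gz i j = 3 ∧ Gz i k = 3
  · obtain ⟨i, j, k, hij, hik, hjk, h3, h3'⟩ := hadj
    have hf : Function.Injective (![i, j, k] : Fin 3 → Fin 11) := by
      intro x y hxy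
      fin_cases x <;> fin_cases y <;>
        simp [hij, hij.symm, hik, hik.symm, hjk, hjk.symm] at hxy ⊢
    have h1 : (G.submatrix ![i, j, k] ![i, j, k]).det ≤ 1104 := by
      rw [hsub, h3blk, h3, h3']
      rcases ho' j k hjk with h | h <;> rw [h] <;> norm_num
    have h2 := barba 8 3 (by norm_num) (by norm_num) _ hf
    norm_num at h2 h1 ⊢
    linarith
  push Not at hadj
  have hadj' : ∀ i j k, i ≠ j → i ≠ k → j ≠ k → Gz i j = 3 → Gz i k = -1 := by
    intro i j k h1 h2 h3 h4
    rcases ho' i k h2 with h | h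
    · exact h
    · exact absurd h (hadj i j k h1 h2 h3 h4)
  by_cases htwo : ∃ i j k l, i ≠ j ∧ i ≠ k ∧ i ≠ l ∧ j ≠ k ∧ j ≠ l ∧ k ≠ l ∧
      Gz i j = 3 ∧ Gz k l = 3
  · obtain ⟨i, j, k, l, hij, hik, hil, hjk, hjl, hkl, h3, h3'⟩ := htwo
    have hf : Function.Injective (![i, j, k, l] : Fin 4 → Fin 11) := by
      intro x y hxy
      fin_cases x <;> fin_cases y <;>
        simp [hij, hij.symm, hik, hik.symm, hjk, hjk.symm, hil, hil.symm, hjl, hjl.symm, hkl,
          hkl.symm] at hxy ⊢
    have h1 : (G.submatrix ![i, j, k, l] ![i, j, k, l]).det = 12288 := by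
      rw [hsub]
      have e1 : Gz i k = -1 := hadj' i j k hij hik hjk h3
      have e2 : Gz i l = -1 := hadj' i j l hij hil hjl h3
      have e3 : Gz j k = -1 := hadj' j i k hij.symm hjk hik (by rw [hs]; exact h3)
      have e4 : Gz j l = -1 := hadj' j i l hij.symm hjl hil (by rw [hs]; exact h3)
      have : Gz.submatrix ![i, j, k, l] ![i, j, k, l] =
          Matrix.of ![![11,3,-1,-1],![3,11,-1,-1],![-1,-1,11,3],![-1,-1,3,11]] := by
        ext x y
        fin_cases x <;> fin_cases y <;>
          simp [hd, h3, h3', e1, e2, e3, e4, hs j i, hs k i, hs l i, hs k j, hs l j, hs l k]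
      rw [this]
      have : (Matrix.of ![![11,3,-1,-1],![3,11,-1,-1],![-1,-1,11,3],![-1,-1,3,11]] :
        Matrix (Fin 4) (Fin 4) ℤ).det = 12288 := by decide +kernel
      rw [this]
      norm_num
    have h2 := barba 7 4 (by norm_num) (by norm_num) _ hf
    rw [h1] at h2
    norm_num at h2 ⊢
    linarith
  push Not at htwo
  have hdetm : ∀ (k : ℕ) (g : Fin k → Fin 11), (∀ x y, x ≠ y → Gz (g x) (g y) = -1) →
      (G.submatrix g g).det = 12 ^ k * (1 - k / 12) := by
    intro k g h
    rw [← det_minus_one k 12 (by norm_num)]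
    congr 1
    ext x y
    simp only [Matrix.submatrix_apply, Matrix.of_apply, hGa]
    split_ifs with hxy
    · rw [hxy, hd]
      norm_num
    · rw [h x y hxy]
      norm_num
  by_cases hone : ∃ i j, i ≠ j ∧ Gz i j = 3
  · obtain ⟨i, j, hij, h3⟩ := hone
    have hf : Function.Injective (![i, j] : Fin 2 → Fin 11) := by
      intro x y hxy
      fin_cases x <;> fin_cases y <;> simp [hij, hij.symm] at hxy ⊢
    obtain ⟨g, hg, hfg, hle⟩ := fischer (k := 2) (l := 9) (by norm_num) hG _ hf
    have h1 : (G.submatrix ![i, j] ![i, j]).det = 112 := by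
      rw [hsub, h2blk, h3]
      norm_num
    have h2 := hdetm 9 g (by
      intro x y hxy
      have hne : g x ≠ g y := fun h => hxy (hg h)
      rcases ho' _ _ hne with h | h
      · exact h
      · have a1 := hfg 0 x
        have a2 := hfg 0 y
        have a3 := hfg 1 x
        have a4 := hfg 1 y
        simp only [Matrix.cons_val_zero, Matrix.cons_val_one] at a1 a2 a3 a4
        exact absurd h (htwo i j (g x) (g y) hij a1 a2 a3 a4 hne h3))
    rw [h1, h2] at hle
    norm_num at hle ⊢
    linarith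
  push Not at hone
  have h2 := hdetm 11 id (by
    intro x y hxy
    rcases ho' x y hxy with h | h
    · exact h
    · exact absurd h (hone x y hxy))
  rw [Matrix.submatrix_id_id] at h2
  rw [h2]
  norm_num

lemma ten_aux (M' : Matrix (Fin 11) (Fin 11) ℤ) (hM' : ∀ i j, M' i j = 1 ∨ M' i j = -1) :
    (M'.det : ℝ) ^ 2 ≤ 192880000000 := by
  obtain ⟨M, hM, hdet, hs⟩ := norm_rows hM' (by norm_num)
  rw [← hdet, det_sq_gram]
  apply det_eleven _ (gram_psd M)
  · intro i
    rw [gram_diag hM]
    norm_num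
  · exact gram_symm M
  · intro i j
    have h1 := gram_mod hM i j
    have h3 := hs i
    have h4 := hs j
    push_cast at h1
    omega

theorem maxDet_ten' : maxDet 10 ≤ 428 := by
  have := maxDet_le_of_gram (m := 10) (c := 428) (B := 192880000000) (by norm_num)
    (fun M' hM' => ten_aux M' hM')
  exact_mod_cast this

end Pool.Agent.H43.Cube
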