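import Mathlib
import Pool.Agent.H43.Cube.ExcB
import Pool.Agent.H43.Cube.VTenB

/-!
# The main lower bound for covers
-/

set_option autoImplicit false

namespace Pool.Agent.H43.Cube

open MeasureTheory Set Finset

/-- **Lower bound for covers, taking into account the corners and their overlaps.** -/
theorem cover_bound_adj {n : ℕ} {T : Finset (Finset (Fin (n+1) → ℝ))} (hT : IsCover (n+1) T)
    (m : ℕ) (hm : m ≤ n) (y : ℕ → ℝ) (hy : ∀ t, 0 ≤ y t) (z z' : ℝ) (hz : 0 ≤ z) (hzz : z ≤ z')
    (h : ∀ e ≤ n, (∑ t ∈ range m, y t * (e.descFactorial t : ℝ)) * maxDet (n + 1 - e) ≤ 1)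
    (hc : ∑ t ∈ range m, y t * ((n+1).descFactorial t : ℝ) ≤ 1 + z)
    (hn : ∑ t ∈ range m, y t * (NC (n+1) t : ℝ) ≤ 1)
    (ha : 2 * z ≤ z' + (n+1) * ∑ t ∈ range m, y t * ((n.descFactorial t : ℝ) * 2 ^ t * (1/2) ^ n)) :
    ((n+1).factorial : ℝ) * ∑ t ∈ range m, 2 ^ t * y t - z' * 2 ^ n ≤ T.card := by
  classical
  have hg := hT.good
  have hex : ∀ S : Finset (Pt (n+1)), ∃ v : Fin (n+1) → Bool, S ∈ T → dirs S = Finset.univ →
      convexHull ℝ (S : Set (Pt (n+1))) ⊆ convexHull ℝ (unitCorner v : Set (Pt (n+1))) := by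
    intro S
    by_cases hS : S ∈ T ∧ dirs S = Finset.univ
    · obtain ⟨v, hv⟩ := corner_sub (hg S hS.1) hS.2
      exact ⟨v, fun _ _ => hv⟩
    · exact ⟨fun _ => false, fun h1 h2 => absurd ⟨h1, h2⟩ hS⟩
  choose vert hvert using hex
  set T1 := T.filter (fun S => ¬ dirs S = Finset.univ) with hT1
  set W := (T.filter (fun S => dirs S = Finset.univ)).image vert with hW
  have hcinj : ∀ w w' : Fin (n+1) → Bool, unitCorner w = unitCorner w' → w = w' ∨ n = 0 := by
    intro w w' hww
    by_cases hn0 : n = 0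
    · exact Or.inr hn0
    left
    have h1 : vtx w ∈ unitCorner w' := hww ▸ mem_unitCorner.2 (Or.inl rfl)
    rcases mem_unitCorner.1 h1 with h2 | ⟨i, h2⟩
    · funext k
      exact bv_inj (congrFun h2 k)
    · exfalso
      obtain ⟨j, hj⟩ : ∃ j : Fin (n+1), j ≠ i := by
        have : Nontrivial (Fin (n+1)) := Fin.nontrivial_iff_two_le.2 (by omega)
        exact exists_ne i
      have h3 : Function.update (vtx w) j (bv (!w j)) ∈ unitCorner w' :=
        hww ▸ mem_unitCorner.2 (Or.inr ⟨j, rfl⟩)
      have hwi : vtx w i = bv (!w' i) := by rw [← h2, Function.update_self]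
      have hwj : vtx w j = vtx w' j := by rw [← h2, Function.update_of_ne hj]
      rcases mem_unitCorner.1 h3 with h4 | ⟨k, h4⟩
      · have h5 := congrFun h4 i
        rw [Function.update_of_ne hj.symm, hwi] at h5
        exact bv_not_ne _ h5
      · by_cases hki : k = i
        · subst hki
          have h5 := congrFun h4 j
          rw [Function.update_of_ne hj, Function.update_self, ← hwj] at h5
          exact bv_not_ne _ h5.symm
        · have h5 := congrFun h4 i
          rw [Function.update_of_ne (Ne.symm hki), Function.update_of_ne hj.symm, hwi] at h5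
          exact bv_not_ne _ h5.symm
  rcases Nat.eq_zero_or_pos n with hn0 | hnpos
  · -- the one-dimensional case is trivial as then `m = 0`
    have hm0 : m = 0 := by omega
    subst hm0
    simp only [Finset.range_zero, Finset.sum_empty, mul_zero, zero_sub]
    have : 0 ≤ z' * 2 ^ n := mul_nonneg (hz.trans hzz) (by positivity)
    have : (0:ℝ) ≤ T.card := by positivity
    linarith
  have hcinj' : ∀ w w' : Fin (n+1) → Bool, unitCorner w = unitCorner w' → w = w' := by
    intro w w' h
    rcases hcinj w w' h with h | h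
    · exact h
    · omega
  set T2 := W.image unitCorner with hT2
  have hcardW : T2.card = W.card := Finset.card_image_of_injective _ hcinj'
  have hcard1 : T1.card + W.card ≤ T.card := by
    have h1 : W.card ≤ (T.filter (fun S => dirs S = Finset.univ)).card := Finset.card_image_le
    have h2 : (T.filter (fun S => dirs S = Finset.univ)).card + T1.card = T.card := by
      rw [hT1]
      convert Finset.card_filter_add_card_filter_not (s := T) (fun S => dirs S = Finset.univ)
    omega
  have hcard2 : W.card ≤ 2 ^ (n+1) := by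
    refine (Finset.card_le_univ _).trans ?_
    simp
  have hg' : ∀ S ∈ T1 ∪ T2, Good (n+1) S := by
    intro S hS
    rcases Finset.mem_union.1 hS with h | h
    · exact hg S (Finset.mem_filter.1 h).1
    · obtain ⟨S', _, rfl⟩ := Finset.mem_image.1 h
      exact good_unitCorner _
  have hcov : Set.Icc (0 : Pt (n+1)) 1 ⊆ ⋃ S ∈ T1 ∪ T2, convexHull ℝ (S : Set (Pt (n+1))) := by
    rw [← hT.2]
    intro x hx
    simp only [Set.mem_iUnion] at hx ⊢
    obtain ⟨S, hS, hxS⟩ := hx
    by_cases hd : dirs S = Finset.univ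
    · refine ⟨unitCorner (vert S), Finset.mem_union_right _ (Finset.mem_image.2
        ⟨vert S, Finset.mem_image.2 ⟨S, Finset.mem_filter.2 ⟨hS, hd⟩, rfl⟩, rfl⟩),
        hvert S hS hd hxS⟩
    · exact ⟨S, Finset.mem_union_left _ (Finset.mem_filter.2 ⟨hS, hd⟩), hxS⟩
  have hG1 : ∀ S ∈ T1, ∑ t ∈ range m, y t * Phi t (n+1) S ≤ 1 := by
    intro S hS
    have hS' := Finset.mem_filter.1 hS
    have hgS := hg S hS'.1
    rcases Nat.lt_or_ge (el (n+1) S) (n+1) with hlt | hge
    · refine le_trans ?_ (h (el (n+1) S) (by omega))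
      rw [Finset.sum_mul]
      refine Finset.sum_le_sum fun t ht => ?_
      rw [mul_assoc]
      refine mul_le_mul_of_nonneg_left ?_ (hy t)
      have := Finset.mem_range.1 ht
      exact Phi_le t (n+1) (Or.inl (by omega)) hgS
    · have hel : el (n+1) S = n + 1 := le_antisymm (el_le _ _) hge
      refine le_trans ?_ hn
      refine Finset.sum_le_sum fun t ht => mul_le_mul_of_nonneg_left ?_ (hy t)
      have := Finset.mem_range.1 ht
      exact Phi_le_NC t n (by omega) hgS hS'.2 hel
  have hG2 : ∀ S ∈ T2, ∑ t ∈ range m, y t * Phi t (n+1) S ≤ 1 + z := by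
    intro S hS
    have hgS := hg' S (Finset.mem_union_right _ hS)
    rcases Nat.lt_or_ge (el (n+1) S) (n+1) with hlt | hge
    · refine le_trans ?_ ((h (el (n+1) S) (by omega)).trans (by linarith))
      rw [Finset.sum_mul]
      refine Finset.sum_le_sum fun t ht => ?_
      rw [mul_assoc]
      refine mul_le_mul_of_nonneg_left ?_ (hy t)
      have := Finset.mem_range.1 ht
      exact Phi_le t (n+1) (Or.inl (by omega)) hgS
    · have hel : el (n+1) S = n + 1 := le_antisymm (el_le _ _) hge
      refine le_trans ?_ hc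
      refine Finset.sum_le_sum fun t ht => mul_le_mul_of_nonneg_left ?_ (hy t)
      have := Finset.mem_range.1 ht
      have h1 := Phi_le t (n+1) (Or.inl (by omega)) hgS
      rw [hel] at h1
      simpa [maxDet_zero] using h1
  set a : ℝ := ∑ t ∈ range m, y t * ((n.descFactorial t : ℝ) * 2 ^ t * (1/2) ^ n) with ha'
  have ha0 : 0 ≤ a := Finset.sum_nonneg fun t _ => mul_nonneg (hy t) (by positivity)
  have hmain : ((n+1).factorial : ℝ) * ∑ t ∈ range m, 2 ^ t * y t + (pairsOf W).card * a ≤
      (T1.card : ℝ) + (W.card : ℝ) * (1 + z) := by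
    calc ((n+1).factorial : ℝ) * ∑ t ∈ range m, 2 ^ t * y t + (pairsOf W).card * a
        = ∑ t ∈ range m, y t * (2 ^ t * ((n+1).factorial : ℝ) +
            (pairsOf W).card * ((n.descFactorial t : ℝ) * 2 ^ t * (1/2) ^ n)) := by
          rw [Finset.mul_sum, ha', Finset.mul_sum, ← Finset.sum_add_distrib]
          exact Finset.sum_congr rfl fun t _ => by ring
      _ ≤ ∑ t ∈ range m, y t * ∑ S ∈ T1 ∪ T2, Phi t (n+1) S := by
          refine Finset.sum_le_sum fun t ht => mul_le_mul_of_nonneg_left ?_ (hy t)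
          have := Finset.mem_range.1 ht
          refine sum_Phi_exc t n (T1 ∪ T2) (fun S => S) (by omega) hg' hcov W unitCorner ?_ ?_
          · intro w hw
            exact ⟨Finset.mem_union_right _ (Finset.mem_image_of_mem _ hw), rfl⟩
          · intro w _ w' _ he
            exact hcinj' w w' he
      _ = ∑ S ∈ T1 ∪ T2, ∑ t ∈ range m, y t * Phi t (n+1) S := by
          rw [Finset.sum_comm]
          exact Finset.sum_congr rfl fun t _ => by rw [Finset.mul_sum]
      _ ≤ ∑ S ∈ T1, ∑ t ∈ range m, y t * Phi t (n+1) S +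
          ∑ S ∈ T2, ∑ t ∈ range m, y t * Phi t (n+1) S := by
          have h1 := Finset.sum_union_inter (s₁ := T1) (s₂ := T2)
            (f := fun S => ∑ t ∈ range m, y t * Phi t (n+1) S)
          have h2 : 0 ≤ ∑ S ∈ T1 ∩ T2, ∑ t ∈ range m, y t * Phi t (n+1) S :=
            Finset.sum_nonneg fun S _ => Finset.sum_nonneg fun t _ =>
              mul_nonneg (hy t) (Phi_nonneg _ _ _)
          linarith
      _ ≤ ∑ S ∈ T1, (1:ℝ) + ∑ S ∈ T2, (1 + z) :=
          add_le_add (Finset.sum_le_sum hG1) (Finset.sum_le_sum hG2)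
      _ = (T1.card : ℝ) + (W.card : ℝ) * (1 + z) := by
          rw [Finset.sum_const, Finset.sum_const, nsmul_eq_mul, nsmul_eq_mul, mul_one, hcardW]
  have h3 : (T1.card : ℝ) + (W.card : ℝ) ≤ (T.card : ℝ) := by exact_mod_cast hcard1
  have h4 : (W.card : ℝ) ≤ 2 ^ (n+1) := by exact_mod_cast hcard2
  have h5 : ((n:ℝ)+1) * (W.card : ℝ) ≤ ((pairsOf W).card : ℝ) + ((n:ℝ)+1) * 2 ^ n := by
    exact_mod_cast card_pairs_ge W
  have hH : (0:ℝ) < 2 ^ n := by positivity
  have h4' : (W.card : ℝ) ≤ 2 * 2 ^ n := by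
    rw [pow_succ] at h4
    linarith
  -- the number of corners costs at most `z' * 2 ^ n`
  have hcost : (W.card : ℝ) * z ≤ (pairsOf W).card * a + z' * 2 ^ n := by
    have hW0 : (0:ℝ) ≤ W.card := by positivity
    have hP0 : (0:ℝ) ≤ (pairsOf W).card := by positivity
    rcases le_or_gt (W.card : ℝ) (2 ^ n) with hle | hgt
    · have e1 : (W.card : ℝ) * z ≤ 2 ^ n * z := mul_le_mul_of_nonneg_right hle hz
      have e2 : z * 2 ^ n ≤ z' * 2 ^ n := mul_le_mul_of_nonneg_right hzz hH.le
      have e3 := mul_nonneg hP0 ha0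
      linarith
    · have e0 : ((n:ℝ)+1) * ((W.card : ℝ) - 2 ^ n) ≤ (pairsOf W).card := by linarith
      have e1 := mul_le_mul_of_nonneg_right e0 ha0
      -- `u = W.card - 2 ^ n`
      set u : ℝ := (W.card : ℝ) - 2 ^ n with hu
      have hu0 : 0 ≤ u := by linarith
      have hu1 : u ≤ 2 ^ n := by linarith
      have hWu : (W.card : ℝ) = 2 ^ n + u := by linarith
      rw [hWu]
      have e2 : (2 ^ n + u) * z ≤ ((n:ℝ)+1) * u * a + z' * 2 ^ n := by
        rcases le_or_gt (z - ((n:ℝ)+1) * a) 0 with hs | hs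
        · have e3 : u * (z - ((n:ℝ)+1) * a) ≤ 0 := mul_nonpos_of_nonneg_of_nonpos hu0 hs
          have e4 : 2 ^ n * z ≤ z' * 2 ^ n := by
            have := mul_le_mul_of_nonneg_right hzz hH.le
            linarith
          linarith
        · have e3 : u * (z - ((n:ℝ)+1) * a) ≤ 2 ^ n * (z - ((n:ℝ)+1) * a) :=
            mul_le_mul_of_nonneg_right hu1 hs.le
          have e4 : 2 ^ n * (z + (z - ((n:ℝ)+1) * a)) ≤ 2 ^ n * z' :=
            mul_le_mul_of_nonneg_left (by linarith) hH.le
          linarith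
      linarith
  linarith

end Pool.Agent.H43.Cube
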