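import Mathlib
import Pool.Agent.H43.Cube.Cover

/-!
# The six numbers: covers, dissections and triangulations of the cube
-/

set_option autoImplicit false

namespace Pool.Agent.H43.Cube

open MeasureTheory Set Finset

/-- a dissection of the cube: a cover by simplices with pairwise disjoint interiors -/
def IsDissection (d : ℕ) (T : Finset (Finset (Fin d → ℝ))) : Prop :=
  IsCover d T ∧ ∀ S ∈ T, ∀ S' ∈ T, S ≠ S' →
    Disjoint (interior (convexHull ℝ (S : Set (Fin d → ℝ))))
      (interior (convexHull ℝ (S' : Set (Fin d → ℝ))))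

/-- a triangulation of the cube: a dissection in which any two simplices meet in a common
face (the convex hull of their common vertices, possibly empty) -/
def IsTriangulation (d : ℕ) (T : Finset (Finset (Fin d → ℝ))) : Prop :=
  IsDissection d T ∧ ∀ S ∈ T, ∀ S' ∈ T,
    convexHull ℝ (S : Set (Fin d → ℝ)) ∩ convexHull ℝ (S' : Set (Fin d → ℝ)) =
      convexHull ℝ ((S : Set (Fin d → ℝ)) ∩ (S' : Set (Fin d → ℝ)))

/-- all simplices of the family are vertex simplices: their vertices lie in `{0,1}^d` -/
def IsVertexFamily (d : ℕ) (T : Finset (Finset (Fin d → ℝ))) : Prop :=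
  ∀ S ∈ T, ∀ x ∈ S, ∀ i, x i = 0 ∨ x i = 1

/-- `C(I_d)`: least size of a cover -/
noncomputable def numC (d : ℕ) : ℕ :=
  sInf {n : ℕ | ∃ T : Finset (Finset (Fin d → ℝ)), IsCover d T ∧ T.card = n}

/-- `C^v(I_d)`: least size of a cover by vertex simplices -/
noncomputable def numCv (d : ℕ) : ℕ :=
  sInf {n : ℕ | ∃ T : Finset (Finset (Fin d → ℝ)),
    IsCover d T ∧ IsVertexFamily d T ∧ T.card = n}

/-- `D(I_d)`: least size of a dissection -/
noncomputable def numD (d : ℕ) : ℕ :=
  sInf {n : ℕ | ∃ T : Finset (Finset (Fin d → ℝ)), IsDissection d T ∧ T.card = n}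

/-- `D^v(I_d)`: least size of a dissection by vertex simplices -/
noncomputable def numDv (d : ℕ) : ℕ :=
  sInf {n : ℕ | ∃ T : Finset (Finset (Fin d → ℝ)),
    IsDissection d T ∧ IsVertexFamily d T ∧ T.card = n}

/-- `T(I_d)`: least size of a triangulation -/
noncomputable def numT (d : ℕ) : ℕ :=
  sInf {n : ℕ | ∃ T : Finset (Finset (Fin d → ℝ)), IsTriangulation d T ∧ T.card = n}

/-- `T^v(I_d)`: least size of a triangulation by vertex simplices -/
noncomputable def numTv (d : ℕ) : ℕ :=
  sInf {n : ℕ | ∃ T : Finset (Finset (Fin d → ℝ)),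
    IsTriangulation d T ∧ IsVertexFamily d T ∧ T.card = n}

/-- two finite sets separated by an affine functional meet in a common face -/
lemma hull_inter {d : ℕ} {A B : Finset (Pt d)} (f : Pt d →ᵃ[ℝ] ℝ) (hA : ∀ a ∈ A, 0 ≤ f a)
    (hB : ∀ b ∈ B, f b ≤ 0) (h : ∀ b ∈ B, f b = 0 → b ∈ A) :
    convexHull ℝ (A : Set (Pt d)) ∩ convexHull ℝ (B : Set (Pt d)) =
      convexHull ℝ ((A : Set (Pt d)) ∩ (B : Set (Pt d))) := by
  classical
  apply Set.Subset.antisymm
  · rintro x ⟨hxA, hxB⟩
    have h1 : 0 ≤ f x := by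
      have : convexHull ℝ (A : Set (Pt d)) ⊆ f ⁻¹' (Set.Ici 0) := by
        apply convexHull_min (fun a ha => hA a ha)
        exact (convex_Ici (0:ℝ)).affine_preimage f
      exact this hxA
    rw [Finset.mem_convexHull'] at hxB
    obtain ⟨w, hw0, hw1, hwx⟩ := hxB
    have h2 : f x = ∑ b ∈ B, w b * f b := by
      have := Finset.map_affineCombination B (fun b : Pt d => b) w hw1 f
      rw [Finset.affineCombination_eq_linear_combination _ _ _ hw1,
        Finset.affineCombination_eq_linear_combination _ _ _ hw1, hwx] at this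
      rw [this]
      rfl
    have h3 : ∀ b ∈ B, w b * f b = 0 := by
      have h4 : ∀ b ∈ B, w b * f b ≤ 0 := fun b hb =>
        mul_nonpos_of_nonneg_of_nonpos (hw0 b hb) (hB b hb)
      have h5 : ∑ b ∈ B, w b * f b = 0 :=
        le_antisymm (Finset.sum_nonpos h4) (by rw [← h2]; exact h1)
      exact (Finset.sum_eq_zero_iff_of_nonpos h4).1 h5
    have h6 : ∀ b ∈ B, b ∉ A ∩ B → w b = 0 := by
      intro b hb hn
      rcases mul_eq_zero.1 (h3 b hb) with h | h'
      · exact h
      · exact absurd (Finset.mem_inter.2 ⟨h b hb h', hb⟩) hn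
    have h7 : x ∈ convexHull ℝ ((A ∩ B : Finset (Pt d)) : Set (Pt d)) := by
      rw [Finset.mem_convexHull']
      refine ⟨w, fun y hy => hw0 y (Finset.mem_inter.1 hy).2, ?_, ?_⟩
      · rw [← hw1]
        exact Finset.sum_subset Finset.inter_subset_right fun b hb hn => h6 b hb hn
      · rw [← hwx]
        exact Finset.sum_subset Finset.inter_subset_right fun b hb hn => by
          rw [h6 b hb hn, zero_smul]
    rwa [Finset.coe_inter] at h7
  · exact Set.subset_inter (convexHull_mono Set.inter_subset_left)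
      (convexHull_mono Set.inter_subset_right)

/-- face-to-face implies disjoint interiors -/
lemma disj_of_inter {d : ℕ} {A B : Finset (Pt d)} (hA : A.card = d + 1) (hB : B.card = d + 1)
    (hAB : A ≠ B) (h : convexHull ℝ (A : Set (Pt d)) ∩ convexHull ℝ (B : Set (Pt d)) =
      convexHull ℝ ((A : Set (Pt d)) ∩ (B : Set (Pt d)))) :
    Disjoint (interior (convexHull ℝ (A : Set (Pt d))))
      (interior (convexHull ℝ (B : Set (Pt d)))) := by
  classical
  rw [Set.disjoint_iff_inter_eq_empty, ← interior_inter, h]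
  have hcard : (A ∩ B).card ≤ d := by
    by_contra hcon
    push Not at hcon
    have h1 : A ∩ B = A := Finset.eq_of_subset_of_card_le Finset.inter_subset_left (by omega)
    have h2 : A ∩ B = B := Finset.eq_of_subset_of_card_le Finset.inter_subset_right (by omega)
    exact hAB (h1.symm.trans h2)
  have h0 := vol_hull_zero (A ∩ B) hcard
  rw [Finset.coe_inter] at h0
  have h1 : volume (interior (convexHull ℝ ((A : Set (Pt d)) ∩ (B : Set (Pt d))))) = 0 :=
    measure_mono_null interior_subset h0
  exact isOpen_interior.measure_eq_zero_iff volume |>.1 h1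

end Pool.Agent.H43.Cube
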