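import Mathlib
import Pool.Agent.H43.Cube.Six
import Pool.Agent.H43.Cube.Num

/-!
# A triangulation of the four-dimensional cube with 16 simplices
-/

set_option autoImplicit false

namespace Pool.Agent.H43.Cube

open MeasureTheory Set Finset

/-- index type of the triangulation -/
abbrev K4 := Bool × Bool × Bool × Bool

/-- `0/1` integer -/
def b01 (b : Bool) : ℤ := if b then 1 else 0

/-- sign -/
def bsg (b : Bool) : ℤ := if b then 1 else -1

/-- the odd vertex with first three coordinates `a b c` -/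
def odd4 (a b c : Bool) : Fin 4 → ℤ := ![b01 a, b01 b, b01 c, b01 (! (xor a (xor b c)))]

/-- vertices of the simplices -/
def P4 : K4 → Fin 5 → Fin 4 → ℤ
  | (false, a, b, c) => ![odd4 a b c,
      ![1 - odd4 a b c 0, odd4 a b c 1, odd4 a b c 2, odd4 a b c 3],
      ![odd4 a b c 0, 1 - odd4 a b c 1, odd4 a b c 2, odd4 a b c 3],
      ![odd4 a b c 0, odd4 a b c 1, 1 - odd4 a b c 2, odd4 a b c 3],
      ![odd4 a b c 0, odd4 a b c 1, odd4 a b c 2, 1 - odd4 a b c 3]]
  | (true, a, b, c) => ![![1,1,1,1], ![0,0,0,0],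
      if a then ![1,1,0,0] else ![0,0,1,1],
      if b then ![1,0,1,0] else ![0,1,0,1],
      if c then ![1,0,0,1] else ![0,1,1,0]]

/-- an affine form with integer coefficients at an integer point -/
def evz (c : ℤ × (Fin 4 → ℤ)) (a : Fin 4 → ℤ) : ℤ := c.1 + ∑ i, c.2 i * a i

/-- four times the barycentric coordinates -/
def L4 : K4 → Fin 5 → ℤ × (Fin 4 → ℤ)
  | (false, a, b, c) => ![
      (4 * (1 - odd4 a b c 0 - odd4 a b c 1 - odd4 a b c 2 - odd4 a b c 3),
        ![4 * (2 * odd4 a b c 0 - 1), 4 * (2 * odd4 a b c 1 - 1), 4 * (2 * odd4 a b c 2 - 1),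
          4 * (2 * odd4 a b c 3 - 1)]),
      (4 * odd4 a b c 0, ![4 * (1 - 2 * odd4 a b c 0), 0, 0, 0]),
      (4 * odd4 a b c 1, ![0, 4 * (1 - 2 * odd4 a b c 1), 0, 0]),
      (4 * odd4 a b c 2, ![0, 0, 4 * (1 - 2 * odd4 a b c 2), 0]),
      (4 * odd4 a b c 3, ![0, 0, 0, 4 * (1 - 2 * odd4 a b c 3)])]
  | (true, a, b, c) => ![
      (0, ![1 - bsg a - bsg b - bsg c, 1 - bsg a + bsg b + bsg c, 1 + bsg a - bsg b + bsg c,
        1 + bsg a + bsg b - bsg c]),
      (4, ![-1 - bsg a - bsg b - bsg c, -1 - bsg a + bsg b + bsg c, -1 + bsg a - bsg b + bsg c,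
        -1 + bsg a + bsg b - bsg c]),
      (0, ![2 * bsg a, 2 * bsg a, -2 * bsg a, -2 * bsg a]),
      (0, ![2 * bsg b, -2 * bsg b, 2 * bsg b, -2 * bsg b]),
      (0, ![2 * bsg c, -2 * bsg c, -2 * bsg c, 2 * bsg c])]

lemma L4_P4 : ∀ k i j, evz (L4 k i) (P4 k j) = if i = j then 4 else 0 := by decide +kernel

lemma L4_sum1 : ∀ k, ∑ j, (L4 k j).1 = 4 := by decide +kernel

lemma L4_sum2 : ∀ k i, ∑ j, (L4 k j).2 i = 0 := by decide +kernel

lemma L4_sum3 : ∀ k i, ∑ j, (L4 k j).1 * P4 k j i = 0 := by decide +kernel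

lemma L4_sum4 : ∀ k i i', ∑ j, (L4 k j).2 i' * P4 k j i = if i = i' then 4 else 0 := by
  decide +kernel

lemma P4_01 : ∀ k j i, P4 k j i = 0 ∨ P4 k j i = 1 := by decide +kernel

/-- separating functionals -/
def F4 (k l : K4) : ℤ × (Fin 4 → ℤ) :=
  if k.1 = false then L4 k 0
  else if l.1 = false then (- (L4 l 0).1, fun i => - (L4 l 0).2 i)
  else (0, fun i => (if k.2.1 = l.2.1 then 0 else (L4 k 2).2 i) +
    (if k.2.2.1 = l.2.2.1 then 0 else (L4 k 3).2 i) +
    (if k.2.2.2 = l.2.2.2 then 0 else (L4 k 4).2 i))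

lemma F4_sep : ∀ k l, k ≠ l → (∀ i, 0 ≤ evz (F4 k l) (P4 k i)) ∧
    (∀ j, evz (F4 k l) (P4 l j) ≤ 0) ∧
    ((∀ j, evz (F4 k l) (P4 l j) = 0 → ∃ i, P4 k i = P4 l j) ∨
      (∀ i, evz (F4 k l) (P4 k i) = 0 → ∃ j, P4 l j = P4 k i)) := by decide +kernel

/-- casting integer points -/
def cst (a : Fin 4 → ℤ) : Pt 4 := fun i => (a i : ℝ)

lemma cst_inj {a b : Fin 4 → ℤ} (h : cst a = cst b) : a = b := by
  funext i
  have := congrFun h i
  simp only [cst] at this
  exact_mod_cast this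

/-- the affine map given by integer coefficients -/
noncomputable def evA (c : ℤ × (Fin 4 → ℤ)) : Pt 4 →ᵃ[ℝ] ℝ :=
  AffineMap.const ℝ (Pt 4) (c.1 : ℝ) +
    (∑ i, (c.2 i : ℝ) • (LinearMap.proj i : Pt 4 →ₗ[ℝ] ℝ)).toAffineMap

lemma evA_apply (c : ℤ × (Fin 4 → ℤ)) (x : Pt 4) : evA c x = c.1 + ∑ i, (c.2 i : ℝ) * x i := by
  simp [evA]

lemma evA_cst (c : ℤ × (Fin 4 → ℤ)) (a : Fin 4 → ℤ) : evA c (cst a) = (evz c a : ℝ) := by
  rw [evA_apply]
  simp [evz, cst]

open scoped Classical in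
/-- the vertex sets of the 16 simplices -/
noncomputable def S4 (k : K4) : Finset (Pt 4) := Finset.univ.image fun j => cst (P4 k j)

lemma P4_inj (k : K4) : Function.Injective fun j => cst (P4 k j) := by
  intro i j h
  have h1 := cst_inj h
  have h2 := L4_P4 k i i
  have h3 := L4_P4 k i j
  rw [if_pos rfl] at h2
  rw [← h1, h2] at h3
  by_contra hne
  rw [if_neg hne] at h3
  norm_num at h3

lemma mem_S4 {k : K4} {x : Pt 4} : x ∈ S4 k ↔ ∃ j, cst (P4 k j) = x := by
  simp [S4]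

lemma card_S4 (k : K4) : (S4 k).card = 5 := by
  classical
  unfold S4
  rw [Finset.card_image_of_injective _ (P4_inj k)]
  simp

lemma sum_S4 (k : K4) {M : Type} [AddCommMonoid M] (f : Pt 4 → M) :
    ∑ x ∈ S4 k, f x = ∑ j, f (cst (P4 k j)) := by
  classical
  unfold S4
  rw [Finset.sum_image]
  intro i _ j _ h
  exact P4_inj k h

lemma ai_S4 (k : K4) : AI (S4 k) := by
  intro w h0 h1 x hx
  obtain ⟨j, rfl⟩ := mem_S4.1 hx
  rw [sum_S4] at h0 h1
  have h2 : ∑ i, w (cst (P4 k i)) * evA (L4 k j) (cst (P4 k i)) = 0 := by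
    have h3 : ∀ i', ∑ i, w (cst (P4 k i)) * cst (P4 k i) i' = 0 := by
      intro i'
      have := congrFun h1 i'
      simpa using this
    have h4 : ∀ i, w (cst (P4 k i)) * evA (L4 k j) (cst (P4 k i)) =
        w (cst (P4 k i)) * ((L4 k j).1 : ℝ) +
        ∑ i', ((L4 k j).2 i' : ℝ) * (w (cst (P4 k i)) * cst (P4 k i) i') := by
      intro i
      rw [evA_apply, mul_add, Finset.mul_sum]
      congr 1
      exact Finset.sum_congr rfl fun i' _ => by ring
    simp_rw [h4]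
    rw [Finset.sum_add_distrib, ← Finset.sum_mul, h0, zero_mul, zero_add, Finset.sum_comm]
    refine Finset.sum_eq_zero fun i' _ => ?_
    rw [← Finset.mul_sum, h3, mul_zero]
  have h5 : ∀ i, w (cst (P4 k i)) * evA (L4 k j) (cst (P4 k i)) =
      if j = i then 4 * w (cst (P4 k i)) else 0 := by
    intro i
    rw [evA_cst, L4_P4]
    split_ifs
    · push_cast; ring
    · simp
  simp_rw [h5] at h2
  rw [Finset.sum_ite_eq, if_pos (Finset.mem_univ _)] at h2
  linarith

lemma isSimplex_S4 (k : K4) : IsSimplex 4 (S4 k) :=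
  ⟨card_S4 k, affineIndependent_of_ai (ai_S4 k)⟩

lemma mem_hull_S4 {k : K4} {x : Pt 4} (h : ∀ j, 0 ≤ evA (L4 k j) x) :
    x ∈ convexHull ℝ (S4 k : Set (Pt 4)) := by
  have hx : x = ∑ j, (evA (L4 k j) x / 4) • cst (P4 k j) := by
    funext i
    rw [Finset.sum_apply]
    simp only [Pi.smul_apply, smul_eq_mul, cst, evA_apply]
    have h1 : ∀ j, ((L4 k j).1 + ∑ i', ((L4 k j).2 i' : ℝ) * x i') / 4 * (P4 k j i : ℝ) =
        (1/4) * ((L4 k j).1 * (P4 k j i : ℝ)) +
          ∑ i', (1/4) * (x i' * (((L4 k j).2 i' : ℝ) * (P4 k j i : ℝ))) := by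
      intro j
      rw [add_div, add_mul, Finset.sum_div, Finset.sum_mul]
      congr 1
      · ring
      · exact Finset.sum_congr rfl fun i' _ => by ring
    simp_rw [h1]
    rw [Finset.sum_add_distrib, ← Finset.mul_sum, Finset.sum_comm]
    have h2 : ∑ j, ((L4 k j).1 * (P4 k j i : ℝ)) = 0 := by
      exact_mod_cast L4_sum3 k i
    have h3 : ∀ i', ∑ j, (1/4:ℝ) * (x i' * (((L4 k j).2 i' : ℝ) * (P4 k j i : ℝ))) =
        if i = i' then x i' else 0 := by
      intro i'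
      rw [← Finset.mul_sum, ← Finset.mul_sum]
      have h4 : ∑ j, (((L4 k j).2 i' : ℝ) * (P4 k j i : ℝ)) = if i = i' then 4 else 0 := by
        have := L4_sum4 k i i'
        have h5 : ((∑ j, (L4 k j).2 i' * P4 k j i : ℤ) : ℝ) = ((if i = i' then 4 else 0 : ℤ) : ℝ) := by
          rw [this]
        push_cast at h5
        exact h5
      rw [h4]
      split_ifs
      · ring
      · ring
    simp_rw [h3]
    rw [h2, Finset.sum_ite_eq, if_pos (Finset.mem_univ _)]
    ring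
  rw [hx]
  refine (convex_convexHull ℝ _).sum_mem (fun j _ => div_nonneg (h j) (by norm_num)) ?_ ?_
  · simp_rw [evA_apply]
    rw [← Finset.sum_div, Finset.sum_add_distrib]
    have h1 : ∑ j, ((L4 k j).1 : ℝ) = 4 := by exact_mod_cast L4_sum1 k
    rw [h1, Finset.sum_comm]
    have h2 : ∑ i, ∑ j, ((L4 k j).2 i : ℝ) * x i = 0 := by
      refine Finset.sum_eq_zero fun i _ => ?_
      rw [← Finset.sum_mul]
      have h3 : ∑ j, ((L4 k j).2 i : ℝ) = 0 := by exact_mod_cast L4_sum2 k i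
      rw [h3, zero_mul]
    rw [h2]
    norm_num
  · intro j _
    exact subset_convexHull ℝ _ (mem_S4.2 ⟨j, rfl⟩)

/-- the covering property -/
lemma cover_S4 {x : Pt 4} (hx : x ∈ Set.Icc (0 : Pt 4) 1) :
    ∃ k, ∀ j, 0 ≤ evA (L4 k j) x := by
  have h0 : ∀ i, 0 ≤ x i := hx.1
  have h1 : ∀ i, x i ≤ 1 := hx.2
  by_cases hc : ∃ k : K4, k.1 = false ∧ 0 ≤ evA (L4 k 0) x
  · obtain ⟨⟨q, a, b, c⟩, hq, hk⟩ := hc
    simp only at hq
    subst hq
    refine ⟨(false, a, b, c), ?_⟩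
    intro j
    refine Fin.cases hk (fun j' => ?_) j
    have h00 := h0 0
    have h01 := h0 1
    have h02 := h0 2
    have h03 := h0 3
    have h10 := h1 0
    have h11 := h1 1
    have h12 := h1 2
    have h13 := h1 3
    rw [evA_apply]
    fin_cases j' <;> cases a <;> cases b <;> cases c <;>
      simp [L4, odd4, b01, Fin.sum_univ_four] <;> linarith
  · push Not at hc
    have g1 := hc (false, true, false, false) rfl
    have g2 := hc (false, false, true, false) rfl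
    have g3 := hc (false, false, false, true) rfl
    have g4 := hc (false, false, false, false) rfl
    have g5 := hc (false, false, true, true) rfl
    have g6 := hc (false, true, false, true) rfl
    have g7 := hc (false, true, true, false) rfl
    have g8 := hc (false, true, true, true) rfl
    rw [evA_apply] at g1 g2 g3 g4 g5 g6 g7 g8
    simp [L4, odd4, b01, Fin.sum_univ_four] at g1 g2 g3 g4 g5 g6 g7 g8
    have h00 := h0 0
    have h01 := h0 1
    have h02 := h0 2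
    have h03 := h0 3
    have h10 := h1 0
    have h11 := h1 1
    have h12 := h1 2
    have h13 := h1 3
    obtain ⟨a, ha⟩ : ∃ a : Bool, 0 ≤ (bsg a : ℝ) * (x 0 + x 1 - x 2 - x 3) := by
      rcases le_total 0 (x 0 + x 1 - x 2 - x 3) with h | h
      · exact ⟨true, by simp [bsg]; linarith⟩
      · exact ⟨false, by simp [bsg]; linarith⟩
    obtain ⟨b, hb⟩ : ∃ b : Bool, 0 ≤ (bsg b : ℝ) * (x 0 - x 1 + x 2 - x 3) := by
      rcases le_total 0 (x 0 - x 1 + x 2 - x 3) with h | h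
      · exact ⟨true, by simp [bsg]; linarith⟩
      · exact ⟨false, by simp [bsg]; linarith⟩
    obtain ⟨c, hcc⟩ : ∃ c : Bool, 0 ≤ (bsg c : ℝ) * (x 0 - x 1 - x 2 + x 3) := by
      rcases le_total 0 (x 0 - x 1 - x 2 + x 3) with h | h
      · exact ⟨true, by simp [bsg]; linarith⟩
      · exact ⟨false, by simp [bsg]; linarith⟩
    refine ⟨(true, a, b, c), ?_⟩
    intro j
    rw [evA_apply]
    fin_cases j <;> cases a <;> cases b <;> cases c <;>
      simp [L4, bsg, Fin.sum_univ_four] at ha hb hcc ⊢ <;> linarith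

lemma S4_cube {k : K4} : convexHull ℝ (S4 k : Set (Pt 4)) ⊆ Set.Icc (0 : Pt 4) 1 := by
  apply convexHull_min _ (convex_Icc _ _)
  intro x hx
  obtain ⟨j, rfl⟩ := mem_S4.1 hx
  constructor
  · intro i
    simp only [cst, Pi.zero_apply]
    rcases P4_01 k j i with h | h <;> simp [h]
  · intro i
    simp only [cst, Pi.one_apply]
    rcases P4_01 k j i with h | h <;> simp [h]

lemma S4_inter (k l : K4) :
    convexHull ℝ (S4 k : Set (Pt 4)) ∩ convexHull ℝ (S4 l : Set (Pt 4)) =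
      convexHull ℝ ((S4 k : Set (Pt 4)) ∩ (S4 l : Set (Pt 4))) := by
  rcases eq_or_ne k l with rfl | hkl
  · simp
  · obtain ⟨h1, h2, h3⟩ := F4_sep k l hkl
    rcases h3 with h3 | h3
    · apply hull_inter (evA (F4 k l))
      · intro a ha
        obtain ⟨i, rfl⟩ := mem_S4.1 ha
        rw [evA_cst]
        exact_mod_cast h1 i
      · intro a ha
        obtain ⟨i, rfl⟩ := mem_S4.1 ha
        rw [evA_cst]
        exact_mod_cast h2 i
      · intro a ha h0
        obtain ⟨j, rfl⟩ := mem_S4.1 ha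
        rw [evA_cst] at h0
        obtain ⟨i, hi⟩ := h3 j (by exact_mod_cast h0)
        exact mem_S4.2 ⟨i, by rw [hi]⟩
    · rw [Set.inter_comm, Set.inter_comm (S4 k : Set (Pt 4))]
      apply hull_inter (-(evA (F4 k l)))
      · intro a ha
        obtain ⟨i, rfl⟩ := mem_S4.1 ha
        rw [AffineMap.coe_neg, Pi.neg_apply, evA_cst]
        have := h2 i
        have h4 : (evz (F4 k l) (P4 l i) : ℝ) ≤ 0 := by exact_mod_cast this
        linarith
      · intro a ha
        obtain ⟨i, rfl⟩ := mem_S4.1 ha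
        rw [AffineMap.coe_neg, Pi.neg_apply, evA_cst]
        have := h1 i
        have h4 : (0:ℝ) ≤ (evz (F4 k l) (P4 k i) : ℝ) := by exact_mod_cast this
        linarith
      · intro a ha h0
        obtain ⟨j, rfl⟩ := mem_S4.1 ha
        rw [AffineMap.coe_neg, Pi.neg_apply, evA_cst, neg_eq_zero] at h0
        obtain ⟨i, hi⟩ := h3 j (by exact_mod_cast h0)
        exact mem_S4.2 ⟨i, by rw [hi]⟩

open scoped Classical in
/-- the triangulation -/
noncomputable def T4 : Finset (Finset (Pt 4)) := Finset.univ.image S4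

lemma mem_T4 {S : Finset (Pt 4)} : S ∈ T4 ↔ ∃ k, S4 k = S := by
  simp [T4]

lemma isCover_T4 : IsCover 4 T4 := by
  refine ⟨?_, ?_⟩
  · intro S hS
    obtain ⟨k, rfl⟩ := mem_T4.1 hS
    exact isSimplex_S4 k
  · apply Set.Subset.antisymm
    · intro x hx
      simp only [Set.mem_iUnion] at hx
      obtain ⟨S, hS, hx⟩ := hx
      obtain ⟨k, rfl⟩ := mem_T4.1 hS
      exact S4_cube hx
    · intro x hx
      obtain ⟨k, hk⟩ := cover_S4 hx
      simp only [Set.mem_iUnion]
      exact ⟨S4 k, mem_T4.2 ⟨k, rfl⟩, mem_hull_S4 hk⟩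

lemma isTriangulation_T4 : IsTriangulation 4 T4 := by
  refine ⟨⟨isCover_T4, ?_⟩, ?_⟩
  · intro S hS S' hS' hne
    obtain ⟨k, rfl⟩ := mem_T4.1 hS
    obtain ⟨l, rfl⟩ := mem_T4.1 hS'
    exact disj_of_inter (card_S4 k) (card_S4 l) hne (S4_inter k l)
  · intro S hS S' hS'
    obtain ⟨k, rfl⟩ := mem_T4.1 hS
    obtain ⟨l, rfl⟩ := mem_T4.1 hS'
    exact S4_inter k l

lemma isVertexFamily_T4 : IsVertexFamily 4 T4 := by
  intro S hS x hx i
  obtain ⟨k, rfl⟩ := mem_T4.1 hS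
  obtain ⟨j, rfl⟩ := mem_S4.1 hx
  rcases P4_01 k j i with h | h
  · left; simp [cst, h]
  · right; simp [cst, h]

lemma card_T4 : T4.card = 16 := by
  classical
  apply le_antisymm
  · unfold T4
    refine Finset.card_image_le.trans ?_
    simp
  · exact cover_four isCover_T4

/-- all six numbers are 16 in dimension four -/
theorem six_numbers_four : numC 4 = 16 ∧ numCv 4 = 16 ∧ numD 4 = 16 ∧ numDv 4 = 16 ∧
    numT 4 = 16 ∧ numTv 4 = 16 := by
  have key : ∀ A : Set ℕ, 16 ∈ A → (∀ n ∈ A, 16 ≤ n) → sInf A = 16 := by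
    intro A h1 h2
    exact le_antisymm (Nat.sInf_le h1) (le_csInf ⟨16, h1⟩ h2)
  have h1 := isTriangulation_T4
  refine ⟨key _ ⟨T4, h1.1.1, card_T4⟩ ?_, key _ ⟨T4, h1.1.1, isVertexFamily_T4, card_T4⟩ ?_,
    key _ ⟨T4, h1.1, card_T4⟩ ?_, key _ ⟨T4, h1.1, isVertexFamily_T4, card_T4⟩ ?_,
    key _ ⟨T4, h1, card_T4⟩ ?_, key _ ⟨T4, h1, isVertexFamily_T4, card_T4⟩ ?_⟩
  · rintro n ⟨T, hT, rfl⟩
    exact cover_four hT
  · rintro n ⟨T, hT, -, rfl⟩
    exact cover_four hT
  · rintro n ⟨T, hT, rfl⟩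
    exact cover_four hT.1
  · rintro n ⟨T, hT, -, rfl⟩
    exact cover_four hT.1
  · rintro n ⟨T, hT, rfl⟩
    exact cover_four hT.1.1
  · rintro n ⟨T, hT, -, rfl⟩
    exact cover_four hT.1.1

end Pool.Agent.H43.Cube
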