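import Mathlib
import Pool.Agent.H43.Cube.Bound

/-!
# Numerical lower bounds for covers
-/

set_option autoImplicit false

namespace Pool.Agent.H43.Cube

open Finset

/-- a cover of the cube of dimension five has at least `61` simplices -/
theorem cover_five {T : Finset (Finset (Fin 5 → ℝ))} (hT : IsCover 5 T) : 61 ≤ T.card := by
  have h := cover_bound_adj (n := 4) hT 3 (by norm_num)
    (fun t => ([1/5, 2/15, 1/60] : List ℝ).getD t 0) (by
      intro t
      rcases t with _ | _ | _ | _ <;> norm_num) (1/5) (1/5) (by norm_num)
    (by norm_num) (by
      intro e he
      have h1 := maxDet_one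
      have h2 := maxDet_two
      have h3 := maxDet_three
      have h4 := maxDet_four
      have h5 := maxDet_five
      interval_cases e <;> norm_num [Finset.sum_range_succ, Nat.descFactorial] <;> linarith)
    (by norm_num [Finset.sum_range_succ, Nat.descFactorial])
    (by norm_num [Finset.sum_range_succ, Nat.descFactorial, NC])
    (by norm_num [Finset.sum_range_succ, Nat.descFactorial])
  norm_num [Finset.sum_range_succ, Nat.factorial] at h
  have h' : (((61 : ℕ) : ℝ) - 1) < T.card := by
    push_cast
    linarith
  have h'' : ((61 : ℕ) : ℝ) < T.card + 1 := by linarith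
  have h3 : 61 < T.card + 1 := by exact_mod_cast h''
  omega

/-- a cover of the cube of dimension six has at least `258` simplices -/
theorem cover_six {T : Finset (Finset (Fin 6 → ℝ))} (hT : IsCover 6 T) : 258 ≤ T.card := by
  have h := cover_bound_adj (n := 5) hT 3 (by norm_num)
    (fun t => ([1/10, 1/10, 1/60] : List ℝ).getD t 0) (by
      intro t
      rcases t with _ | _ | _ | _ <;> norm_num) (1/5) (1/5) (by norm_num)
    (by norm_num) (by
      intro e he
      have h1 := maxDet_one
      have h2 := maxDet_two
      have h3 := maxDet_three
      have h4 := maxDet_four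
      have h5 := maxDet_five
      have h6 := maxDet_six
      interval_cases e <;> norm_num [Finset.sum_range_succ, Nat.descFactorial] <;> linarith)
    (by norm_num [Finset.sum_range_succ, Nat.descFactorial])
    (by norm_num [Finset.sum_range_succ, Nat.descFactorial, NC])
    (by norm_num [Finset.sum_range_succ, Nat.descFactorial])
  norm_num [Finset.sum_range_succ, Nat.factorial] at h
  have h' : (((258 : ℕ) : ℝ) - 1) < T.card := by
    push_cast
    linarith
  have h'' : ((258 : ℕ) : ℝ) < T.card + 1 := by linarith
  have h3 : 258 < T.card + 1 := by exact_mod_cast h''
  omega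

/-- a cover of the cube of dimension seven has at least `1162` simplices -/
theorem cover_seven {T : Finset (Finset (Fin 7 → ℝ))} (hT : IsCover 7 T) : 1162 ≤ T.card := by
  have h := cover_bound_adj (n := 6) hT 4 (by norm_num)
    (fun t => ([1/32, 11/160, 1/64, 1/3840] : List ℝ).getD t 0) (by
      intro t
      rcases t with _ | _ | _ | _ | _ <;> norm_num) (143/640) (143/640) (by norm_num)
    (by norm_num) (by
      intro e he
      have h1 := maxDet_one
      have h2 := maxDet_two
      have h3 := maxDet_three
      have h4 := maxDet_four
      have h5 := maxDet_five
      have h6 := maxDet_six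
      have h7 := maxDet_seven
      interval_cases e <;> norm_num [Finset.sum_range_succ, Nat.descFactorial] <;> linarith)
    (by norm_num [Finset.sum_range_succ, Nat.descFactorial])
    (by norm_num [Finset.sum_range_succ, Nat.descFactorial, NC])
    (by norm_num [Finset.sum_range_succ, Nat.descFactorial])
  norm_num [Finset.sum_range_succ, Nat.factorial] at h
  have h' : (((1162 : ℕ) : ℝ) - 1) < T.card := by
    push_cast
    linarith
  have h'' : ((1162 : ℕ) : ℝ) < T.card + 1 := by linarith
  have h3 : 1162 < T.card + 1 := by exact_mod_cast h''
  omega

/-- a cover of the cube of dimension eight has at least `5265` simplices -/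
theorem cover_eight {T : Finset (Finset (Fin 8 → ℝ))} (hT : IsCover 8 T) : 5265 ≤ T.card := by
  have h := cover_bound_adj (n := 7) hT 3 (by norm_num)
    (fun t => ([0, 1/32, 11/640] : List ℝ).getD t 0) (by
      intro t
      rcases t with _ | _ | _ | _ <;> norm_num) (17/80) (139/640) (by norm_num)
    (by norm_num) (by
      intro e he
      have h1 := maxDet_one
      have h2 := maxDet_two
      have h3 := maxDet_three
      have h4 := maxDet_four
      have h5 := maxDet_five
      have h6 := maxDet_six
      have h7 := maxDet_seven
      have h8 := maxDet_eight'
      interval_cases e <;> norm_num [Finset.sum_range_succ, Nat.descFactorial] <;> linarith)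
    (by norm_num [Finset.sum_range_succ, Nat.descFactorial])
    (by norm_num [Finset.sum_range_succ, Nat.descFactorial, NC])
    (by norm_num [Finset.sum_range_succ, Nat.descFactorial])
  norm_num [Finset.sum_range_succ, Nat.factorial] at h
  have h' : (((5265 : ℕ) : ℝ) - 1) < T.card := by
    push_cast
    linarith
  have h'' : ((5265 : ℕ) : ℝ) < T.card + 1 := by linarith
  have h3 : 5265 < T.card + 1 := by exact_mod_cast h''
  omega

/-- a cover of the cube of dimension nine has at least `23343` simplices -/
theorem cover_nine {T : Finset (Finset (Fin 9 → ℝ))} (hT : IsCover 9 T) : 23343 ≤ T.card := by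
  have h := cover_bound_adj (n := 8) hT 4 (by norm_num)
    (fun t => ([0, 0, 1/64, 1/3840] : List ℝ).getD t 0) (by
      intro t
      rcases t with _ | _ | _ | _ | _ <;> norm_num) (41/160) (467/1280) (by norm_num)
    (by norm_num) (by
      intro e he
      have h1 := maxDet_one
      have h2 := maxDet_two
      have h3 := maxDet_three
      have h4 := maxDet_four
      have h5 := maxDet_five
      have h6 := maxDet_six
      have h7 := maxDet_seven
      have h8 := maxDet_eight'
      have h9 := maxDet_nine'
      interval_cases e <;> norm_num [Finset.sum_range_succ, Nat.descFactorial] <;> linarith)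
    (by norm_num [Finset.sum_range_succ, Nat.descFactorial])
    (by norm_num [Finset.sum_range_succ, Nat.descFactorial, NC])
    (by norm_num [Finset.sum_range_succ, Nat.descFactorial])
  norm_num [Finset.sum_range_succ, Nat.factorial] at h
  have h' : (((23343 : ℕ) : ℝ) - 1) < T.card := by
    push_cast
    linarith
  have h'' : ((23343 : ℕ) : ℝ) < T.card + 1 := by linarith
  have h3 : 23343 < T.card + 1 := by exact_mod_cast h''
  omega

/-- a cover of the cube of dimension ten has at least `102793` simplices -/
theorem cover_ten {T : Finset (Finset (Fin 10 → ℝ))} (hT : IsCover 10 T) : 102793 ≤ T.card := by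
  have h := cover_bound_adj (n := 9) hT 4 (by norm_num)
    (fun t => ([1/428, 71/15408, 1909/2336880, 47617/28042560] : List ℝ).getD t 0) (by
      intro t
      rcases t with _ | _ | _ | _ | _ <;> norm_num) (4313/12519) (98539745/179472384) (by norm_num)
    (by norm_num) (by
      intro e he
      have h1 := maxDet_one
      have h2 := maxDet_two
      have h3 := maxDet_three
      have h4 := maxDet_four
      have h5 := maxDet_five
      have h6 := maxDet_six
      have h7 := maxDet_seven
      have h8 := maxDet_eight'
      have h9 := maxDet_nine'
      have h10 := maxDet_ten'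
      interval_cases e <;> norm_num [Finset.sum_range_succ, Nat.descFactorial] <;> linarith)
    (by norm_num [Finset.sum_range_succ, Nat.descFactorial])
    (by norm_num [Finset.sum_range_succ, Nat.descFactorial, NC])
    (by norm_num [Finset.sum_range_succ, Nat.descFactorial])
  norm_num [Finset.sum_range_succ, Nat.factorial] at h
  have h' : (((102793 : ℕ) : ℝ) - 1) < T.card := by
    push_cast
    linarith
  have h'' : ((102793 : ℕ) : ℝ) < T.card + 1 := by linarith
  have h3 : 102793 < T.card + 1 := by exact_mod_cast h''
  omega

/-- a cover of the cube of dimension eleven has at least `521547` simplices -/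
theorem cover_eleven {T : Finset (Finset (Fin 11 → ℝ))} (hT : IsCover 11 T) : 521547 ≤ T.card := by
  have h := cover_bound_adj (n := 10) hT 5 (by norm_num)
    (fun t => ([1/1458, 515/312012, 3691/2496096, 1421029/11794053600, 13074193/94352428800] : List ℝ).getD t 0) (by
      intro t
      rcases t with _ | _ | _ | _ | _ | _ <;> norm_num) (7455301/18720720) (22238862841/33547530240) (by norm_num)
    (by norm_num) (by
      intro e he
      have h1 := maxDet_one
      have h2 := maxDet_two
      have h3 := maxDet_three
      have h4 := maxDet_four
      have h5 := maxDet_five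
      have h6 := maxDet_six
      have h7 := maxDet_seven
      have h8 := maxDet_eight'
      have h9 := maxDet_nine'
      have h10 := maxDet_ten'
      have h11 := maxDet_eleven
      interval_cases e <;> norm_num [Finset.sum_range_succ, Nat.descFactorial] <;> linarith)
    (by norm_num [Finset.sum_range_succ, Nat.descFactorial])
    (by norm_num [Finset.sum_range_succ, Nat.descFactorial, NC])
    (by norm_num [Finset.sum_range_succ, Nat.descFactorial])
  norm_num [Finset.sum_range_succ, Nat.factorial] at h
  have h' : (((521547 : ℕ) : ℝ) - 1) < T.card := by
    push_cast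
    linarith
  have h'' : ((521547 : ℕ) : ℝ) < T.card + 1 := by linarith
  have h3 : 521547 < T.card + 1 := by exact_mod_cast h''
  omega

/-- a cover of the cube of dimension twelve has at least `2845341` simplices -/
theorem cover_twelve {T : Finset (Finset (Fin 12 → ℝ))} (hT : IsCover 12 T) : 2845341 ≤ T.card := by
  have h := cover_bound_adj (n := 11) hT 6 (by norm_num)
    (fun t => ([1/3645, 1/2430, 1933/3120120, 479556199/1937220105600, 7158001/1937220105600, 1104191/107623339200] : List ℝ).getD t 0) (by
      intro t
      rcases t with _ | _ | _ | _ | _ | _ | _ <;> norm_num) (873241673/2017937610) (3070399080371/4132736225280) (by norm_num)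
    (by norm_num) (by
      intro e he
      have h1 := maxDet_one
      have h2 := maxDet_two
      have h3 := maxDet_three
      have h4 := maxDet_four
      have h5 := maxDet_five
      have h6 := maxDet_six
      have h7 := maxDet_seven
      have h8 := maxDet_eight'
      have h9 := maxDet_nine'
      have h10 := maxDet_ten'
      have h11 := maxDet_eleven
      have h12 := maxDet_twelve'
      interval_cases e <;> norm_num [Finset.sum_range_succ, Nat.descFactorial] <;> linarith)
    (by norm_num [Finset.sum_range_succ, Nat.descFactorial])
    (by norm_num [Finset.sum_range_succ, Nat.descFactorial, NC])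
    (by norm_num [Finset.sum_range_succ, Nat.descFactorial])
  norm_num [Finset.sum_range_succ, Nat.factorial] at h
  have h' : (((2845341 : ℕ) : ℝ) - 1) < T.card := by
    push_cast
    linarith
  have h'' : ((2845341 : ℕ) : ℝ) < T.card + 1 := by linarith
  have h3 : 2845341 < T.card + 1 := by exact_mod_cast h''
  omega

end Pool.Agent.H43.Cube
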